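import Pool.Agent.Lib.MP_b5021c_nt.UF.H83.Cno1
import Pool.Agent.Lib.MP_b5021c_nt.UF.H74.Ccn

/-!
# MP_b5021c_nt, rows UF_C1 + UF_C2 over any ring of coefficients (helper83)

The content of the closed element is `1 - v z^d` with a unit `v`.
-/

set_option linter.unusedSectionVars false

namespace Pool.Agent.B5.Cno

open scoped LaurentPolynomial ComplexConjugate
open Polynomial
open Pool.Agent.B5.Dcm (mz)

section

variable {O : Type} [CommRing O] [IsDomain O] [IsPrincipalIdealRing O] [Coef O]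

theorem evR_Tq (z : Circle) (n : ℤ) (q : O[X]) :
    evR z (LaurentPolynomial.T n * toLaurent q : RO O) =
      (z : ℂ) ^ n * (q.map (Coef.emb : O →+* ℂ)).eval (z : ℂ) := by
  rw [map_mul, H07.evR_T, H07.evR_toLaurent]

theorem curve_deriv (z0 : Circle) (q : O[X]) (n : ℤ)
    (h0 : (q.map (Coef.emb : O →+* ℂ)).eval (z0 : ℂ) = 0) :
    HasDerivAt (fun th : ℝ => evR (z0 * Circle.exp th) (LaurentPolynomial.T n * toLaurent q : RO O))
      ((z0 : ℂ) ^ n * ((derivative (q.map (Coef.emb : O →+* ℂ))).eval (z0 : ℂ) *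
        ((z0 : ℂ) * Complex.I))) 0 := by
  have h1 : HasDerivAt (fun th : ℝ => (z0 : ℂ) * Complex.exp ((th : ℂ) * Complex.I))
      ((z0 : ℂ) * Complex.I) 0 := by
    have h2 : HasDerivAt (fun th : ℂ => (z0 : ℂ) * Complex.exp (th * Complex.I))
        ((z0 : ℂ) * (Complex.exp (((0 : ℝ) : ℂ) * Complex.I) * (1 * Complex.I))) ((0 : ℝ) : ℂ) :=
      (((hasDerivAt_id _).mul_const Complex.I).cexp).const_mul _
    have h3 := h2.comp_ofReal
    simpa using h3
  obtain ⟨f, hf⟩ : ∃ f, f = q.map (Coef.emb : O →+* ℂ) := ⟨_, rfl⟩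
  rw [← hf] at h0 ⊢
  have h4 : ∀ th : ℝ, evR (z0 * Circle.exp th) (LaurentPolynomial.T n * toLaurent q : RO O) =
      ((z0 : ℂ) * Complex.exp ((th : ℂ) * Complex.I)) ^ n *
        f.eval ((z0 : ℂ) * Complex.exp ((th : ℂ) * Complex.I)) := by
    intro th
    rw [evR_Tq, Circle.coe_mul, Circle.coe_exp, hf]
  have h5 : HasDerivAt (fun z : ℂ => z ^ n * f.eval z)
      ((n * (z0 : ℂ) ^ (n - 1)) * f.eval (z0 : ℂ) + (z0 : ℂ) ^ n * (derivative f).eval (z0 : ℂ))
      (z0 : ℂ) := by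
    apply HasDerivAt.mul
    · exact hasDerivAt_zpow n _ (Or.inl (Circle.coe_ne_zero z0))
    · exact f.hasDerivAt (z0 : ℂ)
  have h6 : HasDerivAt (fun z : ℂ => z ^ n * f.eval z)
      ((z0 : ℂ) ^ n * (derivative f).eval (z0 : ℂ))
      ((fun th : ℝ => (z0 : ℂ) * Complex.exp ((th : ℂ) * Complex.I)) 0) := by
    rw [h0, mul_zero, zero_add] at h5
    simpa using h5
  have h7 := h6.comp (0 : ℝ) h1
  have h8 : (fun th : ℝ => evR (z0 * Circle.exp th) (LaurentPolynomial.T n * toLaurent q : RO O)) =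
      (fun z : ℂ => z ^ n * f.eval z) ∘
        (fun th : ℝ => (z0 : ℂ) * Complex.exp ((th : ℂ) * Complex.I)) := by
    funext th
    exact h4 th
  rw [h8]
  exact h7.congr_deriv (by ring)

end

section

variable {O : Type} [CommRing O] [IsDomain O] [IsPrincipalIdealRing O] [Coef O]
  {L : Type} [AddCommGroup L]

theorem sl_spec_sum (u : AddChar L Circle) (lam : L →+ ℤ) (z : Circle) (H : AO O L) (s : ℂ) :
    (sl u lam (spec z H)).eval s =
      H.coeff.sum fun a r => evR z r * (u a : ℂ) * s ^ (lam a).toNat := by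
  rw [H59.sl_eval, H59.spec_sum _ _ _ (by intro x; simp)]

theorem sl_cont (h7 : EvRS) (u : AddChar L Circle) (lam : L →+ ℤ) (H : AO O L) (s : ℂ) :
    Continuous fun z : Circle => (sl u lam (spec z H)).eval s := by
  simp only [sl_spec_sum, Finsupp.sum]
  refine continuous_finsetSum _ fun a _ => ?_
  exact (((h7 O).2.2.2 (H.coeff a)).mul continuous_const).mul continuous_const

theorem sl_cst (u : AddChar L Circle) (lam : L →+ ℤ) (z : Circle) (c : RO O) (H : AO O L) (s : ℂ) :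
    (sl u lam (spec z (cst c * H))).eval s = evR z c * (sl u lam (spec z H)).eval s := by
  let f : AO O L →+ ℂ :=
    { toFun := fun H => (sl u lam (spec z (cst c * H))).eval s
      map_zero' := by rw [mul_zero, map_zero, H83.sl_zero, eval_zero]
      map_add' := fun p q => by rw [mul_add, map_add, H83.sl_add, eval_add] }
  let g : AO O L →+ ℂ :=
    { toFun := fun H => evR z c * (sl u lam (spec z H)).eval s
      map_zero' := by rw [map_zero, H83.sl_zero, eval_zero, mul_zero]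
      map_add' := fun p q => by rw [map_add, H83.sl_add, eval_add, mul_add] }
  refine H83.eq_of_single f g H (fun a ha => ?_)
  change (sl u lam (spec z (AddMonoidAlgebra.single 0 c * AddMonoidAlgebra.single a (H.coeff a)))).eval s
    = evR z c * (sl u lam (spec z (AddMonoidAlgebra.single a (H.coeff a)))).eval s
  rw [AddMonoidAlgebra.single_mul_single, zero_add, H83.spec_single, H83.spec_single,
    H83.sl_single, H83.sl_single, eval_monomial, eval_monomial, map_mul]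
  ring

end

section

variable {O : Type} [CommRing O] [IsDomain O] [IsPrincipalIdealRing O] [Coef O]
  {P L : Type} [Fintype P] [DecidableEq P] [AddCommGroup L] [Module.Free ℤ L] [Module.Finite ℤ L]

/-- (UF_C1) at a simple zero of the content, over any ring of coefficients. -/
theorem crso (h2 : MultiS) (h3 : StSpecS) (h6 : G0S) (h7 : EvRS) (h8 : E2S)
    (phi : L →+ (P → ℤ)) (E : AO O L) (S : L) (i0 : P)
    (h : co phi i0 S = 1) (eta : (RO O)ˣ) (c : RO O) (G : AO O (Ker (co phi i0))) (z0 : Circle)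
    (q : O[X]) (n : ℤ) (hcc : CC phi E S i0 eta) (hcl : cl (co phi i0) S h eta E = cst c * G)
    (hc : c = LaurentPolynomial.T n * toLaurent q)
    (hq0 : (q.map (Coef.emb : O →+* ℂ)).eval (z0 : ℂ) = 0)
    (hq1 : (derivative (q.map (Coef.emb : O →+* ℂ))).eval (z0 : ℂ) ≠ 0)
    (hG0 : evR z0 (G.coeff 0) ≠ 0) :
      ∃ ka : ℂ, ∀ a : Ker (co phi i0),
        evR z0 (E.coeff (a : L)) = ka * evR z0 (G.coeff a) := by
  obtain ⟨-, -, lam, hS, hlam⟩ := hcc.ray
  have hq : q ≠ 0 := by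
    rintro rfl
    apply hq1
    simp
  have hc0 : c ≠ 0 := by
    rw [hc]
    intro h0
    have h1 : (toLaurent q : RO O) = 0 := by
      rcases mul_eq_zero.mp h0 with h1 | h1
      · exact absurd h1 (LaurentPolynomial.isUnit_T n).ne_zero
      · exact h1
    exact hq (Polynomial.toLaurent_injective (by rw [h1, map_zero]))
  have hPV : Pos (lam.comp (incl (Ker (co phi i0)))) (cl (co phi i0) S h eta E) :=
    (h6 O P L phi E S i0 eta h hcc).2.2.2.2.2 lam hS hlam
  have hPG : Pos (lam.comp (incl (Ker (co phi i0)))) G := by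
    intro a ha h0
    apply hPV a _ h0
    rw [Finsupp.mem_support_iff] at ha ⊢
    rw [hcl]
    change (AddMonoidAlgebra.single 0 c * G).coeff a ≠ 0
    rw [AddMonoidAlgebra.coeff_single_zero_mul]
    exact mul_ne_zero hc0 ha
  have hPX : Pos (lam.comp (incl (Ker (co phi i0)))) (res (Ker (co phi i0)) E) := by
    intro a ha h0
    rw [Finsupp.mem_support_iff, res_coeff] at ha
    apply hlam _ ha
    · exact fun h => h0 (Subtype.ext h)
    · intro h'
      have h2 : (co phi i0) (a : L) = 0 := a.2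
      rw [h', h] at h2
      exact one_ne_zero h2
  set ga : ℂ := (z0 : ℂ) ^ n * ((derivative (q.map (Coef.emb : O →+* ℂ))).eval (z0 : ℂ) *
    ((z0 : ℂ) * Complex.I)) with hga
  have hga0 : ga ≠ 0 := by
    rw [hga]
    have hz0 : (z0 : ℂ) ≠ 0 := Circle.coe_ne_zero z0
    exact mul_ne_zero (zpow_ne_zero _ hz0) (mul_ne_zero hq1 (mul_ne_zero hz0 Complex.I_ne_zero))
  have key : ∀ (u : AddChar (Ker (co phi i0)) Circle) (s : ℂ), ‖s‖ < 1 →
      ((sl u (lam.comp (incl (Ker (co phi i0)))) (spec z0 (res (Ker (co phi i0)) E))).eval s *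
        (starRingEnd ℂ) (ga * (sl u (lam.comp (incl (Ker (co phi i0)))) (spec z0 G)).eval s)).re = 0 := by
    intro u s hs
    have hcu : Continuous fun th : ℝ => z0 * Circle.exp th := by fun_prop
    have h0 : z0 * Circle.exp 0 = z0 := by rw [Circle.exp_zero, mul_one]
    have := H02.lim_re
      (fun th : ℝ => evR (z0 * Circle.exp th) c)
      (fun th : ℝ => (sl u (lam.comp (incl (Ker (co phi i0))))
        (spec (z0 * Circle.exp th) (res (Ker (co phi i0)) E))).eval s)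
      (fun th : ℝ => (sl u (lam.comp (incl (Ker (co phi i0))))
        (spec (z0 * Circle.exp th) G)).eval s) ga
      (by rw [hc]; exact curve_deriv z0 q n hq0)
      (by rw [h0, hc, evR_Tq, hq0, mul_zero])
      ((sl_cont h7 u _ _ s).comp hcu).continuousAt
      ((sl_cont h7 u _ _ s).comp hcu).continuousAt
      (by
        intro th
        have h1 := H02.re_nn h2 h3 h7 h8 phi E S i0 eta h hcc lam hS hlam (z0 * Circle.exp th) u s hs
        rw [hcl, sl_cst] at h1
        exact h1)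
    simp only [h0] at this
    exact this
  have hX0 : ∀ u : AddChar (Ker (co phi i0)) Circle,
      (sl u (lam.comp (incl (Ker (co phi i0)))) (spec z0 (res (Ker (co phi i0)) E))).eval 0 =
        evR z0 (E.coeff 0) := by
    intro u
    rw [← Polynomial.coeff_zero_eq_eval_zero, H83.sl_coeff_zero (H83.pos_spec hPX z0), spec_coeff,
      res_coeff]
    rfl
  have hG0' : ∀ u : AddChar (Ker (co phi i0)) Circle,
      (sl u (lam.comp (incl (Ker (co phi i0)))) (spec z0 G)).eval 0 = evR z0 (G.coeff 0) := by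
    intro u
    rw [← Polynomial.coeff_zero_eq_eval_zero, H83.sl_coeff_zero (H83.pos_spec hPG z0), spec_coeff]
  have hpoly : ∀ u : AddChar (Ker (co phi i0)) Circle,
      C (evR z0 (G.coeff 0)) *
        sl u (lam.comp (incl (Ker (co phi i0)))) (spec z0 (res (Ker (co phi i0)) E)) =
      C (evR z0 (E.coeff 0)) * sl u (lam.comp (incl (Ker (co phi i0)))) (spec z0 G) := by
    intro u
    have h1 := H02.prop_of_re _ _ ga hga0 (by rw [hG0' u]; exact hG0) (key u)
    rw [hG0' u, hX0 u] at h1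
    exact h1
  have hz : AddMonoidAlgebra.single 0 (evR z0 (G.coeff 0)) * spec z0 (res (Ker (co phi i0)) E) -
      AddMonoidAlgebra.single 0 (evR z0 (E.coeff 0)) * spec z0 G = 0 := by
    apply H78.eq_zero_of_evC
    intro u
    have h1 := congrArg (fun p : ℂ[X] => p.eval 1) (hpoly u)
    simp only [eval_mul, eval_C] at h1
    have h2 : ∀ p : CA (Ker (co phi i0)),
        (sl u (lam.comp (incl (Ker (co phi i0)))) p).eval 1 = evC u p := by
      intro p
      rw [H59.sl_eval, evC_apply]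
      refine Finsupp.sum_congr fun a _ => ?_
      rw [one_pow, mul_one]
    have h3 : ∀ x : ℂ, evC u (AddMonoidAlgebra.single 0 x : CA (Ker (co phi i0))) = x := by
      intro x
      rw [evC_apply, AddMonoidAlgebra.coeff_single, Finsupp.sum_single_index (by simp),
        AddChar.map_zero_eq_one]
      simp
    rw [map_sub, map_mul, map_mul, h3, h3, ← h2, ← h2, h1, sub_self]
  refine ⟨evR z0 (E.coeff 0) / evR z0 (G.coeff 0), fun a => ?_⟩
  have h1 := congrArg (fun p : CA (Ker (co phi i0)) => p.coeff a) hz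
  simp only [AddMonoidAlgebra.coeff_sub, Finsupp.sub_apply, AddMonoidAlgebra.coeff_single_zero_mul,
    spec_coeff, res_coeff] at h1
  rw [div_mul_eq_mul_div, eq_div_iff hG0]
  have h4 : evR z0 (G.coeff 0) * evR z0 (E.coeff (a : L)) -
      evR z0 (E.coeff 0) * evR z0 (G.coeff a) = 0 := h1
  linear_combination h4

end

/-! ## Monomials -/

section

variable {O : Type} [CommRing O] [IsDomain O] [IsPrincipalIdealRing O] [Coef O]

theorem mz_coeff (k : ℤ) (s : O) (G : RO O) (l : ℤ) :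
    (mz k s * G).coeff l = s * G.coeff (l - k) := by
  unfold mz
  rw [AddMonoidAlgebra.coeff_single_mul_eq_mul_coeff (l - k)]
  intro m' _
  constructor
  · intro h3
    rw [← h3]
    abel
  · intro h3
    rw [h3]
    abel

theorem mz_eq (k : ℤ) (s : O) : (mz k s : RO O) = toLaurent (C s) * LaurentPolynomial.T k := by
  rw [toLaurent_C, ← LaurentPolynomial.single_eq_C_mul_T]
  rfl

theorem evR_mz (z : Circle) (k : ℤ) (s : O) : evR z (mz k s : RO O) = Coef.emb s * (z : ℂ) ^ k := by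
  rw [mz_eq, map_mul, H07.evR_toLaurent, H07.evR_T, map_C, eval_C]

theorem mz_zero (s : O) : (mz 0 s : RO O) = toLaurent (C s) := by
  rw [mz_eq, LaurentPolynomial.T_zero, mul_one]

theorem tl_coeff_nonneg (p : O[X]) (n : ℕ) : (toLaurent p).coeff (n : ℤ) = p.coeff n := by
  induction p using Polynomial.induction_on' with
  | add p q hp hq =>
    rw [map_add, coeff_add, ← hp, ← hq]
    rfl
  | monomial k c =>
    rw [← C_mul_X_pow_eq_monomial, toLaurent_C_mul_X_pow, coeff_C_mul_X_pow]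
    rw [← LaurentPolynomial.single_eq_C_mul_T, AddMonoidAlgebra.coeff_single, Finsupp.single_apply]
    simp only [Nat.cast_inj, eq_comm]

theorem tl_coeff_neg (p : O[X]) (n : ℤ) (hn : n < 0) : (toLaurent p).coeff n = 0 := by
  induction p using Polynomial.induction_on' with
  | add p q hp hq =>
    rw [map_add]
    change (toLaurent p).coeff n + (toLaurent q).coeff n = 0
    rw [hp, hq, add_zero]
  | monomial k c =>
    rw [← C_mul_X_pow_eq_monomial, toLaurent_C_mul_X_pow]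
    rw [← LaurentPolynomial.single_eq_C_mul_T, AddMonoidAlgebra.coeff_single, Finsupp.single_apply]
    rw [if_neg]
    omega

/-- Comparison of two normal forms. -/
theorem lau_cmp {e : ℤ} {s : O} {q F : O[X]} (h : mz e s * toLaurent q = (toLaurent F : RO O))
    (hs : s ≠ 0) (hq : q.coeff 0 ≠ 0) (hF : F.coeff 0 ≠ 0) : e = 0 ∧ F = C s * q := by
  have he : e = 0 := by
    have h1 : (mz e s * toLaurent q : RO O).coeff 0 = (toLaurent F : RO O).coeff 0 := by rw [h]
    rw [mz_coeff] at h1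
    have h5 : (toLaurent F : RO O).coeff 0 = F.coeff 0 := tl_coeff_nonneg F 0
    have h6 : (toLaurent q : RO O).coeff 0 = q.coeff 0 := tl_coeff_nonneg q 0
    have h2 : 0 ≤ 0 - e := by
      by_contra hcon
      push Not at hcon
      rw [tl_coeff_neg _ _ hcon, mul_zero, h5] at h1
      exact hF h1.symm
    have h3 : (mz e s * toLaurent q : RO O).coeff e = (toLaurent F : RO O).coeff e := by rw [h]
    rw [mz_coeff, sub_self, h6] at h3
    have h4 : 0 ≤ e := by
      by_contra hcon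
      push Not at hcon
      rw [tl_coeff_neg _ _ hcon] at h3
      exact mul_ne_zero hs hq h3
    lia
  subst he
  refine ⟨rfl, ?_⟩
  apply Polynomial.toLaurent_injective
  rw [← h, map_mul, mz_zero]

theorem gcdz {L : Type} [AddCommGroup L] {q : ℕ} {l : L →+ ℤ} {n : ℤ} {G : AO O L}
    (hq : 0 < q) (hG : ∀ (a : L) (k : ℤ), (G.coeff a).coeff k ≠ 0 → (q : ℤ) * k = l a + (q : ℤ) * n)
    (a : L) : ∃ (k : ℤ) (g : O), G.coeff a = mz k g := by
  by_cases h0 : G.coeff a = 0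
  · refine ⟨0, 0, ?_⟩
    rw [h0]
    unfold mz
    rw [AddMonoidAlgebra.single_zero]
  · have h1 : ∃ k, (G.coeff a).coeff k ≠ 0 := by
      by_contra hcon
      push Not at hcon
      apply h0
      apply AddMonoidAlgebra.ext
      ext k
      exact hcon k
    obtain ⟨k, hk⟩ := h1
    refine ⟨k, (G.coeff a).coeff k, ?_⟩
    apply AddMonoidAlgebra.ext
    ext k'
    unfold mz
    rw [AddMonoidAlgebra.coeff_single, Finsupp.single_apply]
    by_cases h2 : k = k'
    · rw [if_pos h2, h2]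
    · rw [if_neg h2]
      by_contra h3
      have h4 := hG a k hk
      have h5 := hG a k' h3
      rw [← h5] at h4
      have h6 : (q : ℤ) ≠ 0 := by exact_mod_cast hq.ne'
      exact h2 (mul_left_cancel₀ h6 h4)

theorem circ_ne (z : Circle) : (z : ℂ) ≠ 0 := Circle.coe_ne_zero z

/-- The multiplier is a Laurent polynomial with coefficients in `O`. -/
theorem kap_ex {L L' : Type} [AddCommGroup L] [AddCommGroup L'] {E : AO O L} {G : AO O L'}
    (f : L' → L) (hP : Prim G) (hm : ∀ a, ∃ (k : ℤ) (g : O), G.coeff a = mz k g)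
    (Z : Circle → Prop) :
    ∃ κ : RO O, ∀ z : Circle, Z z → ∀ ka : ℂ,
      (∀ a, evR z (E.coeff (f a)) = ka * evR z (G.coeff a)) → evR z κ = ka := by
  obtain ⟨J, hJ⟩ : ∃ J : Ideal O, ∀ x : O, x ∈ J ↔ ∃ κ : RO O, ∀ z : Circle, Z z → ∀ ka : ℂ,
      (∀ a, evR z (E.coeff (f a)) = ka * evR z (G.coeff a)) → evR z κ = Coef.emb x * ka := by
    refine ⟨{ carrier := {x | ∃ κ : RO O, ∀ z : Circle, Z z → ∀ ka : ℂ,
      (∀ a, evR z (E.coeff (f a)) = ka * evR z (G.coeff a)) → evR z κ = Coef.emb x * ka}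
              zero_mem' := ⟨0, fun z _ ka _ => by simp⟩
              add_mem' := ?_
              smul_mem' := ?_ }, fun x => Iff.rfl⟩
    · rintro x y ⟨κ, hκ⟩ ⟨κ', hκ'⟩
      refine ⟨κ + κ', fun z hz ka h => ?_⟩
      rw [map_add, hκ z hz ka h, hκ' z hz ka h, map_add]
      ring
    · rintro c x ⟨κ, hκ⟩
      refine ⟨mz 0 c * κ, fun z hz ka h => ?_⟩
      rw [map_mul, hκ z hz ka h, evR_mz, zpow_zero, mul_one, smul_eq_mul, map_mul]
      ring
  obtain ⟨d, hd⟩ := (IsPrincipalIdealRing.principal J).principal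
  have hgen : ∀ x, x ∈ J → d ∣ x := by
    intro x hx
    rw [hd] at hx
    exact (Ideal.mem_span_singleton).mp hx
  have hdu : IsUnit d := by
    have h1 : IsUnit (mz 0 d : RO O) := by
      apply hP
      rw [H14.cst_dvd_iff]
      intro a
      obtain ⟨k, g, hg⟩ := hm a
      have h2 : g ∈ J := by
        rw [hJ]
        refine ⟨mz (-k) 1 * E.coeff (f a), fun z hz ka h => ?_⟩
        have hz0 : (z : ℂ) ≠ 0 := circ_ne z
        rw [map_mul, evR_mz, h a, hg, evR_mz, zpow_neg, map_one]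
        have h3 : (z : ℂ) ^ k ≠ 0 := zpow_ne_zero k hz0
        field_simp
      obtain ⟨t, ht⟩ := hgen g h2
      refine ⟨mz k t, ?_⟩
      rw [hg, Dcm.mz_mul, zero_add, ht]
    obtain ⟨t, ht⟩ := h1.exists_right_inv
    have h2 : (mz 0 d * t : RO O).coeff 0 = (1 : RO O).coeff 0 := by rw [ht]
    rw [mz_coeff] at h2
    have h3 : (1 : RO O).coeff 0 = 1 := by
      rw [AddMonoidAlgebra.one_def, AddMonoidAlgebra.coeff_single, Finsupp.single_eq_same]
    rw [h3] at h2
    exact IsUnit.of_mul_eq_one _ h2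
  have h1 : (1 : O) ∈ J := by
    rw [hd]
    exact Ideal.mem_span_singleton.mpr hdu.dvd
  obtain ⟨κ, hκ⟩ := (hJ 1).mp h1
  refine ⟨κ, fun z hz ka h => ?_⟩
  rw [hκ z hz ka h, map_one, one_mul]

/-- Divisibility by a polynomial with simple zeros on the circle. -/
theorem dvd1 {q f : O[X]} {Z : Finset ℂ} (hq : q.map (Coef.emb : O →+* ℂ) = QQ Z)
    (hZ : ∀ ζ ∈ Z, ‖ζ‖ = 1) (hf : ∀ ζ ∈ Z, (f.map (Coef.emb : O →+* ℂ)).eval ζ = 0) : q ∣ f := by
  have hZ0 : ∀ ζ ∈ Z, ζ ≠ 0 := by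
    intro ζ hζ h
    have := hZ ζ hζ
    rw [h, norm_zero] at this
    exact zero_ne_one this
  have hqz : ∀ ζ ∈ Z, (q.map (Coef.emb : O →+* ℂ)).eval ζ = 0 := by
    intro ζ hζ
    rw [hq]
    exact (QQ_eval hZ0).mpr hζ
  have hql : IsUnit q.leadingCoeff := by
    apply unit_norm
    rw [← leadingCoeff_map_of_injective emb_inj, hq]
    exact QQ_lead hZ
  obtain ⟨ul, hul⟩ := hql
  obtain ⟨q', hq'⟩ : ∃ q' : O[X], q' = C ((ul⁻¹ : Oˣ) : O) * q := ⟨_, rfl⟩
  have hmon : q'.Monic := by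
    rw [hq', Monic, leadingCoeff_mul, leadingCoeff_C, ← hul, Units.inv_mul]
  have hqd : q.natDegree = Z.card := by
    rw [← QQ_deg hZ0, ← hq, natDegree_map_eq_of_injective emb_inj]
  have hqdvd : q ∣ q' := ⟨C ((ul⁻¹ : Oˣ) : O), by rw [hq']; ring⟩
  have hqdvd' : q ∣ q' := hqdvd
  obtain ⟨r, hr⟩ : ∃ r, r = f %ₘ q' := ⟨_, rfl⟩
  have hr0 : r = 0 := by
    apply Polynomial.map_injective (Coef.emb : O →+* ℂ) emb_inj
    rw [Polynomial.map_zero]
    refine interp (Z := Z) ?_ (by rw [degree_zero]; exact WithBot.bot_lt_coe _) fun ζ hζ => ?_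
    · refine (degree_map_le).trans_lt ?_
      have h1 := degree_modByMonic_lt f hmon
      rw [← hr, degree_eq_natDegree hmon.ne_zero, hq', natDegree_C_mul (Units.ne_zero _), hqd] at h1
      exact h1
    · have h1 := modByMonic_add_div f q'
      rw [← hr] at h1
      have h2 := hf ζ hζ
      rw [← h1, Polynomial.map_add, Polynomial.map_mul, hq', Polynomial.map_mul, eval_add, eval_mul,
        eval_mul, hqz ζ hζ] at h2
      rw [eval_zero]
      linear_combination h2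
  have h1 : q' ∣ f := by
    rw [← modByMonic_eq_zero_iff_dvd hmon, ← hr, hr0]
  exact hqdvd.trans h1

theorem cst_dvd_prim {L : Type} [AddCommGroup L] {u : RO O} (hu : IsUnit u) {G : AO O L}
    (h : Prim G) : Prim (cst u * G) := by
  intro c hc
  apply h
  rw [H14.cst_dvd_iff] at hc ⊢
  intro a
  have h1 := hc a
  rw [H14.coeff_cst_mul] at h1
  exact (hu.dvd_mul_left).mp h1

end

/-- (UF_C1) + (UF_C2) over any ring of coefficients: the content of the closed element is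
`1 - v z^d`, `v` a unit, and the part of `E` without the port `i0` is congruent to `G'` modulo the
content. -/
def CnoS : Prop := ∀ (O : Type) [CommRing O] [IsDomain O] [IsPrincipalIdealRing O] [Coef O]
  (P L : Type) [Fintype P] [DecidableEq P] [AddCommGroup L] [Module.Free ℤ L] [Module.Finite ℤ L]
  (phi : L →+ (P → ℤ)) (E : AO O L) (S : L) (i0 : P) (h : co phi i0 S = 1) (eta : (RO O)ˣ)
  (c : RO O) (G : AO O (Ker (co phi i0))) (N : ℝ) (p0 p1 : O[X]) (u0 : (RO O)ˣ),
    DD phi E → 2 ≤ Module.finrank ℤ L → Ray E S →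
    cl (co phi i0) S h eta E = cst c * G → ZFree G → Prim G → ClassV 1 c → ¬ IsUnit c →
    ClassV N (E.coeff 0) → (u0 : RO O) * E.coeff 0 = toLaurent p0 →
    (u0 : RO O) * ((eta : RO O) * E.coeff S) = -toLaurent p1 →
    p0.coeff 0 ≠ 0 → p0.coeff 0 - p1.coeff 0 ≠ 0 →
    2 * ((Coef.emb (p0.coeff 0) : ℂ) / Coef.emb (p0.coeff 0 - p1.coeff 0)).re ≤ 3 →
      ∃ (d : ℕ) (v : Oˣ) (G' R : AO O (Ker (co phi i0))), 1 ≤ d ∧
        p0 - p1 = C (p0.coeff 0 - p1.coeff 0) * (1 - C (v : O) * X ^ d) ∧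
        cl (co phi i0) S h eta E = cst (toLaurent (1 - C (v : O) * X ^ d)) * G' ∧
        (∃ w : (RO O)ˣ, G' = cst (w : RO O) * G) ∧ ZFree G' ∧ Prim G' ∧
        (u0 : RO O) * G'.coeff 0 = toLaurent (C (p0.coeff 0 - p1.coeff 0)) ∧
        ∀ a : Ker (co phi i0), E.coeff (a : L) =
          G'.coeff a + toLaurent (1 - C (v : O) * X ^ d) * R.coeff a

theorem cno (hM : MultiS) (hSt : StSpecS) (hEv : EvRS) (hE2 : E2S) (hG0 : G0S) : CnoS := by
  classical
  intro O _ _ _ _ P L _ _ _ _ _ phi E S i0 h eta c G N p0 p1 u0 hD h2 hRay hcl hZf0 hPr hc hcu hV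
    h0 h1 hp0ne hal' hlt
  obtain ⟨hz0, -, -, -, -, hr⟩ := hE2 O P L phi E hD h2
  obtain ⟨hle, zz, hzz⟩ := hr S hRay
  obtain ⟨a', ha'⟩ : ∃ a', a' = p0.coeff 0 - p1.coeff 0 := ⟨_, rfl⟩
  rw [← ha'] at hal' hlt ⊢
  have hV0 : (u0 : RO O) * (E.coeff 0 + (eta : RO O) * E.coeff S) = toLaurent (p0 - p1) := by
    rw [mul_add, h0, h1, map_sub]
    ring
  have hpp : (p0 - p1).coeff 0 = a' := by rw [coeff_sub, ha']
  have hne0 : E.coeff 0 + (eta : RO O) * E.coeff S ≠ 0 := by
    intro h3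
    rw [h3, mul_zero] at hV0
    have h4 : p0 - p1 = 0 := Polynomial.toLaurent_injective (by rw [← hV0, map_zero])
    rw [h4, coeff_zero] at hpp
    exact hal' hpp.symm
  have hCC : CC phi E S i0 eta := ⟨hD, h2, hRay, h, hne0⟩
  obtain ⟨-, -, hcl0, -⟩ := hG0 O P L phi E S i0 eta h hCC
  obtain ⟨qG, lG, nG, hqG, hZf⟩ := hZf0
  obtain ⟨-, n1, q1, hcq, hq1, hq1z⟩ := hc
  obtain ⟨sg, hsg⟩ := unit_norm hq1
  obtain ⟨c1, hc1⟩ : ∃ c1 : O[X], c1 = C ((sg⁻¹ : Oˣ) : O) * q1 := ⟨_, rfl⟩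
  have hc10 : c1.coeff 0 = 1 := by rw [hc1, coeff_C_mul, ← hsg, Units.inv_mul]
  have hq1c : q1 = C (sg : O) * c1 := by
    rw [hc1, ← mul_assoc, ← C_mul, Units.mul_inv, C_1, one_mul]
  have hcc : c = mz n1 (sg : O) * toLaurent c1 := by
    rw [hcq, hq1c, map_mul, mz_eq]
    ring
  have huw : IsUnit (mz n1 (sg : O) : RO O) := by
    refine IsUnit.of_mul_eq_one (mz (-n1) ((sg⁻¹ : Oˣ) : O)) ?_
    rw [Dcm.mz_mul, add_neg_cancel, Units.mul_inv]
    rfl
  obtain ⟨ku, su, hsu⟩ := Dcm.unit_mz u0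
  have hsu0 : (su : O) ≠ 0 := su.ne_zero
  -- the constant coefficient of `G`
  obtain ⟨g0, hg0⟩ : ∃ g0, G.coeff 0 = mz nG g0 := by
    obtain ⟨k, g, hg⟩ := gcdz hqG hZf 0
    by_cases hg' : g = 0
    · refine ⟨0, ?_⟩
      rw [hg, hg']
      unfold mz
      rw [AddMonoidAlgebra.single_zero, AddMonoidAlgebra.single_zero]
    · refine ⟨g, ?_⟩
      have h3 := hZf 0 k (by
        rw [hg]
        unfold mz
        rw [AddMonoidAlgebra.coeff_single, Finsupp.single_eq_same]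
        exact hg')
      rw [map_zero, zero_add] at h3
      have h4 : (qG : ℤ) ≠ 0 := by exact_mod_cast hqG.ne'
      rw [hg, mul_left_cancel₀ h4 h3]
  have hcl0' : c * G.coeff 0 = E.coeff 0 + (eta : RO O) * E.coeff S := by
    rw [← hcl0, hcl, H14.coeff_cst_mul]
  have hid : (mz (ku + n1 + nG) ((su : O) * sg * g0) * toLaurent c1 : RO O) =
      toLaurent (p0 - p1) := by
    rw [← hV0, ← hcl0', hcc, hg0, hsu]
    have h3 : (mz (ku + n1 + nG) ((su : O) * sg * g0) : RO O) =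
        mz ku (su : O) * mz n1 (sg : O) * mz nG g0 := by
      rw [Dcm.mz_mul, Dcm.mz_mul]
    rw [h3]
    ring
  have hs0 : (su : O) * sg * g0 ≠ 0 := by
    intro h3
    rw [h3] at hid
    have h4 : (mz (ku + n1 + nG) 0 : RO O) = 0 := by
      unfold mz
      rw [AddMonoidAlgebra.single_zero]
    rw [h4, zero_mul] at hid
    have h5 : p0 - p1 = 0 := Polynomial.toLaurent_injective (by rw [← hid, map_zero])
    rw [h5, coeff_zero] at hpp
    exact hal' hpp.symm
  obtain ⟨he, hF⟩ := lau_cmp hid hs0 (by rw [hc10]; exact one_ne_zero) (by rw [hpp]; exact hal')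
  have hs : (su : O) * sg * g0 = a' := by
    rw [← hpp, hF, coeff_C_mul, hc10, mul_one]
  rw [hs] at hF
  obtain ⟨G', hG'⟩ : ∃ G', G' = cst (mz n1 (sg : O)) * G := ⟨_, rfl⟩
  have hcl' : cl (co phi i0) S h eta E = cst (toLaurent c1) * G' := by
    rw [hcl, hG', hcc, H14.cst_mul]
    ring
  have hZf' : ∀ (a : Ker (co phi i0)) (k : ℤ), (G'.coeff a).coeff k ≠ 0 →
      (qG : ℤ) * k = lG a + (qG : ℤ) * (nG + n1) := by
    intro a k hk
    rw [hG', H14.coeff_cst_mul, mz_coeff] at hk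
    have h3 := hZf a (k - n1) (right_ne_zero_of_mul hk)
    linear_combination h3
  have hG'0 : (u0 : RO O) * G'.coeff 0 = toLaurent (C a') := by
    rw [hG', H14.coeff_cst_mul, hg0, hsu, ← mul_assoc, Dcm.mz_mul, Dcm.mz_mul, he, hs, mz_zero]
  have hPrim : Prim G' := by
    rw [hG']
    exact cst_dvd_prim huw hPr
  -- complex numbers
  obtain ⟨al, hal⟩ : ∃ al : ℂ, al = Coef.emb a' := ⟨_, rfl⟩
  have hal0 : al ≠ 0 := by
    rw [hal]
    exact fun h3 => hal' (emb_inj (by rw [h3, map_zero]))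
  obtain ⟨x, hx⟩ : ∃ x, x = p0.map (Coef.emb : O →+* ℂ) := ⟨_, rfl⟩
  obtain ⟨y, hy⟩ : ∃ y, y = p1.map (Coef.emb : O →+* ℂ) := ⟨_, rfl⟩
  obtain ⟨q, hq⟩ : ∃ q, q = c1.map (Coef.emb : O →+* ℂ) := ⟨_, rfl⟩
  have hxy : x - y = C al * q := by
    rw [hx, hy, hq, ← Polynomial.map_sub, hF, Polynomial.map_mul, map_C, hal]
  have hq0 : q.coeff 0 = 1 := by rw [hq, coeff_map, hc10, map_one]
  have hG'0z : ∀ z : Circle, evR z (u0 : RO O) * evR z (G'.coeff 0) = al := by
    intro z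
    rw [← map_mul, hG'0, H07.evR_toLaurent, map_C, eval_C, hal]
  have hu0n : ∀ z : Circle, ‖evR z (u0 : RO O)‖ = 1 := fun z => (hEv O).2.1 z _ u0.isUnit
  have hetan : ∀ z : Circle, ‖evR z (eta : RO O)‖ = 1 := fun z => (hEv O).2.1 z _ eta.isUnit
  have hp0n : ∀ z : Circle, ‖x.eval (z : ℂ)‖ = ‖evR z (E.coeff 0)‖ := by
    intro z
    rw [hx, ← H07.evR_toLaurent, ← h0, map_mul, norm_mul, hu0n, one_mul]
  have hp1n : ∀ z : Circle, ‖y.eval (z : ℂ)‖ = ‖evR z (E.coeff S)‖ := by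
    intro z
    rw [hy, ← H07.evR_toLaurent, ← norm_neg, ← map_neg, ← h1, map_mul, map_mul, norm_mul, norm_mul,
      hu0n, hetan, one_mul, one_mul]
  have hcir : ∀ z : ℂ, ‖z‖ = 1 → ∃ w : Circle, (w : ℂ) = z := fun z hz =>
    ⟨⟨z, mem_sphere_zero_iff_norm.mpr hz⟩, rfl⟩
  have hp0z : ∀ z : ℂ, ‖z‖ < 1 → x.eval z ≠ 0 := by
    intro z hz
    obtain ⟨hN1, n2, q2, hq2, hq20, hq2z⟩ := hV
    have hq20' : q2.coeff 0 ≠ 0 := by
      intro h4
      rw [h4, map_zero, norm_zero] at hq20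
      linarith
    have h4 : (mz (ku + n2) (su : O) * toLaurent q2 : RO O) = toLaurent p0 := by
      rw [← h0, hsu, hq2, mz_eq, mz_eq, LaurentPolynomial.T_add]
      ring
    obtain ⟨-, h5⟩ := lau_cmp h4 hsu0 hq20' hp0ne
    rw [hx, h5, Polynomial.map_mul, eval_mul, map_C, eval_C]
    refine mul_ne_zero ?_ (hq2z z hz)
    exact fun h6 => hsu0 (emb_inj (by rw [h6, map_zero]))
  have hc1z : ∀ z : ℂ, ‖z‖ < 1 → (c1.map (Coef.emb : O →+* ℂ)).eval z ≠ 0 := by
    intro z hz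
    rw [hc1, Polynomial.map_mul, eval_mul, map_C, eval_C]
    refine mul_ne_zero ?_ (hq1z z hz)
    exact fun h6 => (sg⁻¹).ne_zero (emb_inj (by rw [h6, map_zero]))
  have hle' : ∀ z : ℂ, ‖z‖ = 1 → ‖y.eval z‖ ≤ ‖x.eval z‖ := by
    intro z hz
    obtain ⟨w, rfl⟩ := hcir z hz
    rw [hp0n, hp1n]
    exact hle w
  obtain ⟨Z, ρ, A, hqZ, hZp, -, -, hsum, hsumeq⟩ := rho hal0 hxy hq0 hp0z hle' (by
    intro z hz
    have h3 := unim hc10 hc1z (z := z) (by rw [← hq]; exact hz)
    refine ⟨h3, ?_⟩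
    obtain ⟨w, rfl⟩ := hcir z h3
    intro h4
    have h5 := hp0n w
    rw [h4, norm_zero] at h5
    exact hz0 w (norm_eq_zero.mp h5.symm))
  have hZ1 : ∀ ζ ∈ Z, ‖ζ‖ = 1 := fun ζ hζ => (hZp ζ hζ).1
  have hZ0 : ∀ ζ ∈ Z, ζ ≠ 0 := by
    intro ζ hζ h
    have := hZ1 ζ hζ
    rw [h, norm_zero] at this
    exact zero_ne_one this
  have hqz : ∀ ζ ∈ Z, q.eval ζ = 0 := by
    intro ζ hζ
    rw [hqZ]
    exact (QQ_eval hZ0).mpr hζ
  have hs2 : ∑ ζ ∈ Z, ρ ζ < 2 := by
    have h3 : x.eval 0 = Coef.emb (p0.coeff 0) := by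
      rw [← coeff_zero_eq_eval_zero, hx, coeff_map]
    rw [h3] at hsum hsumeq
    rw [hal] at hsum hsumeq
    by_contra hcon
    have h5 := hsumeq (by linarith) (zz : ℂ) (Circle.norm_coe zz)
    rw [hp0n, hp1n] at h5
    exact hzz h5
  have hne : Z.Nonempty := by
    rw [Finset.nonempty_iff_ne_empty]
    rintro rfl
    apply hcu
    have h3 : c1 = 1 := by
      apply Polynomial.map_injective (Coef.emb : O →+* ℂ) emb_inj
      rw [← hq, hqZ, Polynomial.map_one]
      unfold QQ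
      rw [Finset.prod_empty]
    rw [hcc, h3, map_one, mul_one]
    exact huw
  -- the multiplier
  have hka : ∀ z : Circle, (z : ℂ) ∈ Z → ∃ ka : ℂ,
      (∀ a : Ker (co phi i0), evR z (E.coeff (a : L)) = ka * evR z (G'.coeff a)) ∧
      ka = ρ (z : ℂ) * (QQ (Z.erase (z : ℂ))).eval (z : ℂ) := by
    intro z hz
    obtain ⟨ka, hka⟩ := crso hM hSt hG0 hEv hE2 phi E S i0 h eta (toLaurent c1) G' z c1 0 hCC hcl'
      (by rw [LaurentPolynomial.T_zero, one_mul]) (by rw [← hq]; exact hqz _ hz)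
      (by rw [← hq]; exact (hZp _ hz).2.2.2) (by
        intro h3
        have h4 := hG'0z z
        rw [h3, mul_zero] at h4
        exact hal0 h4.symm)
    refine ⟨ka, hka, ?_⟩
    have h3 := hka 0
    have h4 : ((0 : Ker (co phi i0)) : L) = 0 := rfl
    rw [h4] at h3
    have h5 : x.eval (z : ℂ) = al * ka := by
      rw [hx, ← H07.evR_toLaurent, ← h0, map_mul, h3, ← hG'0z z]
      ring
    have h6 := (hZp _ hz).2.2.1
    rw [h5] at h6
    exact mul_left_cancel₀ hal0 h6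
  obtain ⟨κ, hκ⟩ := kap_ex (E := E) (G := G') (fun a : Ker (co phi i0) => (a : L)) hPrim
    (gcdz hqG hZf') (fun z => (z : ℂ) ∈ Z)
  obtain ⟨m, kap, hkap⟩ := LaurentPolynomial.exists_T_pow κ
  obtain ⟨r, hr⟩ : ∃ r, r = -c1.divX := ⟨_, rfl⟩
  have hre : ∀ ζ ∈ Z, (r.map (Coef.emb : O →+* ℂ)).eval ζ * ζ = 1 := by
    intro ζ hζ
    have h3 := divX_mul_X_add c1
    rw [hc10] at h3
    have h4 := hqz ζ hζ
    rw [hq, ← h3, Polynomial.map_add, Polynomial.map_mul, map_X, map_C, map_one, eval_add, eval_mul,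
      eval_X, C_1, eval_one] at h4
    rw [hr, Polynomial.map_neg, eval_neg]
    linear_combination -h4
  have hkk : ∀ ζ ∈ Z, ((kap * r ^ m).map (Coef.emb : O →+* ℂ)).eval ζ =
      ρ ζ * (QQ (Z.erase ζ)).eval ζ := by
    intro ζ hζ
    obtain ⟨w, rfl⟩ := hcir ζ (hZ1 ζ hζ)
    obtain ⟨ka, hka1, hka2⟩ := hka w hζ
    have h4 := hκ w hζ ka hka1
    have h5 := congrArg (evR w) hkap
    rw [map_mul, H07.evR_toLaurent, h4, H07.evR_T, zpow_natCast] at h5
    rw [Polynomial.map_mul, Polynomial.map_pow, eval_mul, eval_pow, h5, ← hka2, mul_assoc,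
      ← mul_pow, mul_comm (w : ℂ), hre _ hζ, one_pow, mul_one]
  obtain ⟨d, v, hd, hce, hfin⟩ := fin1 hc10 (by rw [← hq]; exact hqZ) hZ1
    (fun ζ hζ => (hZp ζ hζ).2.1) hkk hne hs2
  have hdiv : cst (toLaurent c1) ∣ res (Ker (co phi i0)) E - G' := by
    rw [H14.cst_dvd_iff]
    intro a
    obtain ⟨F, hFd⟩ : ∃ F : RO O, F = (res (Ker (co phi i0)) E - G').coeff a := ⟨_, rfl⟩
    rw [← hFd]
    have hF0 : ∀ z : Circle, (z : ℂ) ∈ Z → evR z F = 0 := by
      intro z hz
      obtain ⟨ka, hka1, hka2⟩ := hka z hz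
      have h3 := hfin _ hz
      rw [hkk _ hz, ← hka2] at h3
      have h5 : (res (Ker (co phi i0)) E - G').coeff a = E.coeff (a : L) - G'.coeff a := rfl
      rw [hFd, h5, map_sub, hka1 a, h3, one_mul, sub_self]
    obtain ⟨m', f, hf⟩ := LaurentPolynomial.exists_T_pow F
    have h3 : c1 ∣ f := by
      refine dvd1 (Z := Z) (by rw [← hq]; exact hqZ) hZ1 fun z hz => ?_
      obtain ⟨w, rfl⟩ := hcir z (hZ1 z hz)
      rw [← H07.evR_toLaurent, hf, map_mul, hF0 w hz, zero_mul]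
    obtain ⟨t, ht⟩ := h3
    refine ⟨toLaurent t * LaurentPolynomial.T (-(m' : ℤ)), ?_⟩
    have h4 : F = toLaurent f * LaurentPolynomial.T (-(m' : ℤ)) := by
      rw [hf, mul_assoc, ← LaurentPolynomial.T_add, add_neg_cancel, LaurentPolynomial.T_zero,
        mul_one]
    rw [h4, ht, map_mul]
    ring
  obtain ⟨R, hR⟩ := hdiv
  refine ⟨d, v, G', R, hd, ?_, ?_, ⟨huw.unit, hG'⟩, ⟨qG, lG, nG + n1, hqG, hZf'⟩, hPrim, hG'0, ?_⟩
  · rw [← hce]
    exact hF
  · rw [← hce]
    exact hcl'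
  · intro a
    have h3 : (res (Ker (co phi i0)) E - G').coeff a = (cst (toLaurent c1) * R).coeff a := by
      rw [hR]
    rw [H14.coeff_cst_mul] at h3
    have h5 : (res (Ker (co phi i0)) E - G').coeff a = E.coeff (a : L) - G'.coeff a := rfl
    rw [h5] at h3
    rw [← hce, ← h3]
    ring

end Pool.Agent.B5.Cno
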