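import Pool.Agent.Lib.MP_b5021c_nt.IfaceUF

/-!
# Board b5, stage 3: LEMMA UF WITH ARBITRARY DROP (helper83)

As in `IfaceUF`, without the hypothesis that the closing is drop free: `V = c ∏ G_i`, all `G_i`
irreducible and big, `∏ G_i` z-free.
-/

namespace Pool.Agent.B5

open scoped LaurentPolynomial
open Polynomial

section

variable {P : Type} [Fintype P] [DecidableEq P] {L : Type} [AddCommGroup L] [Module.Free ℤ L]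
  [Module.Finite ℤ L]

/-- The closing of `D` at the load `eta` of `S` equals `c ∏ G_i`, `M(c) = 1`, all
`G_i` irreducible and big, `∏ G_i` z-free. -/
structure Zfg (phi : L →+ (P → ℤ)) (D : AO ℤ L) (S : L) (i0 : P) (h : co phi i0 S = 1)
    (eta : (RO ℤ)ˣ) (c : RO ℤ) (n : ℕ) (G : Fin n → AO ℤ (Ker (co phi i0))) : Prop where
  cc : ClassV 1 c
  eq : cl (co phi i0) S h eta D = cst c * ∏ i, G i
  irr : ∀ i, Irreducible (G i)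
  wd : ∀ i, Wdep (G i)
  big : ∀ i, 1 < M ((G i).coeff 0)
  zf : ZFree (∏ i, G i)

theorem Zfd.zfg {phi : L →+ (P → ℤ)} {D : AO ℤ L} {S : L} {i0 : P} {h : co phi i0 S = 1}
    {eta : (RO ℤ)ˣ} {c : RO ℤ} {n : ℕ} {G : Fin n → AO ℤ (Ker (co phi i0))}
    (H : Zfd phi D S i0 h eta c n G) : Zfg phi D S i0 h eta c n G :=
  ⟨H.cc, H.eq, H.irr, H.wd, H.big, H.zf⟩

/-- `Ufd` without `dr`. -/
structure Ufdg (phi : L →+ (P → ℤ)) (E : AO ℤ L) (S : L) (i0 : P) (h : co phi i0 S = 1)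
    (eta : (RO ℤ)ˣ) (N : ℕ) (p0 p1 : ℤ[X]) (u0 : (RO ℤ)ˣ) : Prop where
  dd : DD phi E
  ray : Ray E S
  N3 : 3 ≤ N
  rkL : Module.finrank ℤ L + 1 = 2 * N
  cst : ∃ n : ℤ, ∀ a k, ((cl (co phi i0) S h eta E).coeff a).coeff k ≠ 0 → k = n
  ns : ∀ (b : Ker (co phi i0)) (e : (RO ℤ)ˣ), b ≠ 0 →
    ¬ (1 - AddMonoidAlgebra.single b (e : RO ℤ)) ∣ cl (co phi i0) S h eta E
  e0 : (u0 : RO ℤ) * E.coeff 0 = toLaurent p0
  e1 : (u0 : RO ℤ) * ((eta : RO ℤ) * E.coeff S) = -toLaurent p1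
  p00 : p0.coeff 0 = N
  p10 : p1.coeff 0 = 1
  zf : ∀ z : ℂ, ‖z‖ < 1 → aeval z p0 ≠ 0

end

/-- (UFG_AV) -/
def UavgS : Prop := ∀ (P L : Type) [Fintype P] [DecidableEq P] [AddCommGroup L]
  [Module.Free ℤ L] [Module.Finite ℤ L] (phi : L →+ (P → ℤ)) (E : AO ℤ L) (S : L) (i0 : P)
  (h : co phi i0 S = 1) (eta : (RO ℤ)ˣ) (c : RO ℤ) (n0 : ℕ)
  (G : Fin n0 → AO ℤ (Ker (co phi i0))) (N : ℕ) (p0 p1 : ℤ[X]) (u0 : (RO ℤ)ˣ) (m : ℕ),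
    DD phi E → Ray E S → Zfg phi E S i0 h eta c n0 G → 3 ≤ N → ClassV N (E.coeff 0) →
    Module.finrank ℤ L + 1 = 2 * N →
    (u0 : RO ℤ) * E.coeff 0 = toLaurent p0 →
    (u0 : RO ℤ) * ((eta : RO ℤ) * E.coeff S) = -toLaurent p1 → p0.coeff 0 = N →
    p1.coeff 0 = 1 → IsUnit c → 1 ≤ m →
      ∃ (K : Submodule ℤ L) (E' : AO ℤ K) (S' : K) (h' : co (phi.comp (incl K)) i0 S' = 1)
        (eta' u0' : (RO ℤ)ˣ) (q0 q1 : ℤ[X]),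
        Ufdg (phi.comp (incl K)) E' S' i0 h' eta' N q0 q1 u0' ∧
        (∀ j, q0.coeff j = p0.coeff (m * j)) ∧ ∀ j, q1.coeff j = p1.coeff (m * j)

/-- (UFG_W) -/
def UfwgS : Prop := ∀ (P L : Type) [Fintype P] [DecidableEq P] [AddCommGroup L]
  [Module.Free ℤ L] [Module.Finite ℤ L] (phi : L →+ (P → ℤ)) (E : AO ℤ L) (S : L) (i0 : P)
  (h : co phi i0 S = 1) (eta : (RO ℤ)ˣ) (N : ℕ) (p0 p1 : ℤ[X]) (u0 : (RO ℤ)ˣ) (x : ℝ),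
    Ufdg phi E S i0 h eta N p0 p1 u0 → Bnk (2 * N - 2) → 0 < x → x⁻¹ - x = N - 1 →
      p0 = C ((N : ℤ) - 1) + p1 ∧ (aeval x p0 : ℝ) ≤ N + x ∧ (aeval (-x) p0 : ℝ) ≤ N + x

/-- (UFG_C2) -/
def CcngS : Prop := ∀ (P L : Type) [Fintype P] [DecidableEq P] [AddCommGroup L]
  [Module.Free ℤ L] [Module.Finite ℤ L] (phi : L →+ (P → ℤ)) (E : AO ℤ L) (S : L) (i0 : P)
  (h : co phi i0 S = 1) (eta : (RO ℤ)ˣ) (c : RO ℤ) (n0 : ℕ)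
  (G : Fin n0 → AO ℤ (Ker (co phi i0))) (N : ℕ) (p0 p1 : ℤ[X]) (u0 : (RO ℤ)ˣ),
    DD phi E → Ray E S → Zfg phi E S i0 h eta c n0 G → 3 ≤ N → ClassV N (E.coeff 0) →
    Module.finrank ℤ L + 1 = 2 * N →
    (u0 : RO ℤ) * E.coeff 0 = toLaurent p0 →
    (u0 : RO ℤ) * ((eta : RO ℤ) * E.coeff S) = -toLaurent p1 → p0.coeff 0 = N →
    p1.coeff 0 = 1 → ¬ IsUnit c →
      ∃ (k : ℕ) (ep : ℤ) (G' R : AO ℤ (Ker (co phi i0))), 1 ≤ k ∧ (ep = 1 ∨ ep = -1) ∧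
        cl (co phi i0) S h eta E = cst (toLaurent (1 - C ep * X ^ k)) * G' ∧ ZFree G' ∧
        (u0 : RO ℤ) * G'.coeff 0 = toLaurent (C ((N : ℤ) - 1)) ∧
        ∀ a : Ker (co phi i0), E.coeff (a : L) =
          G'.coeff a + toLaurent (1 - C ep * X ^ k) * R.coeff a

/-- (UFG_C3) `DcpS` without the hypothesis that the closing is drop free. -/
def DcpgS : Prop := ∀ (P L : Type) [Fintype P] [DecidableEq P] [AddCommGroup L]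
  [Module.Free ℤ L] [Module.Finite ℤ L] (phi : L →+ (P → ℤ)) (E : AO ℤ L) (S : L) (i0 : P)
  (h : co phi i0 S = 1) (eta : (RO ℤ)ˣ) (G' R : AO ℤ (Ker (co phi i0))) (N k : ℕ) (ep : ℤ)
  (p0 : ℤ[X]) (u0 : (RO ℤ)ˣ),
    DD phi E → Ray E S → 3 ≤ N → ClassV N (E.coeff 0) → Module.finrank ℤ L + 1 = 2 * N →
    (u0 : RO ℤ) * E.coeff 0 = toLaurent p0 → p0.coeff 0 = N → 1 ≤ k → (ep = 1 ∨ ep = -1) →
    cl (co phi i0) S h eta E = cst (toLaurent (1 - C ep * X ^ k)) * G' → ZFree G' →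
    (u0 : RO ℤ) * G'.coeff 0 = toLaurent (C ((N : ℤ) - 1)) →
    (∀ a : Ker (co phi i0), E.coeff (a : L) =
      G'.coeff a + toLaurent (1 - C ep * X ^ k) * R.coeff a) →
      (u0 : RO ℤ) * R.coeff 0 = 1

/-- (UFG) LEMMA UF for a z-free closing with arbitrary drop; with the values at `x`. -/
def UfgS : Prop := ∀ (P L : Type) [Fintype P] [DecidableEq P] [AddCommGroup L]
  [Module.Free ℤ L] [Module.Finite ℤ L] (phi : L →+ (P → ℤ)) (E : AO ℤ L) (S : L) (i0 : P)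
  (h : co phi i0 S = 1) (eta : (RO ℤ)ˣ) (c : RO ℤ) (n0 : ℕ)
  (G : Fin n0 → AO ℤ (Ker (co phi i0))) (N : ℕ) (p0 p1 : ℤ[X]) (u0 : (RO ℤ)ˣ) (x : ℝ),
    DD phi E → Ray E S → Zfg phi E S i0 h eta c n0 G → 3 ≤ N → ClassV N (E.coeff 0) →
    Module.finrank ℤ L + 1 = 2 * N → Bnk (2 * N - 2) →
    (u0 : RO ℤ) * E.coeff 0 = toLaurent p0 →
    (u0 : RO ℤ) * ((eta : RO ℤ) * E.coeff S) = -toLaurent p1 → p0.coeff 0 = N →
    p1.coeff 0 = 1 → 0 < x → x⁻¹ - x = N - 1 →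
      (∃ F : ℤ[X], p0 = C (N : ℤ) + F ∧ p1 = 1 + F ∧ F.coeff 0 = 0 ∧ (∀ k, |F.coeff k| ≤ 1) ∧
        ∀ (m : ℕ) (G : ℤ[X]), 1 ≤ m → (∀ j, G.coeff j = F.coeff (m * j)) →
          (aeval x G : ℝ) ≤ x ∧ (aeval (-x) G : ℝ) ≤ x) ∨
      ∃ (k : ℕ) (ep : ℤ), 1 ≤ k ∧ (ep = 1 ∨ ep = -1) ∧ p0 = C (N : ℤ) - C ep * X ^ k ∧
        p1 = 1 + C ((N - 2) * ep) * X ^ k

end Pool.Agent.B5
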