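import Pool.Agent.Lib.MP_b5021c_nt.K.H25.Bch
import Pool.Agent.Lib.MP_b5021c_nt.DCM.H61.Row
import Pool.Agent.Lib.MP_b5021c_nt.H45.Mmu

/-!
# MP_b5021c_nt, board b5, row UF_AV (helper83): `V = c ∏ G_i` with big `G_i` has no factor
`1 - e w^b`
-/

set_option linter.unusedSectionVars false

namespace Pool.Agent.B5.Uf

open scoped LaurentPolynomial
open Pool.Agent.B5 Pool.Agent.B5.H83 Pool.Agent.B5.H96

section

variable {L : Type} [AddCommGroup L] [Module.Free ℤ L] [Module.Finite ℤ L]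

theorem single_mul_co (a : L) (q : RO ℤ) (G : AO ℤ L) (b : L) :
    (AddMonoidAlgebra.single a q * G).coeff b = q * G.coeff (b - a) := by
  rw [AddMonoidAlgebra.coeff_single_mul_eq_mul_coeff (b - a)]
  intro m' _
  constructor
  · intro h3
    rw [← h3]
    abel
  · intro h3
    rw [h3]
    abel

theorem coeff0_mul {G H : AO ℤ L} {lam : L →+ ℤ} (hG : Pos lam G)
    (hH : ∀ a ∈ supp H, 0 ≤ lam a) : (H * G).coeff 0 = H.coeff 0 * G.coeff 0 := by
  classical
  let f : AO ℤ L →+ RO ℤ :=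
    { toFun := fun F => (F * G).coeff 0
      map_zero' := by rw [zero_mul]; rfl
      map_add' := fun p q => by rw [add_mul, AddMonoidAlgebra.coeff_add]; rfl }
  let g : AO ℤ L →+ RO ℤ :=
    { toFun := fun F => F.coeff 0 * G.coeff 0
      map_zero' := by
        change (0 : RO ℤ) * G.coeff 0 = 0
        rw [zero_mul]
      map_add' := fun p q => by
        rw [AddMonoidAlgebra.coeff_add]
        exact add_mul _ _ _ }
  have h1 : f H = g H := by
    refine eq_of_single f g H fun a ha => ?_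
    change (AddMonoidAlgebra.single a (H.coeff a) * G).coeff 0 =
      (AddMonoidAlgebra.single a (H.coeff a)).coeff 0 * G.coeff 0
    rw [single_mul_co, AddMonoidAlgebra.coeff_single, Finsupp.single_apply, zero_sub]
    by_cases h0 : a = 0
    · rw [h0, neg_zero, if_pos rfl]
    · rw [if_neg h0, zero_mul]
      have h1 := hH a ha
      have h2 : G.coeff (-a) = 0 := by
        by_contra h2
        have h3 := hG (-a) (Finsupp.mem_support_iff.2 h2) (neg_ne_zero.2 h0)
        rw [map_neg] at h3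
        omega
      rw [h2, mul_zero]
  exact h1

open Classical in
theorem bin_coeff {b : L} (e : RO ℤ) (a : L) :
    (1 - AddMonoidAlgebra.single b e : AO ℤ L).coeff a =
      (if a = 0 then 1 else 0) - if a = b then e else 0 := by
  rw [AddMonoidAlgebra.coeff_sub, Finsupp.sub_apply, AddMonoidAlgebra.one_def,
    AddMonoidAlgebra.coeff_single, AddMonoidAlgebra.coeff_single, Finsupp.single_apply,
    Finsupp.single_apply]
  simp only [eq_comm]

theorem low_unit (hMin : MinS) {G H : AO ℤ L} {lam : L →+ ℤ} (hG : Pos lam G)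
    (h0 : G.coeff 0 ≠ 0) {b : L} (hb : 0 < lam b) {e : RO ℤ}
    (h : H * G = 1 - AddMonoidAlgebra.single b e) : IsUnit (G.coeff 0) := by
  classical
  have hb0 : b ≠ 0 := by
    rintro rfl
    rw [map_zero] at hb
    exact lt_irrefl _ hb
  have h1 : (H * G).coeff 0 = 1 := by
    rw [h, bin_coeff, if_pos rfl, if_neg (Ne.symm hb0), sub_zero]
  have hH : H ≠ 0 := by
    rintro rfl
    rw [zero_mul] at h1
    exact zero_ne_one h1
  have h2 : ∀ a ∈ supp H, 0 ≤ lam a := by
    refine hMin ℤ L H G hH h0 lam 0 fun a ha => ?_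
    rw [h] at ha
    have ha' : (1 - AddMonoidAlgebra.single b e : AO ℤ L).coeff a ≠ 0 := ha
    rw [bin_coeff] at ha'
    by_cases h3 : a = 0
    · rw [h3, map_zero]
    · by_cases h4 : a = b
      · rw [h4]
        exact hb.le
      · rw [if_neg h3, if_neg h4, sub_zero] at ha'
        exact absurd rfl ha'
  rw [coeff0_mul hG h2] at h1
  exact IsUnit.of_mul_eq_one_right _ h1

theorem M_bin (hMm : MmulS) {a b : L} (hb : b ≠ 0) {v w e : RO ℤ} (hv : IsUnit v) (hw : IsUnit w)
    (he : IsUnit e) : ¬ 1 < M ((AddMonoidAlgebra.single a v *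
      (cst w * (1 - AddMonoidAlgebra.single b e)) : AO ℤ L).coeff 0) := by
  classical
  rw [single_mul_co, H78.cstm, bin_coeff]
  have hu : ∀ c : RO ℤ, IsUnit c → ¬ 1 < M c := fun c hc => by
    rw [(hMm ℤ).2.2 c hc]
    exact lt_irrefl _
  by_cases h3 : 0 - a = 0
  · rw [if_pos h3, h3, if_neg (Ne.symm hb), sub_zero, mul_one]
    exact hu _ (hv.mul hw)
  · by_cases h4 : 0 - a = b
    · rw [if_neg h3, if_pos h4, zero_sub]
      exact hu _ (hv.mul (hw.mul he.neg))
    · rw [if_neg h3, if_neg h4, sub_zero, mul_zero, mul_zero, H45.M_zero]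
      exact lt_irrefl _

end

section

variable {P : Type} [Fintype P] [DecidableEq P] {L : Type} [AddCommGroup L] [Module.Free ℤ L]
  [Module.Finite ℤ L]

theorem exists_lam (hG0 : G0S) {phi : L →+ (P → ℤ)} {E : AO ℤ L} {S : L} {i0 : P}
    {h : co phi i0 S = 1} {eta : (RO ℤ)ˣ} (hcc : CC phi E S i0 eta) (b : Ker (co phi i0))
    (hb : b ≠ 0) : ∃ lam : Ker (co phi i0) →+ ℤ, Pos lam (cl (co phi i0) S h eta E) ∧
      lam b ≠ 0 := by
  obtain ⟨-, -, lam, h0, hpos⟩ := hcc.ray
  obtain ⟨-, -, -, hW, hinj, hP⟩ := hG0 ℤ P L phi E S i0 eta h hcc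
  have h1 := hP lam h0 hpos
  set l1 := lam.comp (incl (Ker (co phi i0))) with hl1
  by_cases h2 : l1 b = 0
  · obtain ⟨i, hi⟩ : ∃ i, phK phi (co phi i0) b i ≠ 0 := by
      by_contra hcon
      push Not at hcon
      apply hb
      apply hinj
      rw [map_zero]
      exact funext hcon
    let m1 : Ker (co phi i0) →+ ℤ :=
      (Pi.evalAddMonoidHom (fun _ : P => ℤ) i).comp (phK phi (co phi i0))
    have hm1 : ∀ a, m1 a = phK phi (co phi i0) a i := fun a => rfl
    refine ⟨l1 + l1 + m1, ?_, ?_⟩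
    · intro a ha ha0
      have h3 := h1 a ha ha0
      have h4 := hW a (Finsupp.mem_support_iff.1 ha)
      have h5 : -1 ≤ phK phi (co phi i0) a i := by
        obtain ⟨h6, h7, h8⟩ := h4
        by_cases hiO : i ∈ OO phi S
        · rcases h6 i hiO with h9 | h9 <;> omega
        · by_cases hiI : i ∈ II phi S i0
          · rcases h7 with h7 | h7 <;> rcases h7 i hiI with h9 | h9 <;> omega
          · have h9 := h8 i hiI hiO
            omega
      rw [AddMonoidHom.add_apply, AddMonoidHom.add_apply, hm1]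
      omega
    · rw [AddMonoidHom.add_apply, AddMonoidHom.add_apply, hm1, h2, zero_add, zero_add]
      exact hi
  · exact ⟨l1, h1, h2⟩

/-- No factor `1 - e w^b`. -/
theorem ns_L (hFD : FDS) (hSm : SmallS) (hG0 : G0S) (hU : UnitAS) (hMin : MinS) (hPr : PrimS)
    (hMm : MmulS) {phi : L →+ (P → ℤ)} {E : AO ℤ L} {S : L} {i0 : P}
    {h : co phi i0 S = 1} {eta : (RO ℤ)ˣ} {c : RO ℤ} {n0 : ℕ}
    {G : Fin n0 → AO ℤ (Ker (co phi i0))} (hcc : CC phi E S i0 eta)
    (hZ : Zfd phi E S i0 h eta c n0 G) (hc : IsUnit c) (b : Ker (co phi i0)) (e : (RO ℤ)ˣ)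
    (hb : b ≠ 0) :
    ¬ (1 - AddMonoidAlgebra.single b (e : RO ℤ)) ∣ cl (co phi i0) S h eta E := by
  classical
  intro hd
  have : UniqueFactorizationMonoid (AO ℤ (Ker (co phi i0))) :=
    H25.Bch.ufdL ℤ (Ker (co phi i0))
  obtain ⟨c', n', G', fd⟩ := hFD ℤ P L phi E S i0 eta h hcc
  obtain ⟨lam, hlam, hlb⟩ := exists_lam hG0 (h := h) hcc b hb
  set x : AO ℤ (Ker (co phi i0)) := 1 - AddMonoidAlgebra.single b (e : RO ℤ) with hx
  have hx0 : x ≠ 0 := by
    intro h0
    have h1 : x.coeff 0 = 1 := by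
      rw [hx, bin_coeff, if_pos rfl, if_neg (Ne.symm hb), sub_zero]
    rw [h0] at h1
    exact zero_ne_one h1
  have hxu : ¬ IsUnit x := by
    intro hu
    obtain ⟨a, d, -, hxa⟩ := (hU ℤ _ x).1 hu
    have h1 : x.coeff 0 = 1 := by
      rw [hx, bin_coeff, if_pos rfl, if_neg (Ne.symm hb), sub_zero]
    have h2 : x.coeff b = -(e : RO ℤ) := by
      rw [hx, bin_coeff, if_neg hb, if_pos rfl, zero_sub]
    rw [hxa, AddMonoidAlgebra.coeff_single, Finsupp.single_apply] at h1 h2
    by_cases h3 : a = 0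
    · rw [if_neg (by rw [h3]; exact Ne.symm hb)] at h2
      exact neg_ne_zero.2 e.ne_zero h2.symm
    · rw [if_neg h3] at h1
      exact zero_ne_one h1
  obtain ⟨y, hyi, hyx⟩ := WfDvdMonoid.exists_irreducible_factor hxu hx0
  have hyp : Prime y := UniqueFactorizationMonoid.irreducible_iff_prime.1 hyi
  have hyV := hyx.trans hd
  -- a factor of `G`
  obtain ⟨i, hi⟩ : ∃ i, y ∣ G i := by
    have h1 := hyV
    rw [hZ.eq] at h1
    rcases hyp.dvd_or_dvd h1 with h2 | h2
    · exact absurd (isUnit_of_dvd_unit h2 (H78.isUnit_cst hc)) hyi.not_isUnit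
    · obtain ⟨i, -, hi⟩ := (hyp.dvd_finsetProd_iff _).1 h2
      exact ⟨i, hi⟩
  have hai : Associated y (G i) := hyi.associated_of_dvd (hZ.irr i) hi
  -- a factor of `G'`
  have hc' : IsUnit c' := by
    have h1 : cst c' ∣ cst c * ∏ i, G i := by
      rw [← hZ.eq, fd.eq]
      exact Dvd.intro _ rfl
    exact isUnit_of_dvd_unit (Dcm.gauss (Dcm.prim_prod hPr G hZ.irr hZ.wd) c' c h1) hc
  obtain ⟨j, hj⟩ : ∃ j, y ∣ G' j := by
    have h1 := hyV
    rw [fd.eq] at h1
    rcases hyp.dvd_or_dvd h1 with h2 | h2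
    · exact absurd (isUnit_of_dvd_unit h2 (H78.isUnit_cst hc')) hyi.not_isUnit
    · obtain ⟨i, -, hi⟩ := (hyp.dvd_finsetProd_iff _).1 h2
      exact ⟨i, hi⟩
  have haj : Associated y (G' j) := hyi.associated_of_dvd (fd.irr j) hj
  by_cases hbig : 1 < M ((G' j).coeff 0)
  · obtain ⟨H, hH⟩ : G' j ∣ x := (haj.symm.dvd).trans hyx
    have hfull := fd.full j lam hlam
    have hnu : ¬ IsUnit ((G' j).coeff 0) := by
      intro hu
      rw [(hMm ℤ).2.2 _ hu] at hbig
      exact lt_irrefl _ hbig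
    rcases lt_or_gt_of_ne hlb with hneg | hpos
    · apply hnu
      have h1 : 0 < lam (-b) := by
        rw [map_neg]
        omega
      refine low_unit hMin hfull.2.1 hfull.1 h1 (H := -(AddMonoidAlgebra.single (-b)
        ((e⁻¹ : (RO ℤ)ˣ) : RO ℤ)) * H) (e := ((e⁻¹ : (RO ℤ)ˣ) : RO ℤ)) ?_
      have h2 : -(AddMonoidAlgebra.single (-b) ((e⁻¹ : (RO ℤ)ˣ) : RO ℤ)) * H * G' j =
          -(AddMonoidAlgebra.single (-b) ((e⁻¹ : (RO ℤ)ˣ) : RO ℤ)) * x := by
        rw [hH]
        ring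
      have h3 : (AddMonoidAlgebra.single (-b) ((e⁻¹ : (RO ℤ)ˣ) : RO ℤ) : AO ℤ (Ker (co phi i0))) *
          AddMonoidAlgebra.single b (e : RO ℤ) = 1 := by
        rw [AddMonoidAlgebra.single_mul_single, neg_add_cancel, Units.inv_mul,
          ← AddMonoidAlgebra.one_def]
      rw [h2, hx]
      linear_combination h3
    · apply hnu
      refine low_unit hMin hfull.2.1 hfull.1 hpos (H := H) (e := (e : RO ℤ)) ?_
      rw [← hx, hH]
      ring
  · obtain ⟨hu0, ⟨b', hb', -, e', he'⟩, -⟩ :=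
      hSm ℤ P L phi E S i0 eta h c' n' G' fd j hbig
    obtain ⟨u, hu⟩ := haj.symm.trans hai
    obtain ⟨a, v, hv, hua⟩ := (hU ℤ _ (u : AO ℤ (Ker (co phi i0)))).1 u.isUnit
    have h1 := hZ.big i
    rw [← hu, mul_comm, hua, he'] at h1
    exact M_bin hMm hb' hv hu0 e'⁻¹.isUnit h1

end

end Pool.Agent.B5.Uf
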