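import Pool.Agent.Lib.MP_b5021c_nt.UF.H02.Cres
import Pool.Agent.Lib.MP_b5021c_nt.UF.H74.Ov
import Pool.Agent.Lib.MP_b5021c_nt.B.H07.Zfi

/-!
# MP_b5021c_nt, rows UF_C1 + UF_C2 over any ring of coefficients (helper83): one variable
-/

set_option linter.unusedSectionVars false

namespace Pool.Agent.B5.Cno

open Polynomial
open scoped ComplexConjugate Topology

/-- `∏ (1 - X / ζ)` -/
noncomputable def QQ (Z : Finset ℂ) : ℂ[X] := ∏ ζ ∈ Z, (1 - C ζ⁻¹ * X)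

theorem QQ_erase {Z : Finset ℂ} {ζ : ℂ} (h : ζ ∈ Z) :
    QQ Z = (1 - C ζ⁻¹ * X) * QQ (Z.erase ζ) := by
  exact (Finset.mul_prod_erase Z (fun ζ : ℂ => (1 - C ζ⁻¹ * X : ℂ[X])) h).symm

theorem QQ_zero {Z : Finset ℂ} : (QQ Z).coeff 0 = 1 := by
  rw [coeff_zero_eq_eval_zero]
  unfold QQ
  rw [eval_prod]
  simp

theorem QQ_eval {Z : Finset ℂ} {z : ℂ} (h0 : ∀ ζ ∈ Z, ζ ≠ 0) : (QQ Z).eval z = 0 ↔ z ∈ Z := by
  unfold QQ
  rw [eval_prod, Finset.prod_eq_zero_iff]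
  constructor
  · rintro ⟨ζ, hζ, h⟩
    have h1 := h0 ζ hζ
    simp only [eval_sub, eval_one, eval_mul, eval_C, eval_X] at h
    have h2 : z = ζ := by
      field_simp at h
      linear_combination -h
    rw [h2]
    exact hζ
  · intro hz
    refine ⟨z, hz, ?_⟩
    have h1 := h0 z hz
    simp only [eval_sub, eval_one, eval_mul, eval_C, eval_X]
    rw [inv_mul_cancel₀ h1, sub_self]

theorem QQ_erase_ne {Z : Finset ℂ} {ζ : ℂ} (h0 : ∀ ζ ∈ Z, ζ ≠ 0) :
    (QQ (Z.erase ζ)).eval ζ ≠ 0 := by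
  rw [ne_eq, QQ_eval (fun ξ hξ => h0 ξ (Finset.mem_of_mem_erase hξ))]
  exact Finset.notMem_erase ζ Z

theorem QQ_ne (Z : Finset ℂ) : QQ Z ≠ 0 := by
  intro h
  have := QQ_zero (Z := Z)
  rw [h, coeff_zero] at this
  exact zero_ne_one this

theorem QQ_deg {Z : Finset ℂ} (h0 : ∀ ζ ∈ Z, ζ ≠ 0) : (QQ Z).natDegree = Z.card := by
  have h1 : ∀ ζ ∈ Z, (1 - C ζ⁻¹ * X : ℂ[X]).natDegree = 1 := by
    intro ζ hζ
    have h2 : (1 - C ζ⁻¹ * X : ℂ[X]) = C (-ζ⁻¹) * X + C 1 := by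
      rw [C_neg, C_1]
      ring
    rw [h2]
    exact natDegree_linear (neg_ne_zero.mpr (inv_ne_zero (h0 ζ hζ)))
  unfold QQ
  rw [natDegree_prod _ _ (fun ζ hζ => by
    intro h
    have := h1 ζ hζ
    rw [h, natDegree_zero] at this
    exact zero_ne_one this), Finset.sum_congr rfl h1]
  simp

theorem QQ_lead {Z : Finset ℂ} (h0 : ∀ ζ ∈ Z, ‖ζ‖ = 1) : ‖(QQ Z).leadingCoeff‖ = 1 := by
  unfold QQ
  rw [leadingCoeff_prod, norm_prod]
  refine Finset.prod_eq_one fun ζ hζ => ?_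
  have hz : ζ ≠ 0 := by
    intro h
    have := h0 ζ hζ
    rw [h, norm_zero] at this
    exact zero_ne_one this
  have h2 : (1 - C ζ⁻¹ * X : ℂ[X]) = C (-ζ⁻¹) * X + C 1 := by
    rw [C_neg, C_1]
    ring
  rw [h2, leadingCoeff_linear (neg_ne_zero.mpr (inv_ne_zero hz)), norm_neg, norm_inv, h0 ζ hζ,
    inv_one]

/-- interpolation -/
theorem interp {Z : Finset ℂ} {f g : ℂ[X]} (hf : f.degree < Z.card) (hg : g.degree < Z.card)
    (h : ∀ z ∈ Z, f.eval z = g.eval z) : f = g :=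
  eq_of_degrees_lt_of_eval_finset_eq Z hf hg h

/-- `Σ ρ_ζ ∏_{ξ ≠ ζ} (1 - X / ξ)` -/
noncomputable def KK (Z : Finset ℂ) (r : ℂ → ℂ) : ℂ[X] := ∑ ζ ∈ Z, C (r ζ) * QQ (Z.erase ζ)

theorem KK_zero {Z : Finset ℂ} {r : ℂ → ℂ} : (KK Z r).coeff 0 = ∑ ζ ∈ Z, r ζ := by
  unfold KK
  rw [finsetSum_coeff]
  refine Finset.sum_congr rfl fun ζ _ => ?_
  rw [coeff_C_mul, QQ_zero, mul_one]

theorem KK_eval {Z : Finset ℂ} {r : ℂ → ℂ} (h0 : ∀ ζ ∈ Z, ζ ≠ 0) {ζ : ℂ} (hζ : ζ ∈ Z) :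
    (KK Z r).eval ζ = r ζ * (QQ (Z.erase ζ)).eval ζ := by
  unfold KK
  rw [eval_finsetSum, Finset.sum_eq_single ζ]
  · rw [eval_mul, eval_C]
  · intro ξ hξ hne
    have h1 : (QQ (Z.erase ξ)).eval ζ = 0 := by
      rw [QQ_eval (fun η hη => h0 η (Finset.mem_of_mem_erase hη))]
      exact Finset.mem_erase.mpr ⟨hne.symm, hζ⟩
    rw [eval_mul, h1, mul_zero]
  · intro h
    exact absurd hζ h

theorem KK_deg {Z : Finset ℂ} {r : ℂ → ℂ} (h0 : ∀ ζ ∈ Z, ζ ≠ 0) :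
    (KK Z r).degree < Z.card := by
  unfold KK
  refine (degree_sum_le _ _).trans_lt ?_
  rw [Finset.sup_lt_iff (WithBot.bot_lt_coe _)]
  intro ζ hζ
  rw [← smul_eq_C_mul]
  refine (degree_smul_le _ _).trans_lt ?_
  have h1 := QQ_deg (Z := Z.erase ζ) (fun η hη => h0 η (Finset.mem_of_mem_erase hη))
  rw [degree_eq_natDegree (QQ_ne _), h1]
  exact_mod_cast Finset.card_erase_lt_of_mem hζ

theorem half_re {w : ℂ} (hw : ‖w‖ = 1) (h1 : w ≠ 1) : ((1 - w)⁻¹).re = 1 / 2 := by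
  have h2 : w.re * w.re + w.im * w.im = 1 := by
    rw [← Complex.normSq_apply, Complex.normSq_eq_norm_sq, hw, one_pow]
  have h3 : Complex.normSq (1 - w) = 2 * (1 - w.re) := by
    rw [Complex.normSq_apply]
    simp only [Complex.sub_re, Complex.sub_im, Complex.one_re, Complex.one_im]
    linear_combination h2
  have h4 : Complex.normSq (1 - w) ≠ 0 := by
    rw [ne_eq, Complex.normSq_eq_zero, sub_eq_zero]
    exact h1.symm
  rw [Complex.inv_re, Complex.sub_re, Complex.one_re, h3]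
  rw [h3] at h4
  field_simp
  exact div_self (right_ne_zero_of_mul h4)

theorem KK_re {Z : Finset ℂ} {r : ℂ → ℝ} (h0 : ∀ ζ ∈ Z, ‖ζ‖ = 1) {z : ℂ} (hz : ‖z‖ = 1)
    (hzZ : z ∉ Z) : ((KK Z (fun ζ => (r ζ : ℂ))).eval z / (QQ Z).eval z).re = (∑ ζ ∈ Z, r ζ) / 2 := by
  have hne : ∀ ζ ∈ Z, ζ ≠ 0 := by
    intro ζ hζ h
    have := h0 ζ hζ
    rw [h, norm_zero] at this
    exact zero_ne_one this
  unfold KK
  rw [eval_finsetSum, Finset.sum_div, Complex.re_sum, Finset.sum_div]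
  refine Finset.sum_congr rfl fun ζ hζ => ?_
  have h1 : (QQ (Z.erase ζ)).eval z ≠ 0 := by
    rw [ne_eq, QQ_eval (fun ξ hξ => hne ξ (Finset.mem_of_mem_erase hξ))]
    exact fun h => hzZ (Finset.mem_of_mem_erase h)
  have h2 : ζ⁻¹ * z ≠ 1 := by
    intro h
    apply hzZ
    have h3 : z = ζ := by
      rw [inv_mul_eq_one₀ (hne ζ hζ)] at h
      exact h.symm
    rw [h3]
    exact hζ
  have h3 : ‖ζ⁻¹ * z‖ = 1 := by rw [norm_mul, norm_inv, h0 ζ hζ, hz, inv_one, one_mul]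
  have h4 : (1 - ζ⁻¹ * z) ≠ 0 := sub_ne_zero.mpr (Ne.symm h2)
  rw [QQ_erase hζ]
  have h5 : (C (r ζ : ℂ) * QQ (Z.erase ζ)).eval z / ((1 - C ζ⁻¹ * X) * QQ (Z.erase ζ)).eval z =
      (r ζ : ℂ) * (1 - ζ⁻¹ * z)⁻¹ := by
    simp only [eval_mul, eval_sub, eval_one, eval_C, eval_X]
    field_simp
  rw [h5, Complex.re_ofReal_mul, half_re h3 h2]
  ring

theorem re_cl {A : ℂ[X]} {b : ℝ} {Z : Finset ℂ}
    (h : ∀ z : ℂ, ‖z‖ = 1 → z ∉ Z → b ≤ (A.eval z).re) (z : ℂ) (hz : ‖z‖ = 1) :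
    b ≤ (A.eval z).re := by
  have hcl : IsClosed {w : ℂ | b ≤ (A.eval w).re} :=
    isClosed_le continuous_const (Complex.continuous_re.comp A.continuous)
  have h2 : z ∈ closure ({s : ℂ | ‖s‖ = 1 ∧ s ≠ z} \ ((Z.erase z : Finset ℂ) : Set ℂ)) := by
    apply closure_sdiff
    refine ⟨H79.mem_closure_circle z hz, ?_⟩
    rw [(Finset.finite_toSet _).isClosed.closure_eq]
    simp
  refine closure_minimal ?_ hcl h2
  rintro s ⟨⟨hs1, hs2⟩, hs3⟩
  refine h s hs1 fun hs4 => hs3 ?_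
  rw [Finset.mem_coe, Finset.mem_erase]
  exact ⟨hs2, hs4⟩

/-- The minimum principle for the real part of a polynomial; finitely many points of the circle may
be left out. -/
theorem re_min {A : ℂ[X]} {b : ℝ} {Z : Finset ℂ}
    (h : ∀ z : ℂ, ‖z‖ = 1 → z ∉ Z → b ≤ (A.eval z).re) (z : ℂ) (hz : ‖z‖ < 1) :
    b ≤ (A.eval z).re := by
  have h1 := re_cl h
  have hd : Differentiable ℂ fun z : ℂ => Complex.exp (-(A.eval z)) := by
    have : Differentiable ℂ fun z : ℂ => A.eval z := A.differentiable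
    exact this.neg.cexp
  have h5 : ‖Complex.exp (-(A.eval z))‖ ≤ Real.exp (-b) := by
    refine Complex.norm_le_of_forall_mem_frontier_norm_le (U := Metric.ball (0 : ℂ) 1)
      Metric.isBounded_ball hd.diffContOnCl ?_ (subset_closure (by simpa using hz))
    intro w hw
    rw [frontier_ball (0 : ℂ) one_ne_zero, mem_sphere_zero_iff_norm] at hw
    rw [Complex.norm_exp, Complex.neg_re]
    exact Real.exp_le_exp.2 (by have := h1 w hw; linarith)
  rw [Complex.norm_exp, Complex.neg_re, Real.exp_le_exp] at h5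
  linarith

theorem re_min_eq {A : ℂ[X]} {b : ℝ} {Z : Finset ℂ}
    (h : ∀ z : ℂ, ‖z‖ = 1 → z ∉ Z → b ≤ (A.eval z).re) (h0 : (A.eval 0).re = b) (z : ℂ)
    (hz : ‖z‖ ≤ 1) : (A.eval z).re = b := by
  have h1 := re_min h
  have hd : Differentiable ℂ fun z : ℂ => Complex.exp (-(A.eval z)) := by
    have : Differentiable ℂ fun z : ℂ => A.eval z := A.differentiable
    exact this.neg.cexp
  have h2 := Complex.norm_eqOn_closedBall_of_isMaxOn (f := fun z : ℂ => Complex.exp (-(A.eval z)))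
    (z := 0) (r := 1) hd.diffContOnCl (by
      intro w hw
      rw [Metric.mem_ball, dist_zero_right] at hw
      change ‖Complex.exp (-(A.eval w))‖ ≤ ‖Complex.exp (-(A.eval 0))‖
      rw [Complex.norm_exp, Complex.norm_exp, Complex.neg_re, Complex.neg_re]
      exact Real.exp_le_exp.2 (by have := h1 w hw; linarith))
  have h3 := h2 (show z ∈ Metric.closedBall (0 : ℂ) 1 by simpa using hz)
  change ‖Complex.exp (-(A.eval z))‖ = ‖Complex.exp (-(A.eval 0))‖ at h3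
  rw [Complex.norm_exp, Complex.norm_exp, Complex.neg_re, Complex.neg_re] at h3
  have h4 := Real.exp_injective h3
  linarith

/-- The residues. -/
theorem rho {x y q : ℂ[X]} {al : ℂ} (hal : al ≠ 0) (hD : x - y = C al * q) (hq0 : q.coeff 0 = 1)
    (hx : ∀ z : ℂ, ‖z‖ < 1 → x.eval z ≠ 0) (hle : ∀ z : ℂ, ‖z‖ = 1 → ‖y.eval z‖ ≤ ‖x.eval z‖)
    (hqx : ∀ z : ℂ, q.eval z = 0 → ‖z‖ = 1 ∧ x.eval z ≠ 0) :
    ∃ (Z : Finset ℂ) (ρ : ℂ → ℝ) (A : ℂ[X]), q = QQ Z ∧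
      (∀ ζ ∈ Z, ‖ζ‖ = 1 ∧ 0 < ρ ζ ∧ x.eval ζ = al * (ρ ζ * (QQ (Z.erase ζ)).eval ζ) ∧
        (derivative q).eval ζ ≠ 0) ∧
      x = C al * (KK Z (fun ζ => (ρ ζ : ℂ)) + QQ Z * A) ∧
      (∀ z : ℂ, ‖z‖ = 1 → z ∉ Z → (1 - ∑ ζ ∈ Z, ρ ζ) / 2 ≤ (A.eval z).re) ∧
      ∑ ζ ∈ Z, ρ ζ ≤ 2 * (x.eval 0 / al).re - 1 ∧
      (∑ ζ ∈ Z, ρ ζ = 2 * (x.eval 0 / al).re - 1 → ∀ z : ℂ, ‖z‖ = 1 →
        ‖y.eval z‖ = ‖x.eval z‖) := by
  classical
  have hqne : q ≠ 0 := by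
    rintro rfl
    rw [coeff_zero] at hq0
    exact zero_ne_one hq0
  have hDne : C al * q ≠ 0 := mul_ne_zero (C_ne_zero.mpr hal) hqne
  have hle2 := H02.disc_le _ x y rfl hx hle
  have hyx : ∀ z : ℂ, x.eval z - y.eval z = (C al * q).eval z := fun z => by
    rw [← hD, eval_sub]
  have hre : ∀ s : ℂ, ‖s‖ ≤ 1 → 0 ≤ ((C al * q).eval s * conj (x.eval s)).re := by
    intro s hs
    rw [← hyx]
    rcases lt_or_eq_of_le hs with h | h
    · exact H02.re_of_norm (hle2 s h)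
    · exact H02.re_of_norm (hle s h)
  have hsim : ∀ z : ℂ, q.eval z = 0 → (derivative q).eval z ≠ 0 := by
    intro z hz
    obtain ⟨h1, h2⟩ := hqx z hz
    have h3 := H02.hopf x (C al * q) z h1 h2 hDne (fun s hs => hre s hs.le)
      (by rw [eval_mul, hz, mul_zero])
    rw [derivative_C_mul, eval_mul, eval_C] at h3
    exact right_ne_zero_of_mul h3
  obtain ⟨Z, hZ⟩ : ∃ Z : Finset ℂ, Z = q.roots.toFinset := ⟨_, rfl⟩
  have hmem : ∀ z, z ∈ Z ↔ q.eval z = 0 := by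
    intro z
    rw [hZ, Multiset.mem_toFinset, mem_roots hqne, IsRoot.def]
  have hZn : ∀ ζ ∈ Z, ‖ζ‖ = 1 := fun ζ hζ => (hqx ζ ((hmem ζ).mp hζ)).1
  have hZ0 : ∀ ζ ∈ Z, ζ ≠ 0 := by
    intro ζ hζ h
    have := hZn ζ hζ
    rw [h, norm_zero] at this
    exact zero_ne_one this
  have hnd : q.roots.Nodup := by
    rw [Multiset.nodup_iff_count_le_one]
    intro z
    rw [count_roots]
    by_contra hcon
    push Not at hcon
    obtain ⟨h1, h2⟩ := (one_lt_rootMultiplicity_iff_isRoot hqne).mp hcon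
    exact hsim z h1 h2
  have hprod : q = C q.leadingCoeff * ∏ ζ ∈ Z, (X - C ζ) := by
    have h1 : q.Splits := IsAlgClosed.splits q
    have h2 := h1.eq_prod_roots
    have h3 : (q.roots.map fun a => X - C a).prod = ∏ ζ ∈ Z, (X - C ζ) := by
      rw [Finset.prod_eq_multiset_prod, hZ, Multiset.toFinset_val, hnd.dedup]
    rw [h3] at h2
    exact h2
  have hQP : QQ Z = C (∏ ζ ∈ Z, (-ζ⁻¹)) * ∏ ζ ∈ Z, (X - C ζ) := by
    unfold QQ
    rw [map_prod, ← Finset.prod_mul_distrib]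
    refine Finset.prod_congr rfl fun ζ hζ => ?_
    have h1 : (C ζ⁻¹ * C ζ : ℂ[X]) = 1 := by rw [← C_mul, inv_mul_cancel₀ (hZ0 ζ hζ), C_1]
    rw [C_neg]
    linear_combination -h1
  have hc0 : (∏ ζ ∈ Z, (-ζ⁻¹)) ≠ 0 :=
    Finset.prod_ne_zero_iff.mpr fun ζ hζ => neg_ne_zero.mpr (inv_ne_zero (hZ0 ζ hζ))
  have hqQ : q = QQ Z := by
    obtain ⟨t, ht⟩ : ∃ t : ℂ, q = C t * QQ Z := by
      refine ⟨q.leadingCoeff * (∏ ζ ∈ Z, (-ζ⁻¹))⁻¹, ?_⟩
      rw [hQP, ← mul_assoc, ← C_mul, mul_assoc, inv_mul_cancel₀ hc0, mul_one]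
      exact hprod
    have h1 : t = 1 := by
      have h2 := congrArg (fun f : ℂ[X] => f.coeff 0) ht
      simp only [coeff_C_mul, QQ_zero, hq0, mul_one] at h2
      exact h2.symm
    rw [ht, h1, C_1, one_mul]
  have hw : ∀ ζ ∈ Z, ∃ r : ℝ, 0 < r ∧ x.eval ζ = al * (r * (QQ (Z.erase ζ)).eval ζ) := by
    intro ζ hζ
    obtain ⟨h1, h2⟩ := hqx ζ ((hmem ζ).mp hζ)
    have hζ0 := hZ0 ζ hζ
    have h3 := UF.H74.neg_res (p := x) (g := C (al * -ζ⁻¹) * QQ (Z.erase ζ)) (c := C al * q)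
      (ζ := ζ) h1 (by
        rw [hqQ, QQ_erase hζ]
        have h4 : (C ζ⁻¹ * C ζ : ℂ[X]) = 1 := by rw [← C_mul, inv_mul_cancel₀ hζ0, C_1]
        rw [C_mul, C_neg]
        linear_combination (-(C al * QQ (Z.erase ζ))) * h4) hre
    have hR := QQ_erase_ne (ζ := ζ) hZ0
    obtain ⟨Rr, hRr⟩ : ∃ Rr, Rr = (QQ (Z.erase ζ)).eval ζ := ⟨_, rfl⟩
    rw [← hRr] at hR ⊢
    have h5 : ζ * (C (al * -ζ⁻¹) * QQ (Z.erase ζ)).eval ζ * conj (x.eval ζ) =
        -(al * Rr * conj (x.eval ζ)) := by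
      rw [eval_mul, eval_C, ← hRr]
      field_simp
    rw [h5, Complex.neg_im, Complex.neg_re] at h3
    obtain ⟨him, hre'⟩ := h3
    obtain ⟨w, hwd⟩ : ∃ w, w = al * Rr * conj (x.eval ζ) := ⟨_, rfl⟩
    rw [← hwd] at him hre'
    have hw0 : w ≠ 0 := by
      rw [hwd]
      exact mul_ne_zero (mul_ne_zero hal hR) ((_root_.map_ne_zero _).mpr h2)
    have hwe : w = (w.re : ℂ) := Complex.ext (by simp) (by
      rw [Complex.ofReal_im]
      linarith)
    have hwr : 0 < w.re := by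
      rcases lt_or_eq_of_le (show 0 ≤ w.re by linarith) with h | h
      · exact h
      · exfalso
        apply hw0
        rw [hwe, ← h, Complex.ofReal_zero]
    refine ⟨Complex.normSq (x.eval ζ) / w.re, div_pos (Complex.normSq_pos.mpr h2) hwr, ?_⟩
    have hwr0 : (w.re : ℂ) ≠ 0 := by exact_mod_cast hwr.ne'
    rw [Complex.ofReal_div, ← Complex.mul_conj]
    have h6 : (w.re : ℂ) = al * Rr * conj (x.eval ζ) := by rw [← hwe, hwd]
    field_simp
    rw [h6]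
    ring
  choose! ρ hρ0 hρ using hw
  obtain ⟨K, hK⟩ : ∃ K, K = KK Z (fun ζ => (ρ ζ : ℂ)) := ⟨_, rfl⟩
  have hdvd : QQ Z ∣ C al⁻¹ * x - K := by
    rw [hQP]
    have hu : IsUnit (C (∏ ζ ∈ Z, (-ζ⁻¹)) : ℂ[X]) := isUnit_C.mpr (isUnit_iff_ne_zero.mpr hc0)
    rw [hu.mul_left_dvd]
    refine Finset.prod_dvd_of_coprime ?_ ?_
    · intro a _ b _ hab
      exact (pairwise_coprime_X_sub_C (K := ℂ) (s := id) Function.injective_id) hab
    · intro ζ hζ
      rw [dvd_iff_isRoot, IsRoot.def, eval_sub, eval_mul, eval_C, hK, KK_eval hZ0 hζ, hρ ζ hζ]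
      field_simp
      ring
  obtain ⟨A, hA⟩ := hdvd
  have hxe : x = C al * (K + QQ Z * A) := by
    rw [← hA]
    have h1 : (C al * C al⁻¹ : ℂ[X]) = 1 := by rw [← C_mul, mul_inv_cancel₀ hal, C_1]
    linear_combination (-x) * h1
  have hid : ∀ z : ℂ, ‖z‖ = 1 → z ∉ Z → ∃ t : ℝ, 0 < t ∧
      ‖x.eval z‖ ^ 2 - ‖y.eval z‖ ^ 2 = t * (2 * (A.eval z).re - (1 - ∑ ζ ∈ Z, ρ ζ)) := by
    intro z hz hzZ
    have hq1 : (QQ Z).eval z ≠ 0 := by
      rw [← hqQ]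
      exact fun h => hzZ ((hmem z).mpr h)
    have h1 := KK_re (r := ρ) hZn hz hzZ
    rw [← hK] at h1
    have hy0 : (C al * q).eval z ≠ 0 := by
      rw [eval_mul, eval_C, hqQ]
      exact mul_ne_zero hal hq1
    have h2 := UF.H74.re_id (x := x.eval z) hy0
    have h3 : x.eval z - (C al * q).eval z = y.eval z := by
      rw [← hyx]
      ring
    rw [h3] at h2
    have h5 : 0 < ‖(C al * q).eval z‖ ^ 2 := by positivity
    refine ⟨_, h5, ?_⟩
    rw [h2]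
    have h7 : x.eval z / (C al * q).eval z = K.eval z / (QQ Z).eval z + A.eval z := by
      conv_lhs => rw [hxe, hqQ]
      simp only [eval_mul, eval_add, eval_C]
      field_simp
    rw [h7, Complex.add_re, h1]
    ring
  have hAc : ∀ z : ℂ, ‖z‖ = 1 → z ∉ Z → (1 - ∑ ζ ∈ Z, ρ ζ) / 2 ≤ (A.eval z).re := by
    intro z hz hzZ
    obtain ⟨t, ht, h1⟩ := hid z hz hzZ
    have h4 : 0 ≤ t * (2 * (A.eval z).re - (1 - ∑ ζ ∈ Z, ρ ζ)) := by
      rw [← h1]
      have := pow_le_pow_left₀ (norm_nonneg _) (hle z hz) 2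
      linarith
    have h6 := nonneg_of_mul_nonneg_right h4 ht
    linarith
  have h2 : (x.eval 0 / al).re = (∑ ζ ∈ Z, ρ ζ) + (A.eval 0).re := by
    have h1 : x.eval 0 / al = (∑ ζ ∈ Z, (ρ ζ : ℂ)) + A.eval 0 := by
      have h3 : K.eval 0 = ∑ ζ ∈ Z, (ρ ζ : ℂ) := by
        rw [← coeff_zero_eq_eval_zero, hK, KK_zero]
      have h4 : (QQ Z).eval 0 = 1 := by rw [← coeff_zero_eq_eval_zero, QQ_zero]
      rw [hxe, eval_mul, eval_C, eval_add, eval_mul, h3, h4, one_mul]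
      field_simp
    rw [h1, Complex.add_re, Complex.re_sum]
    simp only [Complex.ofReal_re]
  refine ⟨Z, ρ, A, hqQ, fun ζ hζ => ⟨hZn ζ hζ, hρ0 ζ hζ, hρ ζ hζ, hsim ζ ((hmem ζ).mp hζ)⟩, ?_,
    hAc, ?_, ?_⟩
  · rw [← hK]
    exact hxe
  · have h1 := re_min hAc 0 (by simp)
    rw [h2]
    linarith
  · intro heq
    rw [h2] at heq
    have h1 := re_min_eq hAc (by linarith)
    have h3 : ∀ z : ℂ, ‖z‖ = 1 → z ∉ Z → ‖y.eval z‖ = ‖x.eval z‖ := by
      intro z hz hzZ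
      obtain ⟨t, ht, h4⟩ := hid z hz hzZ
      rw [h1 z hz.le] at h4
      have h5 : ‖y.eval z‖ ^ 2 = ‖x.eval z‖ ^ 2 := by linear_combination -h4
      exact (pow_left_inj₀ (norm_nonneg _) (norm_nonneg _) two_ne_zero).mp h5
    intro z hz
    by_cases hzZ : z ∈ Z
    · have h4 := (hmem z).mp hzZ
      have h5 := hyx z
      rw [eval_mul, h4, mul_zero] at h5
      rw [sub_eq_zero.mp h5]
    · exact h3 z hz hzZ

/-! ## Polynomials over `O` -/

section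

variable {O : Type} [CommRing O] [Coef O]

theorem unit_norm {x : O} (h : ‖(Coef.emb x : ℂ)‖ = 1) : IsUnit x := by
  refine IsUnit.of_mul_eq_one (Coef.conj x) ?_
  apply emb_inj
  rw [map_mul, Coef.emb_conj, Complex.mul_conj, Complex.normSq_eq_norm_sq, h, map_one]
  norm_num

theorem norm_unit {x : O} (h : IsUnit x) : ‖(Coef.emb x : ℂ)‖ = 1 := by
  obtain ⟨y, hy⟩ := h.exists_right_inv
  have h1 : ‖(Coef.emb x : ℂ)‖ * ‖(Coef.emb y : ℂ)‖ = 1 := by
    rw [← norm_mul, ← map_mul, hy, map_one, norm_one]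
  have : Nontrivial O := by
    refine ⟨⟨0, 1, fun h01 => ?_⟩⟩
    have h2 := congrArg (Coef.emb : O →+* ℂ) h01
    rw [map_zero, map_one] at h2
    exact zero_ne_one h2
  have hx := Coef.one_le x (by
    rintro rfl
    rw [map_zero, norm_zero, zero_mul] at h1
    exact zero_ne_one h1)
  have hy' := Coef.one_le y (by
    rintro rfl
    rw [map_zero, norm_zero, mul_zero] at h1
    exact zero_ne_one h1)
  nlinarith

theorem one_le_prod (s : Multiset ℂ) (h : ∀ z ∈ s, 1 ≤ ‖z‖) : 1 ≤ ‖s.prod‖ := by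
  induction s using Multiset.induction_on with
  | empty => simp
  | cons a s ih =>
    rw [Multiset.prod_cons, norm_mul]
    have h1 := h a (Multiset.mem_cons_self a s)
    have h2 := ih fun z hz => h z (Multiset.mem_cons_of_mem hz)
    nlinarith

/-- The zeros of a polynomial with constant coefficient `1`, zero-free in the open disc, are on the
circle. -/
theorem unim {q : O[X]} (hq0 : q.coeff 0 = 1)
    (hz : ∀ z : ℂ, ‖z‖ < 1 → (q.map (Coef.emb : O →+* ℂ)).eval z ≠ 0) {z : ℂ}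
    (h : (q.map (Coef.emb : O →+* ℂ)).eval z = 0) : ‖z‖ = 1 := by
  obtain ⟨f, hf⟩ : ∃ f, f = q.map (Coef.emb : O →+* ℂ) := ⟨_, rfl⟩
  rw [← hf] at h hz
  have hf0 : f.coeff 0 = 1 := by rw [hf, coeff_map, hq0, map_one]
  have hfne : f ≠ 0 := by
    rintro h1
    rw [h1, coeff_zero] at hf0
    exact zero_ne_one hf0
  have hlead : 1 ≤ ‖f.leadingCoeff‖ := by
    rw [hf, leadingCoeff_map_of_injective emb_inj]
    apply Coef.one_le
    rw [ne_eq, leadingCoeff_eq_zero]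
    rintro rfl
    apply hfne
    rw [hf, Polynomial.map_zero]
  have h1 : f.Splits := IsAlgClosed.splits f
  have h2 := h1.eq_prod_roots
  have h3 : ∀ s : Multiset ℂ, ‖((s.map fun a => X - C a).prod : ℂ[X]).eval 0‖ = ‖s.prod‖ := by
    intro s
    induction s using Multiset.induction_on with
    | empty => simp
    | cons a s ih =>
      rw [Multiset.map_cons, Multiset.prod_cons, eval_mul, norm_mul, ih, Multiset.prod_cons,
        norm_mul, eval_sub, eval_X, eval_C, zero_sub, norm_neg]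
  have h4 : ‖f.leadingCoeff‖ * ‖f.roots.prod‖ = 1 := by
    rw [← h3, ← norm_one (α := ℂ), ← hf0, coeff_zero_eq_eval_zero]
    conv_rhs => rw [h2]
    rw [eval_mul, eval_C, norm_mul]
  have hge : ∀ w ∈ f.roots, 1 ≤ ‖w‖ := by
    intro w hw
    by_contra hcon
    push Not at hcon
    exact hz w hcon ((mem_roots hfne).mp hw)
  have hmem : z ∈ f.roots := (mem_roots hfne).mpr h
  obtain ⟨s, hs⟩ := Multiset.exists_cons_of_mem hmem
  rw [hs, Multiset.prod_cons, norm_mul] at h4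
  have h5 := one_le_prod s fun w hw => hge w (by rw [hs]; exact Multiset.mem_cons_of_mem hw)
  have h6 := hge z hmem
  nlinarith [mul_nonneg (sub_nonneg.mpr hlead) (norm_nonneg z),
    mul_nonneg (mul_nonneg (norm_nonneg f.leadingCoeff) (norm_nonneg z)) (sub_nonneg.mpr h5)]

end

section

variable {O : Type} [CommRing O] [IsDomain O] [Coef O]

/-- The sequence of the power series coefficients of `k / q`. -/
noncomputable def sq (q k : O[X]) : ℕ → O[X]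
  | 0 => k
  | j + 1 => (sq q k j - C ((sq q k j).coeff 0) * q).divX

theorem sq_succ {q k : O[X]} (hq0 : q.coeff 0 = 1) (j : ℕ) :
    sq q k j = sq q k (j + 1) * X + C ((sq q k j).coeff 0) * q := by
  have h1 := divX_mul_X_add (sq q k j - C ((sq q k j).coeff 0) * q)
  have h2 : (sq q k j - C ((sq q k j).coeff 0) * q).coeff 0 = 0 := by
    rw [coeff_sub, coeff_C_mul, hq0, mul_one, sub_self]
  rw [h2, C_0, add_zero] at h1
  have h3 : sq q k (j + 1) = (sq q k j - C ((sq q k j).coeff 0) * q).divX := rfl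
  rw [h3, h1]
  ring

theorem sq_deg {q k : O[X]} {D : ℕ} (hD : 1 ≤ D) (hq : q.natDegree = D) (hk : k.natDegree < D)
    (j : ℕ) : (sq q k j).natDegree < D := by
  induction j with
  | zero => exact hk
  | succ j ih =>
    have h3 : sq q k (j + 1) = (sq q k j - C ((sq q k j).coeff 0) * q).divX := rfl
    rw [h3, natDegree_divX_eq_natDegree_tsub_one]
    have h4 : (sq q k j - C ((sq q k j).coeff 0) * q).natDegree ≤ D := by
      refine (natDegree_sub_le _ _).trans (max_le ih.le ?_)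
      exact (natDegree_C_mul_le _ _).trans hq.le
    lia

theorem sq_eval {q k : O[X]} (hq0 : q.coeff 0 = 1) {ζ : ℂ} (hζ0 : ζ ≠ 0)
    (hζ : (q.map (Coef.emb : O →+* ℂ)).eval ζ = 0) (j : ℕ) :
    ((sq q k j).map (Coef.emb : O →+* ℂ)).eval ζ =
      ζ⁻¹ ^ j * (k.map (Coef.emb : O →+* ℂ)).eval ζ := by
  induction j with
  | zero =>
    rw [pow_zero, one_mul]
    rfl
  | succ j ih =>
    rw [sq_succ hq0 j, Polynomial.map_add, Polynomial.map_mul, Polynomial.map_mul, eval_add,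
      eval_mul, eval_mul, hζ, mul_zero, add_zero, map_X, eval_X] at ih
    have h1 : ((sq q k (j + 1)).map (Coef.emb : O →+* ℂ)).eval ζ =
        ((sq q k (j + 1)).map (Coef.emb : O →+* ℂ)).eval ζ * ζ * ζ⁻¹ := by
      rw [mul_assoc, mul_inv_cancel₀ hζ0, mul_one]
    rw [h1, ih, pow_succ]
    ring

/-- The content is `1 - v X^d`. -/
theorem fin1 {q k : O[X]} {Z : Finset ℂ} {ρ : ℂ → ℝ} (hq0 : q.coeff 0 = 1)
    (hq : q.map (Coef.emb : O →+* ℂ) = QQ Z) (hZ : ∀ ζ ∈ Z, ‖ζ‖ = 1) (hρ : ∀ ζ ∈ Z, 0 < ρ ζ)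
    (hk : ∀ ζ ∈ Z, (k.map (Coef.emb : O →+* ℂ)).eval ζ = ρ ζ * (QQ (Z.erase ζ)).eval ζ)
    (hne : Z.Nonempty) (hs : ∑ ζ ∈ Z, ρ ζ < 2) :
    ∃ (d : ℕ) (v : Oˣ), 1 ≤ d ∧ q = 1 - C (v : O) * X ^ d ∧
      ∀ ζ ∈ Z, (k.map (Coef.emb : O →+* ℂ)).eval ζ = 1 := by
  classical
  have hZ0 : ∀ ζ ∈ Z, ζ ≠ 0 := by
    intro ζ hζ h
    have := hZ ζ hζ
    rw [h, norm_zero] at this
    exact zero_ne_one this
  obtain ⟨D, hD⟩ : ∃ D, D = Z.card := ⟨_, rfl⟩
  have hD1 : 1 ≤ D := by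
    rw [hD]
    exact hne.card_pos
  have hqd : q.natDegree = D := by
    rw [hD, ← QQ_deg hZ0, ← hq, natDegree_map_eq_of_injective emb_inj]
  have hqz : ∀ ζ ∈ Z, (q.map (Coef.emb : O →+* ℂ)).eval ζ = 0 := by
    intro ζ hζ
    rw [hq]
    exact (QQ_eval hZ0).mpr hζ
  have hql : IsUnit q.leadingCoeff := by
    apply unit_norm
    rw [← leadingCoeff_map_of_injective emb_inj, hq]
    exact QQ_lead hZ
  obtain ⟨ul, hul⟩ := hql
  obtain ⟨q', hq'⟩ : ∃ q' : O[X], q' = C ((ul⁻¹ : Oˣ) : O) * q := ⟨_, rfl⟩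
  have hmon : q'.Monic := by
    rw [hq', Monic, leadingCoeff_mul, leadingCoeff_C, ← hul, Units.inv_mul]
  have hq'd : q'.natDegree = D := by
    rw [hq', natDegree_C_mul (Units.ne_zero _), hqd]
  obtain ⟨k0, hk0⟩ : ∃ k0, k0 = k %ₘ q' := ⟨_, rfl⟩
  have hk0d : k0.natDegree < D := by
    rw [hk0, ← hq'd]
    apply natDegree_modByMonic_lt k hmon
    intro h
    rw [h, natDegree_one] at hq'd
    lia
  have hk0e : ∀ ζ ∈ Z, (k0.map (Coef.emb : O →+* ℂ)).eval ζ =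
      (k.map (Coef.emb : O →+* ℂ)).eval ζ := by
    intro ζ hζ
    have h1 := modByMonic_add_div k q'
    rw [← hk0] at h1
    conv_rhs => rw [← h1]
    rw [Polynomial.map_add, Polynomial.map_mul, hq', Polynomial.map_mul, eval_add, eval_mul,
      eval_mul, hqz ζ hζ]
    ring
  obtain ⟨K, hK⟩ : ∃ K : ℕ → O[X], K = sq q k0 := ⟨_, rfl⟩
  have hKd : ∀ j, (K j).natDegree < D := fun j => by
    rw [hK]
    exact sq_deg hD1 hqd hk0d j
  have hK0 : K 0 = k0 := by rw [hK]; rfl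
  have hKs : ∀ j, K j = K (j + 1) * X + C ((K j).coeff 0) * q := fun j => by
    rw [hK]
    exact sq_succ hq0 j
  have hKe : ∀ j, ∀ ζ ∈ Z, ((K j).map (Coef.emb : O →+* ℂ)).eval ζ =
      ζ⁻¹ ^ j * (ρ ζ * (QQ (Z.erase ζ)).eval ζ) := by
    intro j ζ hζ
    rw [hK, sq_eval hq0 (hZ0 ζ hζ) (hqz ζ hζ), hk0e ζ hζ, hk ζ hζ]
  have hdeg : ∀ f : O[X], f.natDegree < D → (f.map (Coef.emb : O →+* ℂ)).degree < Z.card := by
    intro f hf
    refine degree_le_natDegree.trans_lt ?_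
    have h1 : (f.map (Coef.emb : O →+* ℂ)).natDegree ≤ f.natDegree := natDegree_map_le
    have h2 : (f.map (Coef.emb : O →+* ℂ)).natDegree < Z.card := by lia
    exact_mod_cast h2
  have hKK : ∀ j, (K j).map (Coef.emb : O →+* ℂ) = KK Z (fun ζ => (ρ ζ : ℂ) * ζ⁻¹ ^ j) := by
    intro j
    refine interp (hdeg _ (hKd j)) (KK_deg hZ0) fun ζ hζ => ?_
    rw [hKe j ζ hζ, KK_eval hZ0 hζ]
    ring
  have hm : ∀ j, (Coef.emb ((K j).coeff 0) : ℂ) = ∑ ζ ∈ Z, (ρ ζ : ℂ) * ζ⁻¹ ^ j := by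
    intro j
    rw [← coeff_map, hKK j, KK_zero]
  obtain ⟨s, hsd⟩ : ∃ s, s = ∑ ζ ∈ Z, ρ ζ := ⟨_, rfl⟩
  have hspos : 0 < s := by
    rw [hsd]
    exact Finset.sum_pos hρ hne
  have hm0 : (Coef.emb ((K 0).coeff 0) : ℂ) = (s : ℂ) := by
    rw [hm 0, hsd, Complex.ofReal_sum]
    refine Finset.sum_congr rfl fun ζ _ => ?_
    rw [pow_zero, mul_one]
  have hm01 : (K 0).coeff 0 = 1 := by
    by_contra hcon
    have h1 := Coef.one_le ((K 0).coeff 0 - 1) (sub_ne_zero.mpr hcon)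
    rw [map_sub, map_one, hm0, ← Complex.ofReal_one, ← Complex.ofReal_sub, Complex.norm_real,
      Real.norm_eq_abs] at h1
    have h2 : |s - 1| < 1 := by
      rw [abs_lt]
      constructor <;> linarith
    linarith
  have hs1 : s = 1 := by
    rw [hm01, map_one] at hm0
    exact_mod_cast hm0.symm
  have hle1 : ∀ j, ‖(Coef.emb ((K j).coeff 0) : ℂ)‖ ≤ 1 := by
    intro j
    rw [hm j, ← hs1, hsd]
    refine (norm_sum_le _ _).trans (Finset.sum_le_sum fun ζ hζ => ?_)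
    rw [norm_mul, norm_pow, norm_inv, hZ ζ hζ, inv_one, one_pow, mul_one, Complex.norm_real,
      Real.norm_eq_abs, abs_of_pos (hρ ζ hζ)]
  have hex : ∃ j, (K (j + 1)).coeff 0 ≠ 0 := by
    by_contra hcon
    push Not at hcon
    have h1 : ∀ j, K 1 = K (j + 1) * X ^ j := by
      intro j
      induction j with
      | zero => rw [pow_zero, mul_one]
      | succ j ih =>
        rw [ih, hKs (j + 1), hcon j, C_0, zero_mul, add_zero, pow_succ]
        ring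
    have h2 : K 1 = 0 := by
      by_contra hne0
      have h3 := h1 D
      have h4 : K (D + 1) ≠ 0 := by
        intro h5
        rw [h5, zero_mul] at h3
        exact hne0 h3
      have h5 := congrArg natDegree h3
      rw [natDegree_mul_X_pow D h4] at h5
      have h6 := hKd 1
      lia
    obtain ⟨ζ, hζ⟩ := hne
    have h3 := hKe 1 ζ hζ
    rw [h2, Polynomial.map_zero, eval_zero, pow_one] at h3
    have h4 : ζ⁻¹ * ((ρ ζ : ℂ) * (QQ (Z.erase ζ)).eval ζ) ≠ 0 :=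
      mul_ne_zero (inv_ne_zero (hZ0 ζ hζ)) (mul_ne_zero (by exact_mod_cast (hρ ζ hζ).ne')
        (QQ_erase_ne hZ0))
    exact h4 h3.symm
  obtain ⟨e, he1, he2⟩ : ∃ e, (K (e + 1)).coeff 0 ≠ 0 ∧ ∀ j < e, (K (j + 1)).coeff 0 = 0 :=
    ⟨Nat.find hex, Nat.find_spec hex, fun j hj => not_not.mp (Nat.find_min hex hj)⟩
  obtain ⟨w, hw⟩ : ∃ w : ℂ, w = Coef.emb ((K (e + 1)).coeff 0) := ⟨_, rfl⟩
  have hwn : ‖w‖ = 1 := by
    rw [hw]
    exact le_antisymm (hle1 _) (Coef.one_le _ he1)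
  have hall : ∀ ζ ∈ Z, ζ⁻¹ ^ (e + 1) = w := by
    have h1 : ∑ ζ ∈ Z, ρ ζ * (1 - (conj w * ζ⁻¹ ^ (e + 1)).re) = 0 := by
      have h2 : (conj w * w).re = 1 := by
        rw [mul_comm, Complex.mul_conj, Complex.normSq_eq_norm_sq, hwn, one_pow, Complex.ofReal_one,
          Complex.one_re]
      have h3 : conj w * w = ∑ ζ ∈ Z, (ρ ζ : ℂ) * (conj w * ζ⁻¹ ^ (e + 1)) := by
        conv_lhs => rw [show conj w * w = conj w * ∑ ζ ∈ Z, (ρ ζ : ℂ) * ζ⁻¹ ^ (e + 1) by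
          rw [← hm (e + 1), ← hw]]
        rw [Finset.mul_sum]
        refine Finset.sum_congr rfl fun ζ _ => ?_
        ring
      rw [h3, Complex.re_sum] at h2
      have h4 : ∀ ζ ∈ Z, ρ ζ * (1 - (conj w * ζ⁻¹ ^ (e + 1)).re) =
          ρ ζ - ((ρ ζ : ℂ) * (conj w * ζ⁻¹ ^ (e + 1))).re := by
        intro ζ _
        rw [Complex.re_ofReal_mul]
        ring
      rw [Finset.sum_congr rfl h4, Finset.sum_sub_distrib, h2, ← hsd, hs1, sub_self]
    have hn : ∀ ζ ∈ Z, ‖conj w * ζ⁻¹ ^ (e + 1)‖ = 1 := by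
      intro ζ hζ
      rw [norm_mul, RCLike.norm_conj, hwn, norm_pow, norm_inv, hZ ζ hζ, inv_one, one_pow, one_mul]
    have h2 : ∀ ζ ∈ Z, 0 ≤ ρ ζ * (1 - (conj w * ζ⁻¹ ^ (e + 1)).re) := by
      intro ζ hζ
      have h3 := Complex.re_le_norm (conj w * ζ⁻¹ ^ (e + 1))
      rw [hn ζ hζ] at h3
      exact mul_nonneg (hρ ζ hζ).le (by linarith)
    intro ζ hζ
    have h3 := (Finset.sum_eq_zero_iff_of_nonneg h2).mp h1 ζ hζ
    have h4 : (conj w * ζ⁻¹ ^ (e + 1)).re = 1 := by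
      have := (mul_eq_zero.mp h3).resolve_left (hρ ζ hζ).ne'
      linarith
    have h5 : (conj w * ζ⁻¹ ^ (e + 1)).im = 0 := by
      have h6 := Complex.normSq_eq_norm_sq (conj w * ζ⁻¹ ^ (e + 1))
      rw [hn ζ hζ, Complex.normSq_apply, h4] at h6
      have h7 : (conj w * ζ⁻¹ ^ (e + 1)).im * (conj w * ζ⁻¹ ^ (e + 1)).im = 0 := by linarith
      exact mul_self_eq_zero.mp h7
    have h6 : conj w * ζ⁻¹ ^ (e + 1) = 1 := Complex.ext (by rw [h4, Complex.one_re])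
      (by rw [h5, Complex.one_im])
    have h7 : w * conj w = 1 := by
      rw [Complex.mul_conj, Complex.normSq_eq_norm_sq, hwn, one_pow, Complex.ofReal_one]
    linear_combination w * h6 - ζ⁻¹ ^ (e + 1) * h7
  have hw0 : w ≠ 0 := by
    intro h
    rw [h, norm_zero] at hwn
    exact zero_ne_one hwn
  have hDe : D ≤ e + 1 := by
    have h1 : (C w * X ^ (e + 1) - 1 : ℂ[X]).natDegree = e + 1 := by
      rw [← C_1]
      rw [natDegree_sub_C, natDegree_C_mul_X_pow (e + 1) w hw0]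
    have h2 : (C w * X ^ (e + 1) - 1 : ℂ[X]) ≠ 0 := by
      intro h
      rw [h, natDegree_zero] at h1
      lia
    rw [hD, ← h1]
    apply card_le_degree_of_subset_roots
    intro ζ hζ
    rw [mem_roots h2, IsRoot.def]
    simp only [eval_sub, eval_mul, eval_C, eval_pow, eval_X, eval_one]
    rw [← hall ζ hζ, ← mul_pow, inv_mul_cancel₀ (hZ0 ζ hζ), one_pow, sub_self]
  have hKe2 : K (e + 1) = C ((K (e + 1)).coeff 0) * K 0 := by
    apply Polynomial.map_injective (Coef.emb : O →+* ℂ) emb_inj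
    have h1 : (C ((K (e + 1)).coeff 0) * K 0).natDegree < D :=
      (natDegree_C_mul_le _ _).trans_lt (hKd 0)
    refine interp (hdeg _ (hKd _)) (hdeg _ h1) fun ζ hζ => ?_
    rw [hKe _ ζ hζ, Polynomial.map_mul, eval_mul, hKe 0 ζ hζ, map_C, eval_C, ← hw, pow_zero,
      one_mul, hall ζ hζ]
  have hchain : ∀ j ≤ e, K 0 - q = K (j + 1) * X ^ (j + 1) := by
    intro j
    induction j with
    | zero =>
      intro _
      have h1 := hKs 0
      rw [hm01, C_1, one_mul] at h1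
      rw [pow_one]
      linear_combination h1
    | succ j ih =>
      intro hj
      rw [ih (by lia), hKs (j + 1), he2 j (by lia), C_0, zero_mul, add_zero, pow_succ _ (j + 1)]
      ring
  have h1 := hchain e le_rfl
  rw [hKe2] at h1
  have h2 : q = K 0 * (1 - C ((K (e + 1)).coeff 0) * X ^ (e + 1)) := by linear_combination -h1
  have hnd : (1 - C ((K (e + 1)).coeff 0) * X ^ (e + 1) : O[X]).natDegree = e + 1 := by
    rw [natDegree_sub_eq_right_of_natDegree_lt]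
    · rw [natDegree_C_mul_X_pow _ _ he1]
    · rw [natDegree_one, natDegree_C_mul_X_pow _ _ he1]
      lia
  have h3 : K 0 ≠ 0 := by
    intro h
    rw [h, coeff_zero] at hm01
    exact zero_ne_one hm01
  have h4 : (1 - C ((K (e + 1)).coeff 0) * X ^ (e + 1) : O[X]) ≠ 0 := by
    intro h
    rw [h, natDegree_zero] at hnd
    lia
  have h5 := congrArg natDegree h2
  rw [natDegree_mul h3 h4, hnd, hqd] at h5
  have h6 : K 0 = 1 := by
    rw [eq_C_of_natDegree_eq_zero (show (K 0).natDegree = 0 by lia), hm01, C_1]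
  obtain ⟨v, hv⟩ := unit_norm (x := (K (e + 1)).coeff 0) (by rw [← hw]; exact hwn)
  refine ⟨e + 1, v, by lia, ?_, ?_⟩
  · rw [hv, h2, h6, one_mul]
  · intro ζ hζ
    rw [← hk0e ζ hζ, ← hK0, h6, Polynomial.map_one, eval_one]

end

end Pool.Agent.B5.Cno
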