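import Pool.Agent.Lib.MP_b5021c_nt.UF.H83.Gen
import Pool.Agent.Lib.MP_b5021c_nt.UF.H19.Dcp

/-!
# Board b5, stage 3, row UFG_C3 (helper83, after UF/H19/Dcp.lean of helper19): decoupling with
arbitrary drop
-/

set_option linter.unusedSectionVars false

namespace Pool.Agent.B5.UfgD

open scoped LaurentPolynomial
open Pool.Agent.B5 Pool.Agent.B5.H83 Pool.Agent.B5.H96 Pool.Agent.B5.H07 Pool.Agent.B5.UF.H19

section parts

variable {P : Type} [Fintype P] [DecidableEq P] {L : Type} [AddCommGroup L] [Module.Free ℤ L]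
  [Module.Finite ℤ L] {phi : L →+ (P → ℤ)} {E : AO ℤ L} {S : L} {i0 : P}
  {h : co phi i0 S = 1} {eta : (RO ℤ)ˣ} {G R : AO ℤ (Ker (co phi i0))} {z : (RO ℤ)ˣ}

theorem rk_A2 (hR : RkS) (H : Cx phi E S i0 h eta G R z) (h0 : R.coeff 0 ≠ 0) :
    rk (supp (Ap phi S i0 eta G R)) = Module.finrank ℤ L := by
  refine le_antisymm ((hR L L).2.2.1 _) ?_
  have hS : S ∈ supp (Ap phi S i0 eta G R) := by
    intro h2
    have h3 := A_coeff1 (h := h) (eta := eta) (G := G) (R := R) 0
    change (eta : RO ℤ) * (Ap phi S i0 eta G R).coeff (0 + S) = _ at h3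
    have h4 : (Ap phi S i0 eta G R).coeff S = 0 := h2
    rw [zero_add, h4, mul_zero, eq_comm, neg_eq_zero] at h3
    exact h0 h3
  rw [← H.cc.dd.spn]
  apply (hR L L).2.2.2.2.2.2.2.2.1
  intro a ha
  refine ⟨1, one_ne_zero, ?_⟩
  rw [one_smul]
  set b := prj (co phi i0) S h a with hb
  have h3 : a = (b : L) + co phi i0 a • S := by rw [hb, prj_coe, sub_add_cancel]
  have hSs : S ∈ Submodule.span ℤ (supp (Ap phi S i0 eta G R)) := Submodule.subset_span hS
  have hbs : (b : L) ∈ Submodule.span ℤ (supp (Ap phi S i0 eta G R)) := by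
    by_contra hcon
    have e1 : (Ap phi S i0 eta G R).coeff (b : L) = 0 := by
      by_contra h4
      exact hcon (Submodule.subset_span h4)
    have e2 : (Ap phi S i0 eta G R).coeff ((b : L) + S) = 0 := by
      by_contra h4
      have h5 : (b : L) + S ∈ Submodule.span ℤ (supp (Ap phi S i0 eta G R)) :=
        Submodule.subset_span h4
      have h6 := Submodule.sub_mem _ h5 hSs
      rw [add_sub_cancel_right] at h6
      exact hcon h6
    rw [A_coeff0 (h := h)] at e1
    have e3 := A_coeff1 (h := h) (eta := eta) (G := G) (R := R) b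
    rw [e2, mul_zero, eq_comm, neg_eq_zero] at e3
    rw [e3, add_zero] at e1
    have e4 := E_coeff0 H b
    have e5 := E_coeff1 H b
    simp only [e1, e3, mul_zero, add_zero] at e4
    simp only [e1, e3, mul_zero, neg_zero, sub_zero] at e5
    have e6 : E.coeff ((b : L) + S) = 0 := (mul_eq_zero.1 e5).resolve_left eta.ne_zero
    rcases bin_co H a ha with h4 | h4
    · rw [h4, zero_smul, add_zero] at h3
      rw [← h3] at e4
      exact ha e4
    · rw [h4, one_smul] at h3
      rw [← h3] at e6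
      exact ha e6
  rw [h3]
  exact Submodule.add_mem _ hbs (Submodule.smul_mem _ _ hSs)

end parts

open Polynomial in
/-- (UFG_C3) decoupling. -/
theorem dcpg (h2 : MultiS) (h3 : StSpecS) (h5 : B2cS) (h6 : G0S) (h7 : EvRS) (hA : A3bS)
    (hZ : ZfinS) (hUn : UnitAS) (hCI : ComplIrrS) (hC : ComplS) (hR : RkS) (hFcl : FclS)
    (hEvz : EvzS) (hEv1 : BdV ℤ 1 1) : DcpgS := by
  intro P L _ _ _ _ _ phi E S i0 h eta G R N k ep p0 u0 hD hRay hN hV hrk he0 hp0 hk hep
    hcl hzf hg0 hX
  obtain ⟨zu, hzu⟩ := zu_exists k ep hep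
  have hbin : ∀ a ∈ supp E, co phi i0 a = 0 ∨ co phi i0 a = 1 := fun a ha => hD.bin a ha i0
  have hw := w_ne k hk ep
  -- the constant coefficients
  have hV0 : E.coeff 0 + (eta : RO ℤ) * E.coeff S =
      toLaurent (1 - C ep * X ^ k) * G.coeff 0 := by
    have e1 := H47.cl_coeff_bin (co phi i0) S h eta E hbin 0
    rw [hcl, cst_mul_coeff] at e1
    change _ = E.coeff (0 : L) + (eta : RO ℤ) * E.coeff ((0 : L) + S) at e1
    rw [zero_add] at e1
    exact e1.symm
  have hN1 : (C ((N : ℤ) - 1) : ℤ[X]) ≠ 0 := by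
    rw [Ne, C_eq_zero]
    omega
  have hG0 : G.coeff 0 ≠ 0 := by
    intro h0
    rw [h0, mul_zero] at hg0
    exact hN1 (Dcm.toLaurent_inj' (hg0.symm.trans (map_zero toLaurent).symm))
  have hcc : CC phi E S i0 eta := by
    refine ⟨hD, by omega, hRay, h, ?_⟩
    rw [hV0]
    exact mul_ne_zero hw hG0
  have H : Cx phi E S i0 h eta G R zu := by
    refine ⟨hcc, by rw [← hzu]; exact hw, by rw [← hzu]; exact hcl, ?_⟩
    apply AddMonoidAlgebra.ext
    apply Finsupp.ext
    intro a
    rw [res_coeff, hX a, hzu, AddMonoidAlgebra.coeff_add, Finsupp.add_apply, cst_mul_coeff]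
  have hnu : ¬ IsUnit (1 - (zu : RO ℤ)) := by
    rw [← hzu]
    exact w_not_unit h7 k hk ep hep
  have hGd : ∀ a, (1 - (zu : RO ℤ)) ∣ G.coeff a → G.coeff a = 0 := by
    intro a ha
    rw [← hzu] at ha
    exact w_dvd k hk ep hep _ (zfree_mono hzf a) ha
  -- the quotient
  have hX0 : E.coeff 0 = G.coeff 0 + toLaurent (1 - C ep * X ^ k) * R.coeff 0 := hX 0
  have hq : (toLaurent (1 - C ep * X ^ k) : RO ℤ) * ((u0 : RO ℤ) * R.coeff 0) =
      toLaurent (p0 - C ((N : ℤ) - 1)) := by
    rw [map_sub toLaurent p0, ← he0, ← hg0, hX0]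
    ring
  obtain ⟨r0, hr0⟩ := quo k hk ep _ _ hq
  have hr00 : r0.coeff 0 = 1 := by
    have e1 : (1 - C ep * X ^ k) * r0 = p0 - C ((N : ℤ) - 1) := by
      apply Dcm.toLaurent_inj'
      rw [map_mul, ← hr0, hq]
    have e2 := congrArg (fun f : ℤ[X] => f.coeff 0) e1
    change ((1 - C ep * X ^ k) * r0).coeff 0 = (p0 - C ((N : ℤ) - 1)).coeff 0 at e2
    rw [mul_coeff_zero, w_coeff0 k hk, one_mul, coeff_sub, hp0, coeff_C_zero] at e2
    rw [e2]
    ring
  have hR0 : R.coeff 0 ≠ 0 := by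
    intro h0
    rw [h0, mul_zero] at hr0
    have e1 : r0 = 0 := Dcm.toLaurent_inj' (hr0.symm.trans (map_zero toLaurent).symm)
    rw [e1, coeff_zero] at hr00
    exact zero_ne_one hr00
  -- the completion
  have hst := A_stable h2 h3 h5 h6 h7 hA hZ H hGd
  obtain ⟨b, hDD, hc0⟩ := dd_compl hUn hCI hC H hnu hGd hst (rk_A2 hR H hR0)
  have hA0 : (Ap phi S i0 eta G R).coeff 0 = ((u0⁻¹ : (RO ℤ)ˣ) : RO ℤ) *
      toLaurent (C ((N : ℤ) - 1) + r0) := by
    have e1 := A_coeff0 (h := h) (eta := eta) (G := G) (R := R) 0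
    change (Ap phi S i0 eta G R).coeff 0 = _ at e1
    rw [e1, map_add, ← hg0, ← hr0, ← mul_add, ← mul_assoc, Units.inv_mul, one_mul]
  -- class V
  have hre : ∀ z : Circle, 0 ≤ (aeval (z : ℂ) r0 : ℂ).re := by
    have hcl' : IsClosed {z : Circle | 0 ≤ (evR z (toLaurent r0)).re} :=
      isClosed_le continuous_const (Complex.continuous_re.comp ((h7 ℤ).2.2.2 (toLaurent r0)))
    have hall := H09.tpm_dense hZ (toLaurent (1 - C ep * X ^ k) : RO ℤ) hw _ hcl' (by
      intro z hz
      rw [hzu, map_sub, map_one] at hz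
      have e1 := (h5 ℤ L E hD.st).2 S hRay z
      have hu : ‖evR z (u0 : RO ℤ)‖ = 1 := (h7 ℤ).2.1 z _ u0.isUnit
      have he : ‖evR z (eta : RO ℤ)‖ = 1 := (h7 ℤ).2.1 z _ eta.isUnit
      have hζ : ‖evR z (zu : RO ℤ)‖ = 1 := (h7 ℤ).2.1 z _ zu.isUnit
      have hm : (0 : ℝ) < (N : ℝ) - 1 := by
        have : (3 : ℝ) ≤ N := by exact_mod_cast hN
        linarith
      have e2 : evR z (u0 : RO ℤ) * evR z (G.coeff 0) = (((N : ℝ) - 1 : ℝ) : ℂ) := by
        rw [← map_mul, hg0, evR_aeval, aeval_C]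
        simp
      have e3 : evR z (u0 : RO ℤ) * evR z (R.coeff 0) = evR z (toLaurent r0) := by
        rw [← map_mul, hr0]
      have e4 : evR z (E.coeff 0) = evR z (G.coeff 0) + (1 - evR z (zu : RO ℤ)) *
          evR z (R.coeff 0) := by
        rw [hX0, hzu, map_add, map_mul, map_sub, map_one]
      have e5 : evR z (eta : RO ℤ) * evR z (E.coeff S) =
          (1 - evR z (zu : RO ℤ)) * evR z (G.coeff 0) - evR z (E.coeff 0) := by
        have e6 := congrArg (evR z) hV0
        rw [map_add, map_mul, hzu, map_mul, map_sub, map_one] at e6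
        linear_combination e6
      set ζ := evR z (zu : RO ℤ) with hζd
      set ρ : ℂ := evR z (toLaurent r0) / (((N : ℝ) - 1 : ℝ) : ℂ) with hρ
      have hmc : (((N : ℝ) - 1 : ℝ) : ℂ) ≠ 0 := by exact_mod_cast hm.ne'
      have e7 : ‖ζ + (1 - ζ) * ρ‖ ≤ ‖1 + (1 - ζ) * ρ‖ := by
        have f1 : evR z (u0 : RO ℤ) * evR z (E.coeff 0) =
            (((N : ℝ) - 1 : ℝ) : ℂ) * (1 + (1 - ζ) * ρ) := by
          rw [e4, mul_add, e2, hρ]
          have : evR z (u0 : RO ℤ) * ((1 - ζ) * evR z (R.coeff 0)) =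
              (1 - ζ) * evR z (toLaurent r0) := by
            rw [← e3]; ring
          rw [this]
          field_simp
        have f2 : evR z (u0 : RO ℤ) * (evR z (eta : RO ℤ) * evR z (E.coeff S)) =
            -((((N : ℝ) - 1 : ℝ) : ℂ) * (ζ + (1 - ζ) * ρ)) := by
          rw [e5, mul_sub, f1]
          have : evR z (u0 : RO ℤ) * ((1 - ζ) * evR z (G.coeff 0)) =
              (1 - ζ) * (((N : ℝ) - 1 : ℝ) : ℂ) := by
            rw [← e2]; ring
          rw [this]
          ring
        have f3 := congrArg norm f1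
        have f4 := congrArg norm f2
        rw [norm_mul, norm_mul, hu, one_mul] at f3
        rw [norm_mul, norm_mul, norm_neg, norm_mul, hu, he, one_mul, one_mul] at f4
        rw [f3, f4] at e1
        exact le_of_mul_le_mul_left e1 (norm_pos_iff.2 hmc)
      have hζ1 : ζ ≠ 1 := fun hh => hz (by rw [hh, sub_self])
      have e8 := rho_re ζ ρ hζ hζ1 e7
      change 0 ≤ (evR z (toLaurent r0)).re
      have e9 : evR z (toLaurent r0) = (((N : ℝ) - 1 : ℝ) : ℂ) * ρ := by
        rw [hρ]; field_simp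
      rw [e9, Complex.re_ofReal_mul]
      exact mul_nonneg hm.le e8)
    intro z
    have := hall z
    rwa [evR_aeval] at this
  have hVN : ClassV (N : ℝ) ((compl (Ap phi S i0 eta G R)).coeff 0) := by
    rw [hc0, hA0]
    apply Dcm.classV_unit
    have e1 := Dcm.classV_poly (N := (N : ℤ)) (by omega) (F := C ((N : ℤ) - 1) + r0) (by
      rw [coeff_add, coeff_C_zero, hr00, sub_add_cancel]
      exact abs_of_nonneg (by omega)) (by
      intro z hz h0
      have e2 := re_disc r0 hre z hz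
      rw [map_add, aeval_C] at h0
      have e3 := congrArg Complex.re h0
      rw [Complex.add_re, Complex.zero_re] at e3
      have e4 : ((algebraMap ℤ ℂ) ((N : ℤ) - 1)).re = (N : ℝ) - 1 := by
        simp
      rw [e4] at e3
      have : (3 : ℝ) ≤ N := by exact_mod_cast hN
      linarith)
    rw [Int.cast_natCast] at e1
    exact e1
  have hfr : Module.finrank ℤ (L × ℤ) = Module.finrank ℤ L + 1 := by
    rw [Module.finrank_prod, Module.finrank_self]
  rcases hFcl ℤ (Option P) (L × ℤ) (phC phi b) (compl (Ap phi S i0 eta G R)) N hDD hVN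
    (by omega) with hzf' | ⟨N', b', D', hN', hD', hVD', hrD'⟩
  · -- z-free
    obtain ⟨q, l, n0, hq0, hz⟩ := hzf'
    obtain ⟨j, s, hs⟩ := Dcm.unit_mz u0⁻¹
    have hF : ∀ i : ℕ, 0 < i → (C ((N : ℤ) - 1) + r0).coeff i = 0 := by
      intro i hi
      by_contra hcon
      have hco : ∀ i : ℕ, (((u0⁻¹ : (RO ℤ)ˣ) : RO ℤ) *
          toLaurent (C ((N : ℤ) - 1) + r0)).coeff (j + i) =
            (s : ℤ) * (C ((N : ℤ) - 1) + r0).coeff i := by
        intro i
        rw [hs]
        unfold Dcm.mz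
        rw [AddMonoidAlgebra.coeff_single_mul_apply, neg_add_cancel_left,
          Dcm.toLaurent_coeff_nonneg]
      have e1 := hz 0 (j + i) (by
        rw [hc0, hA0, hco]
        exact mul_ne_zero s.ne_zero hcon)
      have e2 := hz 0 (j + (0 : ℕ)) (by
        rw [hc0, hA0, hco, coeff_add, coeff_C_zero, hr00, sub_add_cancel]
        exact mul_ne_zero s.ne_zero (by omega))
      have e3 : (q : ℤ) * (j + i) = q * (j + (0 : ℕ)) := e1.trans e2.symm
      have e4 := mul_left_cancel₀ (by exact_mod_cast hq0.ne') e3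
      push_cast at e4
      omega
    have hr1 : r0 = 1 := by
      ext i
      rcases Nat.eq_zero_or_pos i with h0 | h0
      · rw [h0, hr00, coeff_one_zero]
      · have e1 := hF i h0
        rw [coeff_add, coeff_C, if_neg (by omega), zero_add] at e1
        rw [e1, coeff_one, if_neg (by omega)]
    rw [hr0, hr1, map_one]
  · exfalso
    exact fcl_no hEvz hEv1 (by omega) hN' hD' hVD' (by omega)

end Pool.Agent.B5.UfgD
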