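import Pool.Agent.Lib.MP_b5021c_nt.UF.H83.Gex

/-!
# MP_b5021c_nt, board b5, row UFG_AV (helper83): the averages of LEMMA UF, arbitrary drop
-/

set_option linter.unusedSectionVars false

namespace Pool.Agent.B5.Uf

open scoped LaurentPolynomial
open Pool.Agent.B5 Pool.Agent.B5.H83 Pool.Agent.B5.H96 Polynomial
open Pool.Agent.B5.Dcm (mz mzs_coeff unit_mz)

section

variable {P : Type} [Fintype P] [DecidableEq P] {L : Type} [AddCommGroup L] [Module.Free ℤ L]
  [Module.Finite ℤ L]

/-- No factor `1 - e w^b` (arbitrary drop). -/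
theorem ns_Lg (hFD : FDS) (hSm : SmallS) (hG0 : G0S) (hU : UnitAS) (hMin : MinS) (hPr : PrimS)
    (hMm : MmulS) {phi : L →+ (P → ℤ)} {E : AO ℤ L} {S : L} {i0 : P}
    {h : co phi i0 S = 1} {eta : (RO ℤ)ˣ} {c : RO ℤ} {n0 : ℕ}
    {G : Fin n0 → AO ℤ (Ker (co phi i0))} (hcc : CC phi E S i0 eta)
    (hZ : Zfg phi E S i0 h eta c n0 G) (hc : IsUnit c) (b : Ker (co phi i0)) (e : (RO ℤ)ˣ)
    (hb : b ≠ 0) :
    ¬ (1 - AddMonoidAlgebra.single b (e : RO ℤ)) ∣ cl (co phi i0) S h eta E := by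
  classical
  intro hd
  have : UniqueFactorizationMonoid (AO ℤ (Ker (co phi i0))) :=
    H25.Bch.ufdL ℤ (Ker (co phi i0))
  obtain ⟨c', n', G', fd⟩ := hFD ℤ P L phi E S i0 eta h hcc
  obtain ⟨lam, hlam, hlb⟩ := exists_lam hG0 (h := h) hcc b hb
  set x : AO ℤ (Ker (co phi i0)) := 1 - AddMonoidAlgebra.single b (e : RO ℤ) with hx
  have hx0 : x ≠ 0 := by
    intro h0
    have h1 : x.coeff 0 = 1 := by
      rw [hx, bin_coeff, if_pos rfl, if_neg (Ne.symm hb), sub_zero]
    rw [h0] at h1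
    exact zero_ne_one h1
  have hxu : ¬ IsUnit x := by
    intro hu
    obtain ⟨a, d, -, hxa⟩ := (hU ℤ _ x).1 hu
    have h1 : x.coeff 0 = 1 := by
      rw [hx, bin_coeff, if_pos rfl, if_neg (Ne.symm hb), sub_zero]
    have h2 : x.coeff b = -(e : RO ℤ) := by
      rw [hx, bin_coeff, if_neg hb, if_pos rfl, zero_sub]
    rw [hxa, AddMonoidAlgebra.coeff_single, Finsupp.single_apply] at h1 h2
    by_cases h3 : a = 0
    · rw [if_neg (by rw [h3]; exact Ne.symm hb)] at h2
      exact neg_ne_zero.2 e.ne_zero h2.symm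
    · rw [if_neg h3] at h1
      exact zero_ne_one h1
  obtain ⟨y, hyi, hyx⟩ := WfDvdMonoid.exists_irreducible_factor hxu hx0
  have hyp : Prime y := UniqueFactorizationMonoid.irreducible_iff_prime.1 hyi
  have hyV := hyx.trans hd
  -- a factor of `G`
  obtain ⟨i, hi⟩ : ∃ i, y ∣ G i := by
    have h1 := hyV
    rw [hZ.eq] at h1
    rcases hyp.dvd_or_dvd h1 with h2 | h2
    · exact absurd (isUnit_of_dvd_unit h2 (H78.isUnit_cst hc)) hyi.not_isUnit
    · obtain ⟨i, -, hi⟩ := (hyp.dvd_finsetProd_iff _).1 h2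
      exact ⟨i, hi⟩
  have hai : Associated y (G i) := hyi.associated_of_dvd (hZ.irr i) hi
  -- a factor of `G'`
  have hc' : IsUnit c' := by
    have h1 : cst c' ∣ cst c * ∏ i, G i := by
      rw [← hZ.eq, fd.eq]
      exact Dvd.intro _ rfl
    exact isUnit_of_dvd_unit (Dcm.gauss (Dcm.prim_prod hPr G hZ.irr hZ.wd) c' c h1) hc
  obtain ⟨j, hj⟩ : ∃ j, y ∣ G' j := by
    have h1 := hyV
    rw [fd.eq] at h1
    rcases hyp.dvd_or_dvd h1 with h2 | h2
    · exact absurd (isUnit_of_dvd_unit h2 (H78.isUnit_cst hc')) hyi.not_isUnit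
    · obtain ⟨i, -, hi⟩ := (hyp.dvd_finsetProd_iff _).1 h2
      exact ⟨i, hi⟩
  have haj : Associated y (G' j) := hyi.associated_of_dvd (fd.irr j) hj
  by_cases hbig : 1 < M ((G' j).coeff 0)
  · obtain ⟨H, hH⟩ : G' j ∣ x := (haj.symm.dvd).trans hyx
    have hfull := fd.full j lam hlam
    have hnu : ¬ IsUnit ((G' j).coeff 0) := by
      intro hu
      rw [(hMm ℤ).2.2 _ hu] at hbig
      exact lt_irrefl _ hbig
    rcases lt_or_gt_of_ne hlb with hneg | hpos
    · apply hnu
      have h1 : 0 < lam (-b) := by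
        rw [map_neg]
        omega
      refine low_unit hMin hfull.2.1 hfull.1 h1 (H := -(AddMonoidAlgebra.single (-b)
        ((e⁻¹ : (RO ℤ)ˣ) : RO ℤ)) * H) (e := ((e⁻¹ : (RO ℤ)ˣ) : RO ℤ)) ?_
      have h2 : -(AddMonoidAlgebra.single (-b) ((e⁻¹ : (RO ℤ)ˣ) : RO ℤ)) * H * G' j =
          -(AddMonoidAlgebra.single (-b) ((e⁻¹ : (RO ℤ)ˣ) : RO ℤ)) * x := by
        rw [hH]
        ring
      have h3 : (AddMonoidAlgebra.single (-b) ((e⁻¹ : (RO ℤ)ˣ) : RO ℤ) : AO ℤ (Ker (co phi i0))) *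
          AddMonoidAlgebra.single b (e : RO ℤ) = 1 := by
        rw [AddMonoidAlgebra.single_mul_single, neg_add_cancel, Units.inv_mul,
          ← AddMonoidAlgebra.one_def]
      rw [h2, hx]
      linear_combination h3
    · apply hnu
      refine low_unit hMin hfull.2.1 hfull.1 hpos (H := H) (e := (e : RO ℤ)) ?_
      rw [← hx, hH]
      ring
  · obtain ⟨hu0, ⟨b', hb', -, e', he'⟩, -⟩ :=
      hSm ℤ P L phi E S i0 eta h c' n' G' fd j hbig
    obtain ⟨u, hu⟩ := haj.symm.trans hai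
    obtain ⟨a, v, hv, hua⟩ := (hU ℤ _ (u : AO ℤ (Ker (co phi i0)))).1 u.isUnit
    have h1 := hZ.big i
    rw [← hu, mul_comm, hua, he'] at h1
    exact M_bin hMm hb' hv hu0 e'⁻¹.isUnit h1

/-- (UFG_AV) -/
theorem uavg (hDcm : DcmS) (hSub : SubzS) (hPr : PrimS) (hG0 : G0S) (hRk : RkS) (hE2 : E2S)
    (hFD : FDS) (hSm : SmallS) (hU : UnitAS) (hMin : MinS) (hMm : MmulS) (hGen : GenS) :
    UavgS := by
  intro P L _ _ _ _ _ phi E S i0 h eta c n0 G N p0 p1 u0 m hD hRay hZ hN3 hV hrk he0 he1 hp0 hp1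
    hc hm
  classical
  have hm0 : 0 < m := hm
  have h2 : 2 ≤ Module.finrank ℤ L := by omega
  obtain ⟨k0, s0, hu0⟩ := unit_mz u0
  obtain ⟨ke, se, hse⟩ := unit_mz eta
  obtain ⟨kc, sc, hsc⟩ := unit_mz hc.unit
  have hsc' : c = mz kc (sc : ℤ) := hsc
  have cf := cfs hu0 hse he0 he1
  have hN1 : (N : ℤ) - 1 ≠ 0 := by omega
  -- the closed element
  set V := cl (co phi i0) S h eta E with hVdef
  have hV0 : (u0 : RO ℤ) * (E.coeff 0 + (eta : RO ℤ) * E.coeff S) = toLaurent (p0 - p1) := by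
    rw [mul_add, he0, he1, map_sub]
    ring
  have hV0c : (toLaurent (p0 - p1)).coeff 0 = (N : ℤ) - 1 := by
    have h1 := Dcm.toLaurent_coeff_nonneg (p0 - p1) 0
    rw [Nat.cast_zero] at h1
    rw [h1, coeff_sub, hp0, hp1]
  have hV0ne : E.coeff 0 + (eta : RO ℤ) * E.coeff S ≠ 0 := by
    intro h0
    rw [h0, mul_zero] at hV0
    rw [← hV0] at hV0c
    exact hN1 hV0c.symm
  have hCC : CC phi E S i0 eta := ⟨hD, h2, hRay, h, hV0ne⟩
  have hV00 : V.coeff 0 = E.coeff 0 + (eta : RO ℤ) * E.coeff S :=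
    (hG0 ℤ P L phi E S i0 eta h hCC).2.2.1
  obtain ⟨qG', lG', nG, hqG', hZf⟩ := hZ.zf
  have hVz' : ∀ a k, (V.coeff a).coeff k ≠ 0 → (qG' : ℤ) * k = lG' a + qG' * (nG + kc) := by
    intro a k hk
    rw [hVdef, hZ.eq, H78.cstm, hsc', mzs_coeff] at hk
    have h3 := hZf a (k - kc) (right_ne_zero_of_mul hk)
    linarith
  obtain ⟨qG, lG, hqG, hLvr, hVz⟩ := gex hRk hGen hse (fun a ha => hD.bin a ha i0) hD.spn
    (Module.finrank ℤ (Ker (co phi i0))) qG' lG' hqG' (Nat.le_add_left _ _) hVz'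
  have hq0 : (qG : ℤ) ≠ 0 := by exact_mod_cast hqG.ne'
  have hV0j : ∀ j : ℤ, (toLaurent (p0 - p1)).coeff j = s0 * (V.coeff 0).coeff (j - k0) := by
    intro j
    rw [hV00, ← hV0, hu0, mzs_coeff]
  have hnV : nG + kc = -k0 := by
    have h3 := hVz 0 (0 - k0) (by
      intro h4
      have h5 := hV0j 0
      rw [h4, mul_zero, hV0c] at h5
      exact hN1 h5)
    rw [map_zero, zero_add] at h3
    have h4 := mul_left_cancel₀ hq0 h3
    omega
  rw [hnV] at hVz hLvr
  have hpj : ∀ j : ℕ, j ≠ 0 → p0.coeff j = p1.coeff j := by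
    intro j hj
    have h3 : (toLaurent (p0 - p1)).coeff (j : ℤ) = 0 := by
      by_contra h4
      rw [hV0j] at h4
      have h5 := hVz 0 _ (right_ne_zero_of_mul h4)
      rw [map_zero, zero_add] at h5
      have h6 := mul_left_cancel₀ hq0 h5
      omega
    rw [Dcm.toLaurent_coeff_nonneg, coeff_sub] at h3
    omega
  have hp01 : p0 = C ((N : ℤ) - 1) + p1 := by
    ext j
    rw [coeff_add, coeff_C]
    by_cases hj : j = 0
    · rw [if_pos hj, hj, hp0, hp1]
      ring
    · rw [if_neg hj, zero_add, hpj j hj]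
  -- the grading
  have : NeZero (qG * m) := ⟨(Nat.mul_pos hqG hm0).ne'⟩
  let l' : L →+ ℤ := (AddMonoidHom.mulLeft ((qG : ℤ) * ke)).comp (co phi i0) -
    lG.comp (prj (co phi i0) S h)
  have hl' : ∀ a, l' a = (qG : ℤ) * ke * co phi i0 a - lG (prj (co phi i0) S h a) := fun a => rfl
  let l : L →+ ZMod (qG * m) := (Int.castAddHom (ZMod (qG * m))).comp l'
  have hl : ∀ a, l a = ((l' a : ℤ) : ZMod (qG * m)) := fun a => rfl
  set g' : ZMod (qG * m) := ((qG : ℤ) : ZMod (qG * m)) with hg'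
  set r : ZMod (qG * m) := (((qG : ℤ) * (-k0) : ℤ) : ZMod (qG * m)) with hr
  have hsm : ∀ k : ℤ, k • g' = ((k * qG : ℤ) : ZMod (qG * m)) := by
    intro k
    rw [hg', zsmul_eq_mul, Int.cast_mul]
  have hcast : ∀ x y : ℤ, ((x : ℤ) : ZMod (qG * m)) = ((y : ℤ) : ZMod (qG * m)) ↔
      ((qG : ℤ) * m) ∣ y - x := by
    intro x y
    rw [ZMod.intCast_eq_intCast_iff_dvd_sub]
    push_cast
    rfl
  have hcond : ∀ (k : ℤ) (a : L), k • g' = r - l a ↔ ((qG : ℤ) * m) ∣ qG * (k + k0) + l' a := by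
    intro k a
    rw [hsm, hr, hl, ← Int.cast_sub, hcast, ← dvd_neg]
    congr! 1
    ring
  have hl'S : l' S = (qG : ℤ) * ke := by
    have h3 : prj (co phi i0) S h S = 0 := by
      apply Subtype.ext
      rw [prj_coe, h, one_smul, sub_self]
      rfl
    rw [hl', h3, map_zero, h]
    ring
  have hl'K : ∀ b : Ker (co phi i0), l' (b : L) = -lG b := by
    intro b
    have h4 : co phi i0 (b : L) = 0 := b.2
    have h5 : prj (co phi i0) S h (b : L) = b := by
      apply Subtype.ext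
      rw [prj_coe, h4, zero_smul, sub_zero]
    rw [hl', h4, h5]
    ring
  have hlS : ke • g' = l S := by
    rw [hsm, hl, hl'S]
    congr 1
    ring
  have hHm : Hmg g' (l.comp (incl (Ker (co phi i0)))) r
      (cst (1 : RO ℤ) * cl (co phi i0) S h eta E) := by
    intro b k hk
    rw [H78.cst_one, one_mul] at hk
    have h3 := hVz b k hk
    change k • g' + l (b : L) = r
    rw [← eq_sub_iff_add_eq, hcond, hl'K]
    refine ⟨0, ?_⟩
    linarith
  obtain ⟨c1, D', hc1, hE, hEcl, hsupp, hst, hun, hirr, hrk1, hrk2, hDD, hfr⟩ :=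
    hDcm ℤ P L phi E S i0 eta h (ZMod (qG * m)) g' l r 1 hCC one_ne_zero
      (by rw [map_one]) (by
      intro k hk
      rw [hse] at hk
      unfold mz at hk
      rw [AddMonoidAlgebra.coeff_single, Finsupp.single_apply] at hk
      by_cases h3 : ke = k
      · rw [← h3]
        exact hlS
      · rw [if_neg h3] at hk
        exact absurd rfl hk) hHm
  rw [H78.cst_one, one_mul] at hE hEcl
  rw [← hVdef] at hEcl hrk2
  have hc1u : IsUnit c1 := by
    have h1 : cst c1 ∣ cst c * ∏ i, G i := by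
      rw [← hZ.eq, ← hVdef, hEcl]
      exact Dvd.intro _ rfl
    exact isUnit_of_dvd_unit (Dcm.gauss (Dcm.prim_prod hPr G hZ.irr hZ.wd) c1 c h1) hc
  obtain ⟨k1, s1, hk1⟩ := unit_mz hc1u.unit
  have hk1' : c1 = mz k1 (s1 : ℤ) := hk1
  have hDc : ∀ (a : L) (k : ℤ), (D'.coeff a).coeff k =
      s1 * (if ((qG : ℤ) * m) ∣ qG * (k + k1 + k0) + l' a then (E.coeff a).coeff (k + k1)
        else 0) := by
    intro a k
    have h3 : (dcm g' l r E).coeff a = c1 * D'.coeff a := by rw [hE, H78.cstm]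
    have h4 := congrArg (fun F : RO ℤ => F.coeff (k + k1)) h3
    change ((dcm g' l r E).coeff a).coeff (k + k1) = (c1 * D'.coeff a).coeff (k + k1) at h4
    rw [dcm_coeff, pm_coeff, hk1', mzs_coeff, add_sub_cancel_right] at h4
    have h5 : (s1 : ℤ) * (s1 * (D'.coeff a).coeff k) = (D'.coeff a).coeff k := by
      rw [← mul_assoc, sq_unit, one_mul]
    rw [← h5, ← h4]
    congr 1
    by_cases h6 : (k + k1) • g' = r - l a
    · rw [if_pos h6, if_pos ((hcond _ _).1 h6)]
    · rw [if_neg h6, if_neg (fun h7 => h6 ((hcond _ _).2 h7))]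
  -- the lattice of `D'`
  set K : Submodule ℤ L := Submodule.span ℤ (supp D') with hK
  have hsK : ∀ a ∈ supp D', a ∈ K := fun a ha => Submodule.subset_span ha
  have hex : ∀ (a : L) (k : ℤ), (D'.coeff a).coeff k ≠ 0 →
      ((qG : ℤ) * m) ∣ qG * (k + k1 + k0) + l' a ∧ (E.coeff a).coeff (k + k1) ≠ 0 := by
    intro a k hk
    rw [hDc] at hk
    by_cases h6 : ((qG : ℤ) * m) ∣ qG * (k + k1 + k0) + l' a
    · rw [if_pos h6] at hk
      exact ⟨h6, right_ne_zero_of_mul hk⟩
    · rw [if_neg h6, mul_zero] at hk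
      exact absurd rfl hk
  have hdv : ∀ a ∈ K, (qG : ℤ) ∣ l' a := by
    intro a ha
    rw [hK] at ha
    induction ha using Submodule.span_induction with
    | mem a ha =>
      obtain ⟨k, hk⟩ : ∃ k, (D'.coeff a).coeff k ≠ 0 := by
        by_contra hcon
        push Not at hcon
        apply ha
        apply AddMonoidAlgebra.ext
        exact Finsupp.ext hcon
      have h3 := (Dvd.intro _ rfl : (qG : ℤ) ∣ qG * m).trans (hex a k hk).1
      exact (dvd_add_right (Dvd.intro _ rfl)).1 h3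
    | zero => rw [map_zero]; exact dvd_zero _
    | add x y _ _ hx hy => rw [map_add]; exact dvd_add hx hy
    | smul n x _ hx => rw [map_zsmul, smul_eq_mul]; exact hx.mul_left _
  let gam : K →+ ℤ := AddMonoidHom.mk' (fun a => -(l' (a : L) / qG)) (by
    intro a b
    change -(l' ((a : L) + (b : L)) / qG) = -(l' (a : L) / qG) + -(l' (b : L) / qG)
    rw [map_add, Int.add_ediv_of_dvd_left (hdv _ a.2)]
    ring)
  have hgam : ∀ a : K, (qG : ℤ) * gam a = -(l' (a : L)) := by
    intro a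
    change (qG : ℤ) * -(l' (a : L) / qG) = _
    rw [mul_neg, Int.mul_ediv_cancel' (hdv _ a.2)]
  have hgS : ∀ a : K, l' (a : L) = -((qG : ℤ) * gam a) := fun a => by rw [hgam, neg_neg]
  have hcd : ∀ (a : K) (k : ℤ), (((qG : ℤ) * m) ∣ qG * (k + k1 + k0) + l' (a : L)) ↔
      ∃ j : ℤ, k = gam a + (-k0 - k1) + m * j := by
    intro a k
    rw [hgS, show (qG : ℤ) * (k + k1 + k0) + -(qG * gam a) = qG * (k + k1 + k0 - gam a) by ring,
      mul_dvd_mul_iff_left hq0]
    constructor
    · rintro ⟨j, hj⟩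
      exact ⟨j, by linarith⟩
    · rintro ⟨j, hj⟩
      exact ⟨j, by linarith⟩
  have hSD : S ∈ supp D' := by
    intro h3
    have h4 : D'.coeff S = 0 := h3
    have h5 := hDc S (0 - k0 - ke - k1)
    rw [h4] at h5
    change (0 : ℤ) = _ at h5
    rw [if_pos (by rw [hl'S]; exact ⟨0, by ring⟩), sub_add_cancel, cf.c1] at h5
    have h6 := Dcm.toLaurent_coeff_nonneg p1 0
    rw [Nat.cast_zero, hp1] at h6
    rw [h6] at h5
    have h7 : (s1 : ℤ) * (-(s0 * se) * 1) ≠ 0 :=
      mul_ne_zero s1.ne_zero (mul_ne_zero (neg_ne_zero.2 (mul_ne_zero s0.ne_zero se.ne_zero))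
        one_ne_zero)
    exact h7 h5.symm
  let S' : K := ⟨S, hsK S hSD⟩
  have hS'c : (S' : L) = S := rfl
  have h' : co (phi.comp (incl K)) i0 S' = 1 := h
  have hkk : ∀ a : K, co (phi.comp (incl K)) i0 a = co phi i0 (a : L) := fun a => rfl
  have hgS' : gam S' = -ke := by
    have h3 := hgam S'
    rw [hS'c, hl'S] at h3
    apply mul_left_cancel₀ hq0
    linarith
  obtain ⟨D'', hDD'', hco, hcl⟩ := hSub P K (phi.comp (incl K)) (res K D') gam (-k0 - k1) m hDD hm
    (by
      intro a k hk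
      rw [res_coeff] at hk
      exact (hcd a k).1 (hex _ _ hk).1)
  -- the closing of `D''`
  have heta : H40.uT se (-gam S') = eta := by
    apply Units.ext
    rw [uT_mz, hgS', neg_neg, hse]
  set V' := cl (co (phi.comp (incl K)) i0) S' h' (H40.uT se 0) D'' with hV'
  set W := cl (co (phi.comp (incl K)) i0) S' h' eta (res K D') with hW
  have hclV : ∀ (a : Ker (co (phi.comp (incl K)) i0)) (j : ℤ), (V'.coeff a).coeff j =
      (W.coeff a).coeff (gam (a : K) + (-k0 - k1) + m * j) := by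
    intro a j
    have h3 := hcl (co (phi.comp (incl K)) i0) S' h' se a j
    rw [heta] at h3
    exact h3
  have hWV : ∀ (a : Ker (co (phi.comp (incl K)) i0)) (j : ℤ),
      (V.coeff (iot (co phi i0) K _ hkk a)).coeff j = s1 * (W.coeff a).coeff (j - k1) := by
    intro a j
    rw [hEcl, H78.cstm, hk1', mzs_coeff, cl_res hkk h hS'c h' eta hsK]
  have hWexp : ∀ (a : Ker (co (phi.comp (incl K)) i0)) (j : ℤ), (W.coeff a).coeff j ≠ 0 →
      j = gam (a : K) + (-k0 - k1) := by
    intro a j hj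
    have h3 := hVz (iot (co phi i0) K _ hkk a) (j + k1) (by
      rw [hWV, add_sub_cancel_right]
      exact mul_ne_zero s1.ne_zero hj)
    have h4 := hl'K (iot (co phi i0) K _ hkk a)
    rw [iot_coe, hgS] at h4
    apply mul_left_cancel₀ hq0
    linarith
  have hcst : ∀ (a : Ker (co (phi.comp (incl K)) i0)) (k : ℤ), (V'.coeff a).coeff k ≠ 0 →
      k = 0 := by
    intro a k hk
    rw [hclV] at hk
    have h3 := hWexp a _ hk
    have h4 : (m : ℤ) * k = 0 := by linarith
    exact (mul_eq_zero.1 h4).resolve_left (by exact_mod_cast hm0.ne')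
  have hLvD : Lvg E (co phi i0) S h ke (-k0) qG lG ⊆ supp D' := by
    rintro a ⟨j, hj, haj⟩ h3
    have h4 : D'.coeff a = 0 := h3
    have h5 := hDc a (j - k1)
    rw [h4] at h5
    change (0 : ℤ) = _ at h5
    rw [if_pos (by rw [hl']; exact ⟨0, by linear_combination haj⟩), sub_add_cancel] at h5
    exact mul_ne_zero s1.ne_zero hj h5.symm
  have hfrK : Module.finrank ℤ K = Module.finrank ℤ L := by
    have h3 := rk_prj hRk (co phi i0) S h hSD
    have h4 := (hRk (Ker (co phi i0)) (Ker (co phi i0))).2.1 _ _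
      (Set.image_mono (f := prj (co phi i0) S h) hLvD)
    have h5 := (hRk L L).2.2.1 (supp D')
    have h6 := (hRk L L).1 (co phi i0) (by
      intro h8
      rw [h8] at h
      exact zero_ne_one h)
    have h7 : rk (supp D') = Module.finrank ℤ K := rfl
    omega
  have hinv : ∀ s : ℤˣ, ((s : ℤ) : ℤ) * s = 1 := sq_unit
  refine ⟨K, D'', S', h', H40.uT se 0, H40.uT (s1 * s0) 0, contract m p0, contract m p1, ?_, ?_, ?_⟩
  · refine
      { dd := hDD''
        ray := ?_
        N3 := hN3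
        rkL := by rw [hfrK]; exact hrk
        cst := ⟨0, hcst⟩
        ns := ?_
        e0 := ?_
        e1 := ?_
        p00 := by rw [coeff_contract hm0.ne', zero_mul, hp0]
        p10 := by rw [coeff_contract hm0.ne', zero_mul, hp1]
        zf := ?_ }
    · obtain ⟨-, hS0, lam, hlS0, hlam⟩ := hRay
      have hsub : ∀ a ∈ supp D'', (a : L) ∈ supp E := by
        intro a ha
        obtain ⟨j, hj⟩ : ∃ j, (D''.coeff a).coeff j ≠ 0 := by
          by_contra hcon
          push Not at hcon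
          apply ha
          apply AddMonoidAlgebra.ext
          exact Finsupp.ext hcon
        rw [hco, res_coeff] at hj
        intro h3
        have h4 := (hex _ _ hj).2
        have h5 : E.coeff (a : L) = 0 := h3
        rw [h5] at h4
        exact h4 rfl
      refine ⟨?_, ?_, lam.comp (incl K), hlS0, ?_⟩
      · intro h3
        have h4 : D''.coeff S' = 0 := h3
        have h5 := hco S' 0
        rw [h4, res_coeff, hS'c, hDc, hgS', mul_zero, add_zero,
          if_pos (by rw [hl'S]; exact ⟨0, by ring⟩),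
          show -ke + (-k0 - k1) + k1 = 0 - k0 - ke by ring, cf.c1] at h5
        have h6 := Dcm.toLaurent_coeff_nonneg p1 0
        rw [Nat.cast_zero, hp1] at h6
        rw [h6] at h5
        have h7 : (s1 : ℤ) * (-(s0 * se) * 1) ≠ 0 :=
          mul_ne_zero s1.ne_zero (mul_ne_zero (neg_ne_zero.2 (mul_ne_zero s0.ne_zero se.ne_zero))
            one_ne_zero)
        exact h7 h5.symm
      · intro h3
        apply hS0
        exact congrArg (fun x : K => (x : L)) h3
      · intro a ha ha0 haS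
        exact hlam _ (hsub a ha) (fun h3 => ha0 (Subtype.ext h3)) (fun h3 => haS (Subtype.ext h3))
    · intro b e hb hd
      obtain ⟨e', he'⟩ := ns_trans hkk h hS'c h' eta hsK gam (-k0 - k1) V' hcst (by
        intro a
        rw [hclV, mul_zero, add_zero]) hWexp b e hd
      refine ns_Lg hFD hSm hG0 hU hMin hPr hMm hCC hZ hc (iot (co phi i0) K _ hkk b) e' ?_ ?_
      · intro h3
        apply hb
        apply iot_inj (co phi i0) K _ hkk
        rw [h3, map_zero]
      · rw [← hVdef, hEcl]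
        exact he'.mul_left _
    · apply AddMonoidAlgebra.ext
      apply Finsupp.ext
      intro j
      rw [uT_mz, mzs_coeff, sub_zero, hco, res_coeff, hDc, toL_contract hm0]
      have h3 : ((0 : K) : L) = 0 := rfl
      rw [h3, map_zero gam, if_pos (by rw [map_zero l']; exact ⟨j, by ring⟩),
        show 0 + (-k0 - k1) + (m : ℤ) * j + k1 = m * j - k0 by ring, cf.c0]
      push_cast
      have h4 := sq_unit s0
      have h5 := sq_unit s1
      linear_combination ((s1 : ℤ) * s1 * (toLaurent p0).coeff (m * j)) * h4 +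
        (toLaurent p0).coeff (m * j) * h5
    · apply AddMonoidAlgebra.ext
      apply Finsupp.ext
      intro j
      change (((H40.uT (s1 * s0) 0 : (RO ℤ)ˣ) : RO ℤ) *
        (((H40.uT se 0 : (RO ℤ)ˣ) : RO ℤ) * D''.coeff S')).coeff j =
          -((toLaurent (contract m p1)).coeff j)
      rw [uT_mz, uT_mz, mzs_coeff, mzs_coeff, sub_zero, sub_zero, hco, res_coeff, hDc,
        toL_contract hm0, hS'c, hgS', if_pos (by rw [hl'S]; exact ⟨j, by ring⟩),
        show -ke + (-k0 - k1) + (m : ℤ) * j + k1 = m * j - k0 - ke by ring, cf.c1]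
      push_cast
      have h4 := sq_unit s0
      have h5 := sq_unit s1
      have h6 := sq_unit se
      linear_combination (-(s1 : ℤ) * s1 * s0 * s0 * (toLaurent p1).coeff (m * j)) * h6 -
        ((s1 : ℤ) * s1 * (toLaurent p1).coeff (m * j)) * h4 -
        (toLaurent p1).coeff (m * j) * h5
    · refine contract_ne (p1 := p1) (c := (N : ℝ) - 1) hm (by
        have : (3 : ℝ) ≤ N := by exact_mod_cast hN3
        linarith) ?_ ?_
      · intro z
        rw [hp01, map_add, aeval_C]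
        push_cast
        simp
      · intro z hz
        set zc : Circle := ⟨z, mem_sphere_zero_iff_norm.2 hz⟩ with hzc
        have h3 := ((hE2 ℤ P L phi E hD h2).2.2.2.2.2 S hRay).1 zc
        have h4 : evR zc (toLaurent p0 : RO ℤ) = evR zc (u0 : RO ℤ) * evR zc (E.coeff 0) := by
          rw [← he0, map_mul]
        have h5 : evR zc (toLaurent p1 : RO ℤ) =
            -(evR zc (u0 : RO ℤ) * (evR zc (eta : RO ℤ) * evR zc (E.coeff S))) := by
          rw [← map_mul, ← map_mul, he1, map_neg, neg_neg]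
        rw [evR_pol] at h4 h5
        change aeval z p0 = _ at h4
        change aeval z p1 = _ at h5
        rw [h4, h5, norm_neg, norm_mul, norm_mul, norm_mul,
          H36.norm_evR_unit zc _ u0.isUnit, H36.norm_evR_unit zc _ eta.isUnit, one_mul, one_mul,
          one_mul]
        exact h3
  · intro j
    rw [coeff_contract hm0.ne', mul_comm]
  · intro j
    rw [coeff_contract hm0.ne', mul_comm]

end

end Pool.Agent.B5.Uf
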