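import Pool.Agent.Lib.MP_b5021c_nt.UF.H83.Gen
import Pool.Agent.Lib.MP_b5021c_nt.UF.H74.Ccn

/-!
# MP_b5021c_nt, row UFG_C2 (helper83, after UF/H74/Ccn.lean of helper74; the proof is the same): the
content is `1 - ep z^d`, arbitrary drop
-/

namespace Pool.Agent.B5.UfgC

open scoped LaurentPolynomial ComplexConjugate
open Polynomial Pool.Agent.B5.UF.H74
open Pool.Agent.B5.Dcm (mz)

/-- Row UF_C2, from the statement at simple zeros. -/
theorem ccng (hC : CresqS) (hE2 : E2S) (hG0 : G0S) (hPr : PrimS) (hA5 : A5S) (hA7 : A7S) :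
    CcngS := by
  classical
  intro P L _ _ _ _ _ phi E S i0 h eta c n0 G N p0 p1 u0 hD hRay hZ hN hV hrk h0 h1 hp00 hp10 hcu
  have h2 : 2 ≤ Module.finrank ℤ L := by lia
  have hN3 : (3 : ℤ) ≤ N := by exact_mod_cast hN
  obtain ⟨hz0, -, -, -, -, hr⟩ := hE2 ℤ P L phi E hD h2
  obtain ⟨hle, zz, hzz⟩ := hr S hRay
  have hV0 : (u0 : RO ℤ) * (E.coeff 0 + (eta : RO ℤ) * E.coeff S) = toLaurent (p0 - p1) := by
    rw [mul_add, h0, h1, map_sub]
    ring
  have hpp : (p0 - p1).coeff 0 = (N : ℤ) - 1 := by rw [coeff_sub, hp00, hp10]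
  have hne0 : E.coeff 0 + (eta : RO ℤ) * E.coeff S ≠ 0 := by
    intro h3
    rw [h3, mul_zero] at hV0
    have h4 : p0 - p1 = 0 := Dcm.toLaurent_inj' (by rw [← hV0, map_zero])
    rw [h4, coeff_zero] at hpp
    lia
  have hCC : CC phi E S i0 eta := ⟨hD, h2, hRay, h, hne0⟩
  obtain ⟨-, -, hcl0, -⟩ := hG0 ℤ P L phi E S i0 eta h hCC
  obtain ⟨Gp, hGp⟩ : ∃ Gp, Gp = ∏ i, G i := ⟨_, rfl⟩
  have hcl := hZ.eq
  rw [← hGp] at hcl
  obtain ⟨qG, lG, nG, hqG, hZf⟩ := hZ.zf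
  rw [← hGp] at hZf
  obtain ⟨-, n1, q1, hc, hq1, hq1z⟩ := hZ.cc
  have hs1 : IsUnit (q1.coeff 0) := by
    rw [emb_eq] at hq1
    have h3 : ‖((q1.coeff 0 : ℤ) : ℂ)‖ = 1 := hq1
    rw [Complex.norm_intCast] at h3
    rw [Int.isUnit_iff]
    have h4 : |q1.coeff 0| = 1 := by exact_mod_cast h3
    exact (abs_eq one_pos.le).mp h4
  obtain ⟨sg, hsg⟩ : ∃ sg, sg = q1.coeff 0 := ⟨_, rfl⟩
  rw [← hsg] at hs1
  have hsg2 : sg * sg = 1 := by
    rcases Int.isUnit_iff.1 hs1 with h3 | h3 <;> rw [h3] <;> norm_num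
  have hsg0 : sg ≠ 0 := hs1.ne_zero
  obtain ⟨c1, hc1⟩ : ∃ c1 : ℤ[X], c1 = C sg * q1 := ⟨_, rfl⟩
  have hc10 : c1.coeff 0 = 1 := by rw [hc1, coeff_C_mul, ← hsg, hsg2]
  have hq1c : q1 = C sg * c1 := by
    rw [hc1, ← mul_assoc, ← C_mul, hsg2, C_1, one_mul]
  have hcc : c = mz n1 sg * toLaurent c1 := by
    rw [hc, hq1c, map_mul, mz_eq]
    ring
  have huw : IsUnit (mz n1 sg : RO ℤ) := by
    refine IsUnit.of_mul_eq_one (mz (-n1) sg) ?_
    rw [Dcm.mz_mul, add_neg_cancel, hsg2]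
    rfl
  obtain ⟨ku, su, hsu⟩ := Dcm.unit_mz u0
  have hsu0 : (su : ℤ) ≠ 0 := su.ne_zero
  -- the constant coefficient of `Gp`
  obtain ⟨g0, hg0⟩ : ∃ g0, Gp.coeff 0 = mz nG g0 := by
    obtain ⟨k, g, hg⟩ := gcdz hqG hZf 0
    by_cases hg' : g = 0
    · refine ⟨0, ?_⟩
      rw [hg, hg']
      unfold mz
      rw [AddMonoidAlgebra.single_zero, AddMonoidAlgebra.single_zero]
    · refine ⟨g, ?_⟩
      have h3 := hZf 0 k (by
        rw [hg]
        unfold mz
        rw [AddMonoidAlgebra.coeff_single, Finsupp.single_eq_same]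
        exact hg')
      rw [map_zero, zero_add] at h3
      have h4 : (qG : ℤ) ≠ 0 := by exact_mod_cast hqG.ne'
      rw [hg, mul_left_cancel₀ h4 h3]
  have hcl0' : c * Gp.coeff 0 = E.coeff 0 + (eta : RO ℤ) * E.coeff S := by
    rw [← hcl0, hcl, H14.coeff_cst_mul]
  have hid : (mz (ku + n1 + nG) ((su : ℤ) * sg * g0) * toLaurent c1 : RO ℤ) =
      toLaurent (p0 - p1) := by
    rw [← hV0, ← hcl0', hcc, hg0, hsu]
    have h3 : (mz (ku + n1 + nG) ((su : ℤ) * sg * g0) : RO ℤ) = mz ku (su : ℤ) * mz n1 sg * mz nG g0 := by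
      rw [Dcm.mz_mul, Dcm.mz_mul]
    rw [h3]
    ring
  have hs0 : (su : ℤ) * sg * g0 ≠ 0 := by
    intro h3
    rw [h3] at hid
    have h4 : (mz (ku + n1 + nG) 0 : RO ℤ) = 0 := by
      unfold mz
      rw [AddMonoidAlgebra.single_zero]
    rw [h4, zero_mul] at hid
    have h5 : p0 - p1 = 0 := Dcm.toLaurent_inj' (by rw [← hid, map_zero])
    rw [h5, coeff_zero] at hpp
    lia
  obtain ⟨he, hF⟩ := lau_cmp hid hs0 (by rw [hc10]; exact one_ne_zero) (by rw [hpp]; lia)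
  have hs : (su : ℤ) * sg * g0 = (N : ℤ) - 1 := by
    rw [← hpp, hF, coeff_C_mul, hc10, mul_one]
  rw [hs] at hF
  obtain ⟨G', hG'⟩ : ∃ G', G' = cst (mz n1 sg) * Gp := ⟨_, rfl⟩
  have hcl' : cl (co phi i0) S h eta E = cst (toLaurent c1) * G' := by
    rw [hcl, hG', hcc, H14.cst_mul]
    ring
  have hZf' : ∀ (a : Ker (co phi i0)) (k : ℤ), (G'.coeff a).coeff k ≠ 0 →
      (qG : ℤ) * k = lG a + (qG : ℤ) * (nG + n1) := by
    intro a k hk
    rw [hG', H14.coeff_cst_mul, mz_coeff] at hk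
    have h3 := hZf a (k - n1) (right_ne_zero_of_mul hk)
    linear_combination h3
  have hG'0 : (u0 : RO ℤ) * G'.coeff 0 = toLaurent (C ((N : ℤ) - 1)) := by
    rw [hG', H14.coeff_cst_mul, hg0, hsu, ← mul_assoc, Dcm.mz_mul, Dcm.mz_mul, he, hs, mz_zero]
  have hPrim : Prim G' := by
    rw [hG']
    apply cst_dvd_prim huw
    rw [hGp]
    exact prim_prod' hPr G hZ.irr hZ.wd
  -- the multiplier
  have hNc : ((N : ℂ) - 1) ≠ 0 := by
    intro h3
    have h4 := congrArg Complex.re h3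
    simp at h4
    have h5 : (3 : ℝ) ≤ N := by exact_mod_cast hN
    linarith
  have hG'0z : ∀ z : Circle, evR z (u0 : RO ℤ) * evR z (G'.coeff 0) = (N : ℂ) - 1 := by
    intro z
    rw [← map_mul, hG'0, evR_lau, aeval_C]
    simp
  -- one variable
  have hu0n : ∀ z : Circle, ‖evR z (u0 : RO ℤ)‖ = 1 := fun z => H36.norm_evR_unit z _ u0.isUnit
  have hetan : ∀ z : Circle, ‖evR z (eta : RO ℤ)‖ = 1 := fun z => H36.norm_evR_unit z _ eta.isUnit
  have hp0n : ∀ z : Circle, ‖aeval (z : ℂ) p0‖ = ‖evR z (E.coeff 0)‖ := by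
    intro z
    rw [← evR_lau, ← h0, map_mul, norm_mul, hu0n, one_mul]
  have hp1n : ∀ z : Circle, ‖aeval (z : ℂ) p1‖ = ‖evR z (E.coeff S)‖ := by
    intro z
    rw [← norm_neg, ← evR_lau, ← map_neg, ← h1, map_mul, map_mul, norm_mul, norm_mul, hu0n, hetan,
      one_mul, one_mul]
  have hcir : ∀ z : ℂ, ‖z‖ = 1 → ∃ w : Circle, (w : ℂ) = z := fun z hz =>
    ⟨⟨z, mem_sphere_zero_iff_norm.mpr hz⟩, rfl⟩
  have hp0z : ∀ z : ℂ, ‖z‖ ≤ 1 → aeval z p0 ≠ 0 := by
    intro z hz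
    rcases lt_or_eq_of_le hz with h3 | h3
    · obtain ⟨-, n2, q2, hq2, hq20, hq2z⟩ := hV
      have hq20' : q2.coeff 0 ≠ 0 := by
        intro h4
        rw [h4, map_zero, norm_zero] at hq20
        have h5 : (3 : ℝ) ≤ N := by exact_mod_cast hN
        linarith
      have h4 : (mz (ku + n2) (su : ℤ) * toLaurent q2 : RO ℤ) = toLaurent p0 := by
        rw [← h0, hsu, hq2, mz_eq, mz_eq, LaurentPolynomial.T_add]
        ring
      obtain ⟨-, h5⟩ := lau_cmp h4 hsu0 hq20' (by rw [hp00]; lia)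
      rw [h5, map_mul, aeval_C]
      refine mul_ne_zero ?_ ?_
      · exact fun h6 => hsu0 (Int.cast_injective (α := ℂ) (h6.trans Int.cast_zero.symm))
      · rw [← av_map, ← emb_eq]
        exact hq2z z h3
    · obtain ⟨w, rfl⟩ := hcir z h3
      intro h4
      have h5 := hp0n w
      rw [h4, norm_zero] at h5
      exact hz0 w (norm_eq_zero.mp h5.symm)
  have hc1z : ∀ z : ℂ, ‖z‖ < 1 → aeval z c1 ≠ 0 := by
    intro z hz
    rw [hc1, map_mul, aeval_C]
    refine mul_ne_zero ?_ ?_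
    · exact fun h6 => hsg0 (Int.cast_injective (α := ℂ) (h6.trans Int.cast_zero.symm))
    · rw [← av_map, ← emb_eq]
      exact hq1z z hz
  have hle' : ∀ z : ℂ, ‖z‖ = 1 → ‖aeval z p1‖ ≤ ‖aeval z p0‖ := by
    intro z hz
    obtain ⟨w, rfl⟩ := hcir z hz
    rw [hp0n, hp1n]
    exact hle w
  have hka : ∀ z : Circle, evR z (toLaurent c1 : RO ℤ) = 0 → ∃ ka : ℂ,
      (∀ a : Ker (co phi i0), evR z (E.coeff (a : L)) = ka * evR z (G'.coeff a)) ∧
      aeval (z : ℂ) p0 = ka * (N - 1) := by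
    intro z hz
    rw [evR_lau] at hz
    obtain ⟨ka, hka⟩ := hC P L phi E S i0 h eta c1 G' z hCC hcl' hz
      (simple_ov hA5 hN hF hc1z hp0z hle' (Circle.norm_coe z) hz) (by
      intro h3
      have h4 := hG'0z z
      rw [h3, mul_zero] at h4
      exact hNc h4.symm)
    refine ⟨ka, hka, ?_⟩
    have h3 := hka 0
    have h4 : ((0 : Ker (co phi i0)) : L) = 0 := rfl
    rw [h4] at h3
    rw [← evR_lau, ← h0, map_mul, h3, ← hG'0z z]
    ring
  obtain ⟨κ, hκ⟩ := kap_ex (E := E) (G := G') (fun a : Ker (co phi i0) => (a : L)) hPrim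
    (gcdz hqG hZf') (fun z => evR z (toLaurent c1 : RO ℤ) = 0)
  obtain ⟨m, kap, hkap⟩ := LaurentPolynomial.exists_T_pow κ
  have hc1u : ¬ IsUnit c1 := by
    intro h3
    apply hcu
    rw [hcc]
    exact huw.mul (h3.map toLaurent)
  obtain ⟨d, ep, hd, hep, hce, hfin⟩ := ov hA5 hA7 (kap := kap) (m := m) hN hF hc10 hp00 hc1z hp0z
    hle'
    (by
      refine ⟨(zz : ℂ), Circle.norm_coe zz, ?_⟩
      rw [hp0n, hp1n]
      exact hzz)
    (by
      intro z hz hcz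
      obtain ⟨w, rfl⟩ := hcir z hz
      have h3 : evR w (toLaurent c1 : RO ℤ) = 0 := by rw [evR_lau, hcz]
      obtain ⟨ka, hka1, hka2⟩ := hka w h3
      have h4 := hκ w h3 ka hka1
      have h5 := congrArg (evR w) hkap
      rw [map_mul, evR_lau, h4, H07.evR_T, zpow_natCast] at h5
      rw [h5, hka2]
      ring)
    hc1u
  refine ⟨d, ep, G', ?_⟩
  have hdiv : cst (toLaurent c1) ∣ res (Ker (co phi i0)) E - G' := by
    rw [H14.cst_dvd_iff]
    intro a
    obtain ⟨F, hFd⟩ : ∃ F : RO ℤ, F = (res (Ker (co phi i0)) E - G').coeff a := ⟨_, rfl⟩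
    rw [← hFd]
    have hF0 : ∀ z : Circle, aeval (z : ℂ) c1 = 0 → evR z F = 0 := by
      intro z hz
      obtain ⟨ka, hka1, hka2⟩ := hka z (by rw [evR_lau, hz])
      have h3 := hfin z hz
      rw [hka2] at h3
      have h4 : ka = 1 := by
        apply mul_right_cancel₀ hNc
        rw [h3, one_mul]
      have h5 : (res (Ker (co phi i0)) E - G').coeff a = E.coeff (a : L) - G'.coeff a := rfl
      rw [hFd, h5, map_sub, hka1 a, h4, one_mul, sub_self]
    obtain ⟨m', f, hf⟩ := LaurentPolynomial.exists_T_pow F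
    have h3 : c1 ∣ f := by
      rw [hce]
      refine cd_dvd hd hep fun z hz => ?_
      have h4 : z ^ d = ep := by
        simp only [map_sub, map_mul, map_one, map_pow, aeval_X, aeval_C] at hz
        have h5 : (algebraMap ℤ ℂ) ep = (ep : ℂ) := rfl
        have h6 : (ep : ℂ) * ep = 1 := by
          rcases hep with h | h <;> rw [h] <;> norm_num
        rw [h5] at hz
        linear_combination (-(ep : ℂ)) * hz - z ^ d * h6
      have h5 : ‖z‖ = 1 := by
        have h6 : ‖z‖ ^ d = 1 := by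
          rw [← norm_pow, h4]
          rcases hep with h | h <;> rw [h] <;> norm_num
        exact (pow_eq_one_iff_of_nonneg (norm_nonneg z) (by lia)).mp h6
      obtain ⟨w, rfl⟩ := hcir z h5
      rw [← evR_lau, hf, map_mul, hF0 w (by rw [hce]; exact hz), zero_mul]
    obtain ⟨t, ht⟩ := h3
    refine ⟨toLaurent t * LaurentPolynomial.T (-(m' : ℤ)), ?_⟩
    have h4 : F = toLaurent f * LaurentPolynomial.T (-(m' : ℤ)) := by
      rw [hf, mul_assoc, ← LaurentPolynomial.T_add, add_neg_cancel, LaurentPolynomial.T_zero,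
        mul_one]
    rw [h4, ht, map_mul]
    ring
  obtain ⟨R, hR⟩ := hdiv
  refine ⟨R, hd, hep, ?_, ⟨qG, lG, nG + n1, hqG, hZf'⟩, hG'0, ?_⟩
  · rw [← hce]
    exact hcl'
  · intro a
    have h3 : (res (Ker (co phi i0)) E - G').coeff a = (cst (toLaurent c1) * R).coeff a := by
      rw [hR]
    rw [H14.coeff_cst_mul] at h3
    have h5 : (res (Ker (co phi i0)) E - G').coeff a = E.coeff (a : L) - G'.coeff a := rfl
    rw [h5] at h3
    rw [← hce, ← h3]
    ring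

end Pool.Agent.B5.UfgC
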