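import Pool.Agent.Lib.MP_b5021c_nt.UF.H83.Gen
import Pool.Agent.Lib.MP_b5021c_nt.UF.H07.W

/-!
# MP_b5021c_nt, board b5, row UFG_W (helper83, after UF/H07/W.lean of helper7): the closings with a
simple pole, arbitrary drop
-/

set_option linter.unusedSectionVars false

namespace Pool.Agent.B5.UfgW

open scoped LaurentPolynomial
open Polynomial
open Pool.Agent.B5 Pool.Agent.B5.H83 Pool.Agent.B5.Dcm
open Pool.Agent.B5.H40 (uT)
open Pool.Agent.B5.Uf07 (kap kap_mz uT_mz kap_uT sq_one one_exp kap_one_exp kap_eq_zero kapA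
  kapA_coeff kapA_single classP_unit unit_norm bdP w_one w_end)

section

variable {P L : Type} [Fintype P] [DecidableEq P] [AddCommGroup L] [Module.Free ℤ L]
  [Module.Finite ℤ L] {phi : L →+ (P → ℤ)} {E : AO ℤ L} {S : L} {i0 : P}
  {h : co phi i0 S = 1} {eta : (RO ℤ)ˣ} {N : ℕ} {p0 p1 : ℤ[X]} {u0 : (RO ℤ)ˣ}

/-- The coefficients of `V` and `W`. -/
theorem cl_co (H : Ufdg phi E S i0 h eta N p0 p1 u0) (e : (RO ℤ)ˣ) (a : Ker (co phi i0)) :
    (cl (co phi i0) S h e E).coeff a = E.coeff (a : L) + (e : RO ℤ) * E.coeff ((a : L) + S) :=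
  H47.cl_coeff_bin _ _ _ _ _ (fun a ha => H.dd.bin a ha i0) a

theorem kap_W (H : Ufdg phi E S i0 h eta N p0 p1 u0) (u : ℤˣ) :
    kapA u (cl (co phi i0) S h (eta * uT u (-1)) E) = kapA u (cl (co phi i0) S h eta E) := by
  apply AddMonoidAlgebra.ext
  apply Finsupp.ext
  intro a
  rw [kapA_coeff, kapA_coeff, cl_co H, cl_co H, RingHom.map_add, RingHom.map_add,
    RingHom.map_mul, RingHom.map_mul, Units.val_mul, RingHom.map_mul, kap_uT, mul_one]

theorem supp_sub (H : Ufdg phi E S i0 h eta N p0 p1 u0) (u : ℤˣ) :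
    supp (cl (co phi i0) S h eta E) ⊆ supp (cl (co phi i0) S h (eta * uT u (-1)) E) := by
  obtain ⟨n, hn⟩ := H.cst
  intro a ha h0
  apply ha
  apply kap_eq_zero u (hn a)
  have h1 := congrArg (fun F : AO ℤ (Ker (co phi i0)) => F.coeff a) (kap_W H u)
  change (kapA u _).coeff a = (kapA u _).coeff a at h1
  rw [kapA_coeff, kapA_coeff, h0, map_zero] at h1
  exact h1.symm

/-- No small factor. -/
theorem no_small (H : Ufdg phi E S i0 h eta N p0 p1 u0) (u : ℤˣ) (b : Ker (co phi i0))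
    (e : (RO ℤ)ˣ) (hb : b ≠ 0) :
    ¬ (1 - AddMonoidAlgebra.single b (e : RO ℤ)) ∣ cl (co phi i0) S h (eta * uT u (-1)) E := by
  intro hd
  obtain ⟨n, hn⟩ := H.cst
  apply H.ns b (Units.map (kap u).toMonoidHom e) hb
  have h1 := map_dvd (kapA u) hd
  rw [kap_W H u, map_sub, map_one, kapA_single] at h1
  have h2 : cst (mz n ((u ^ n : ℤˣ) : ℤ)) * kapA u (cl (co phi i0) S h eta E) =
      cl (co phi i0) S h eta E := by
    apply AddMonoidAlgebra.ext
    apply Finsupp.ext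
    intro a
    rw [H96.cst_mul_coeff, kapA_coeff, kap_one_exp u (hn a)]
  rw [← h2]
  exact Dvd.dvd.mul_left h1 _

/-- The difference. -/
theorem p_diff (H : Ufdg phi E S i0 h eta N p0 p1 u0) : p0 = C ((N : ℤ) - 1) + p1 := by
  obtain ⟨n, hn⟩ := H.cst
  obtain ⟨k, s, hs⟩ := unit_mz u0
  have h1 : (u0 : RO ℤ) * (cl (co phi i0) S h eta E).coeff 0 = toLaurent (p0 - p1) := by
    rw [cl_co H, map_sub, mul_add]
    have h2 : ((0 : Ker (co phi i0)) : L) = 0 := rfl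
    rw [h2, zero_add, H.e0, H.e1, sub_eq_add_neg]
  have h2 := one_exp (hn 0)
  rw [h2, hs, mz_mul] at h1
  set c := (s : ℤ) * ((cl (co phi i0) S h eta E).coeff 0).coeff n with hc
  have h3 : ∀ j : ℕ, (p0 - p1).coeff j = if (k + n) = (j : ℤ) then c else 0 := by
    intro j
    rw [← toLaurent_coeff_nonneg, ← h1]
    unfold mz
    rw [AddMonoidAlgebra.coeff_single, Finsupp.single_apply]
  have h4 : (p0 - p1).coeff 0 = (N : ℤ) - 1 := by rw [coeff_sub, H.p00, H.p10]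
  have hN := H.N3
  have h5 : k + n = 0 := by
    by_contra hne
    have h6 := h3 0
    rw [h4, if_neg (by simpa using hne)] at h6
    omega
  have h6 : c = (N : ℤ) - 1 := by
    have h7 := h3 0
    rw [h4, if_pos (by simpa using h5)] at h7
    exact h7.symm
  have h7 : p0 - p1 = C ((N : ℤ) - 1) := by
    ext j
    rw [h3 j, h5, coeff_C, h6]
    by_cases hj : j = 0
    · rw [hj, if_pos (by simp), if_pos rfl]
    · rw [if_neg (by intro h8; exact hj (by exact_mod_cast h8.symm)), if_neg hj]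
  rw [← h7]
  ring

theorem norms (hE2 : E2S) (H : Ufdg phi E S i0 h eta N p0 p1 u0) :
    (∀ z : ℂ, ‖z‖ = 1 → ‖aeval z p1‖ ≤ ‖aeval z p0‖) ∧ ∀ z : ℂ, ‖z‖ ≤ 1 → aeval z p0 ≠ 0 := by
  have hrk := H.rkL
  have hN := H.N3
  obtain ⟨hz, -, -, -, -, hr⟩ := hE2 ℤ P L phi E H.dd (by omega)
  obtain ⟨hle, -⟩ := hr S H.ray
  have e0 : ∀ w : Circle, ‖aeval (w : ℂ) p0‖ = ‖evR w (E.coeff 0)‖ := by
    intro w
    rw [← KE.evR_poly, ← H.e0, map_mul, norm_mul, unit_norm, one_mul]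
  have e1 : ∀ w : Circle, ‖aeval (w : ℂ) p1‖ = ‖evR w (E.coeff S)‖ := by
    intro w
    rw [← KE.evR_poly, ← norm_neg, ← map_neg, ← H.e1, map_mul, map_mul, norm_mul, norm_mul,
      unit_norm, unit_norm, one_mul, one_mul]
  constructor
  · intro z hz1
    obtain ⟨w, rfl⟩ := KE.circle_of z hz1
    rw [e0, e1]
    exact hle w
  · intro z hz1
    rcases lt_or_eq_of_le hz1 with h1 | h1
    · exact H.zf z h1
    · obtain ⟨w, rfl⟩ := KE.circle_of z h1
      intro h2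
      apply hz w
      rw [← norm_eq_zero, ← e0, h2, norm_zero]

/-- The constant coefficient of `W`. -/
theorem W0_eq (H : Ufdg phi E S i0 h eta N p0 p1 u0) (u : ℤˣ) :
    ∃ v : (RO ℤ)ˣ, E.coeff 0 + ((eta * uT u (-1) : (RO ℤ)ˣ) : RO ℤ) * E.coeff S =
      (v : RO ℤ) * toLaurent (p1 - C (u : ℤ) * X * p0) := by
  refine ⟨u0⁻¹ * uT (-u) (-1), ?_⟩
  have h1 : (u0 : RO ℤ) * ((u0⁻¹ : (RO ℤ)ˣ) : RO ℤ) = 1 := u0.mul_inv
  have h2 : (u0 : RO ℤ) * (E.coeff 0 + ((eta * uT u (-1) : (RO ℤ)ˣ) : RO ℤ) * E.coeff S) =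
      ((uT (-u) (-1) : (RO ℤ)ˣ) : RO ℤ) * toLaurent (p1 - C (u : ℤ) * X * p0) := by
    have h3 : (u0 : RO ℤ) * (E.coeff 0 + ((eta * uT u (-1) : (RO ℤ)ˣ) : RO ℤ) * E.coeff S) =
        (u0 : RO ℤ) * E.coeff 0 + ((uT u (-1) : (RO ℤ)ˣ) : RO ℤ) *
          ((u0 : RO ℤ) * ((eta : RO ℤ) * E.coeff S)) := by
      rw [Units.val_mul]
      ring
    rw [h3, H.e0, H.e1, H40.uT_val, H40.uT_val, map_sub, map_mul, map_mul, toLaurent_C, toLaurent_X,
      Units.val_neg, map_neg]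
    have h4 : (LaurentPolynomial.T (-1) : RO ℤ) * LaurentPolynomial.T 1 = 1 := by
      rw [← LaurentPolynomial.T_add, neg_add_cancel, LaurentPolynomial.T_zero]
    have h5 : (LaurentPolynomial.C (u : ℤ) : RO ℤ) * LaurentPolynomial.C (u : ℤ) = 1 := by
      rw [← map_mul, ← Units.val_mul]
      rcases Int.units_eq_one_or u with h | h <;> rw [h] <;> simp
    linear_combination (-(toLaurent p0 : RO ℤ)) *
      ((LaurentPolynomial.C (u : ℤ) : RO ℤ) * LaurentPolynomial.C (u : ℤ)) * h4 -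
        (toLaurent p0 : RO ℤ) * h5
  calc E.coeff 0 + ((eta * uT u (-1) : (RO ℤ)ˣ) : RO ℤ) * E.coeff S
      = ((u0 : RO ℤ) * ((u0⁻¹ : (RO ℤ)ˣ) : RO ℤ)) *
        (E.coeff 0 + ((eta * uT u (-1) : (RO ℤ)ˣ) : RO ℤ) * E.coeff S) := by rw [h1, one_mul]
    _ = ((u0⁻¹ : (RO ℤ)ˣ) : RO ℤ) * ((u0 : RO ℤ) *
        (E.coeff 0 + ((eta * uT u (-1) : (RO ℤ)ˣ) : RO ℤ) * E.coeff S)) := by ring
    _ = _ := by rw [h2, Units.val_mul]; ring

theorem uT_ne_one (u : ℤˣ) : ((uT u (-1) : (RO ℤ)ˣ) : RO ℤ) - 1 ≠ 0 := by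
  intro h0
  have h1 := congrArg (fun F : RO ℤ => F.coeff 0) h0
  change ((uT u (-1) : (RO ℤ)ˣ) : RO ℤ).coeff 0 - (1 : RO ℤ).coeff 0 = 0 at h1
  have h2 : ((1 : RO ℤ)).coeff 0 = 1 := by
    rw [AddMonoidAlgebra.one_def, AddMonoidAlgebra.coeff_single, Finsupp.single_eq_same]
  rw [uT_mz, h2] at h1
  unfold mz at h1
  rw [AddMonoidAlgebra.coeff_single, Finsupp.single_eq_of_ne (by norm_num)] at h1
  norm_num at h1

theorem prj_mem (H : Ufdg phi E S i0 h eta N p0 p1 u0) (u : ℤˣ) (a : L) (ha : a ∈ supp E) :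
    prj (co phi i0) S h a ∈ supp (cl (co phi i0) S h (eta * uT u (-1)) E) := by
  by_contra hcon
  set b := prj (co phi i0) S h a with hb
  have hW : (cl (co phi i0) S h (eta * uT u (-1)) E).coeff b = 0 := by
    by_contra h1
    exact hcon h1
  have hV : (cl (co phi i0) S h eta E).coeff b = 0 := by
    by_contra h1
    exact hcon (supp_sub H u h1)
  rw [cl_co H] at hW hV
  have h1 : ((eta : RO ℤ) * (((uT u (-1) : (RO ℤ)ˣ) : RO ℤ) - 1)) * E.coeff ((b : L) + S) = 0 := by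
    rw [Units.val_mul] at hW
    linear_combination hW - hV
  have h2 : E.coeff ((b : L) + S) = 0 :=
    (mul_eq_zero.1 h1).resolve_left (mul_ne_zero eta.ne_zero (uT_ne_one u))
  rw [h2, mul_zero, add_zero] at hV
  have h3 : (b : L) = a - co phi i0 a • S := by rw [hb, prj_coe]
  rcases H.dd.bin a ha i0 with h4 | h4
  · have h5 : co phi i0 a = 0 := h4
    rw [h5, zero_smul, sub_zero] at h3
    rw [h3] at hV
    exact ha hV
  · have h5 : co phi i0 a = 1 := h4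
    rw [h5, one_smul] at h3
    rw [h3, sub_add_cancel] at h2
    exact ha h2

theorem rk_W (hRk : RkS) (H : Ufdg phi E S i0 h eta N p0 p1 u0) (u : ℤˣ) :
    Module.finrank ℤ L ≤ rk (supp (cl (co phi i0) S h (eta * uT u (-1)) E)) + 1 := by
  set T := supp (cl (co phi i0) S h (eta * uT u (-1)) E) with hT
  obtain ⟨-, -, -, -, hi, hun, hone, -, hsat, -⟩ := hRk L L
  have h1 : rk (supp E) ≤ rk ((incl (Ker (co phi i0)) '' T) ∪ {S}) := by
    apply hsat
    intro a ha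
    refine ⟨1, one_ne_zero, ?_⟩
    rw [one_smul]
    have h2 : a = incl (Ker (co phi i0)) (prj (co phi i0) S h a) + co phi i0 a • S := by
      rw [incl_apply, prj_coe, sub_add_cancel]
    rw [h2]
    refine Submodule.add_mem _ ?_ (Submodule.smul_mem _ _ ?_)
    · exact Submodule.subset_span (Or.inl ⟨_, prj_mem H u a ha, rfl⟩)
    · exact Submodule.subset_span (Or.inr rfl)
  have h2 := hun (incl (Ker (co phi i0)) '' T) {S}
  have h3 := (hRk (Ker (co phi i0)) L).2.2.2.2.1 (incl (Ker (co phi i0))) T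
  have h4 := hone S H.ray.2.1
  have h5 := H.dd.spn
  omega

/-- One of the two closings. -/
theorem one_u (hRk : RkS) (hE2 : E2S) (hPc : PCZS) (hFD : FDS) (hSm : SmallS) (hG4 : G4S) (hMono : MonoS)
    (hE1 : E1S) (hMV : MVS) (hMm : MmulS) (H : Ufdg phi E S i0 h eta N p0 p1 u0) {x : ℝ}
    (hB : Bnk (2 * N - 2)) (hx : 0 < x) (hxN : x⁻¹ - x = N - 1) (u : ℤˣ) :
    (aeval (((u : ℤ) : ℝ) * x) p0 : ℝ) ≤ N + x := by
  have hrk := H.rkL
  have hN := H.N3
  have hN' : (3 : ℝ) ≤ N := by exact_mod_cast hN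
  have hp := p_diff H
  obtain ⟨hle, h0⟩ := norms hE2 H
  have hx1 : x < 1 := by
    by_contra hcon
    push Not at hcon
    have : x⁻¹ ≤ 1 := inv_le_one_of_one_le₀ hcon
    linarith
  have hu : (u : ℤ) = 1 ∨ (u : ℤ) = -1 := Int.isUnit_iff.1 u.isUnit
  obtain ⟨r, hr0, hr1, hS, hsg⟩ := w_one hPc hN hp H.p10 hle h0 hu
  refine w_end hp hx hx1 hxN hu (hsg x ?_ hx1)
  by_contra hcon
  push Not at hcon
  obtain ⟨v, hv⟩ := W0_eq H u
  have hw0 : (p1 - C (u : ℤ) * X * p0).coeff 0 = 1 := by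
    rw [coeff_sub, H.p10, mul_assoc, coeff_C_mul, coeff_X_mul_zero, mul_zero, sub_zero]
  have hcl : ClassP r⁻¹ (E.coeff 0 + ((eta * uT u (-1) : (RO ℤ)ˣ) : RO ℤ) * E.coeff S) := by
    rw [hv]
    apply classP_unit
    refine ⟨(one_lt_inv₀ hr0).mpr hr1, 0, p1 - C (u : ℤ) * X * p0, ?_, ?_,
      ((((u : ℤ) : ℝ) * r : ℝ) : ℂ), ?_, hS⟩
    · rw [LaurentPolynomial.T_zero, one_mul]
    · rw [hw0, map_one, norm_one]
    · rw [inv_inv, Complex.norm_real, norm_mul, Real.norm_eq_abs, Real.norm_eq_abs,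
        abs_of_pos hr0]
      rcases hu with h1 | h1 <;> rw [h1] <;> simp
  have hcc : CC phi E S i0 (eta * uT u (-1)) := by
    refine ⟨H.dd, by omega, H.ray, h, ?_⟩
    rw [hv]
    refine mul_ne_zero (Units.ne_zero v) ?_
    rw [Ne, toLaurent_eq_zero]
    intro h1
    rw [h1, coeff_zero] at hw0
    exact zero_ne_one hw0
  obtain ⟨c, n, G, fd⟩ := hFD ℤ P L phi E S i0 (eta * uT u (-1)) h hcc
  -- all factors are big
  have hbig : ∀ l, 1 < M ((G l).coeff 0) := by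
    intro l
    by_contra hl
    obtain ⟨hu1, ⟨b, hb, -, e, he⟩, -⟩ := hSm ℤ P L phi E S i0 (eta * uT u (-1)) h c n G fd l hl
    apply no_small H u b e⁻¹ hb
    rw [fd.eq]
    apply Dvd.dvd.mul_left
    refine dvd_trans ?_ (Finset.dvd_prod_of_mem G (Finset.mem_univ l))
    rw [he]
    exact Dvd.intro_left _ rfl
  -- rank
  have hrkW := rk_W hRk H u
  obtain ⟨l⟩ := KE.fac_ex fd (by omega)
  rw [fd.v00] at hcl
  obtain ⟨h3, h4, -⟩ := KE.one_fac hE1 hMV hMm fd.c0 (fun i => (fd.st i).1) hcl hbig l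
  have h7 : ∏ i, G i = G l := by
    rw [Finset.prod_eq_single l]
    · intro i _ hi
      exact absurd (h3 i) hi
    · intro hi
      exact absurd (Finset.mem_univ l) hi
  have h8 : rk (supp (cl (co phi i0) S h (eta * uT u (-1)) E)) = rk (supp (G l)) := by
    rw [fd.eq, h7, H56.supp_cst_mul fd.c0]
  have hth : r⁻¹ - 1 / r⁻¹ < N - 1 := by
    rw [one_div, inv_inv, ← hxN]
    have h9 : r⁻¹ < x⁻¹ := (inv_lt_inv₀ hr0 hx).mpr hcon
    linarith
  have h9 := (hG4 ℤ P L phi E S i0 (eta * uT u (-1)) h c n G fd l).2 r⁻¹ (2 * N - 3) h4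
    (by linarith) (bdP hMono hN hB hth)
  have h10 : (2 * N - 2 : ℝ) ≤ rk (supp (G l)) := by
    have h11 : 2 * N - 2 ≤ rk (supp (G l)) := by omega
    have h12 : ((2 * N - 2 : ℕ) : ℝ) ≤ rk (supp (G l)) := by exact_mod_cast h11
    rw [Nat.cast_sub (by omega)] at h12
    push_cast at h12
    exact h12
  linarith

end

/-- (UF_W) -/
theorem ufwg (hRk : RkS) (hE2 : E2S) (hPc : PCZS) (hFD : FDS) (hSm : SmallS) (hG4 : G4S) (hMono : MonoS)
    (hE1 : E1S) (hMV : MVS) (hMm : MmulS) : UfwgS := by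
  intro P L _ _ _ _ _ phi E S i0 h eta N p0 p1 u0 x H hB hx hxN
  refine ⟨p_diff H, ?_, ?_⟩
  · have h1 := one_u hRk hE2 hPc hFD hSm hG4 hMono hE1 hMV hMm H hB hx hxN 1
    rw [Units.val_one, Int.cast_one, one_mul] at h1
    exact h1
  · have h1 := one_u hRk hE2 hPc hFD hSm hG4 hMono hE1 hMV hMm H hB hx hxN (-1)
    rw [Units.val_neg, Units.val_one, Int.cast_neg, Int.cast_one, neg_one_mul] at h1
    exact h1

end Pool.Agent.B5.UfgW
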