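import Pool.Agent.Lib.MP_b5021c_nt.UF.H83.Ufg
import Pool.Agent.Lib.MP_b5021c_nt.UF.H83.Avg
import Pool.Agent.Lib.MP_b5021c_nt.UF.H83.Wg
import Pool.Agent.Lib.MP_b5021c_nt.UF.H83.Dcpg
import Pool.Agent.Lib.MP_b5021c_nt.UF.H83.Ccng
import Pool.Agent.Lib.MP_b5021c_nt.UF.H02.Ccn2
import Pool.Agent.Lib.MP_b5021c_nt.UF.H07.Fb

/-!
# MP_b5021c_nt, board b5, row UFG (helper83): LEMMA UF with arbitrary drop from base rows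
-/

namespace Pool.Agent.B5.Ufg

open Pool.Agent.B5

theorem ufg_all (hDcm : DcmS) (hSub : SubzS) (hPr : PrimS) (hG0 : G0S) (hRk : RkS) (hE2 : E2S)
    (hFD : FDS) (hSm : SmallS) (hU : UnitAS) (hMin : MinS) (hMm : MmulS) (hGen : GenS)
    (hPc : PCZS) (hG4 : G4S) (hMono : MonoS) (hE1 : E1S) (hMV : MVS)
    (h2 : MultiS) (h3 : StSpecS) (h7 : EvRS) (hA5 : A5S) (hA7 : A7S)
    (hB5 : B5aS) (h5 : B2cS) (hA : A3bS) (hZ : ZfinS) (hCI : ComplIrrS) (hC : ComplS)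
    (hFcl : FclS) (hEvz : EvzS) (hEv1 : BdV ℤ 1 1) : UfgS :=
  ufg (Uf.uavg hDcm hSub hPr hG0 hRk hE2 hFD hSm hU hMin hMm hGen)
    (UfgW.ufwg hRk hE2 hPc hFD hSm hG4 hMono hE1 hMV hMm)
    Uf07.uff_st
    (ufcg (UfgC.ccng (H02.cresq h2 h3 hG0 h7 hE2) hE2 hG0 hPr hA5 hA7)
      (UfgD.dcpg h2 h3 h5 hG0 h7 hA hZ hU hCI hC hRk hFcl hEvz hEv1) hB5)

end Pool.Agent.B5.Ufg

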