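import Pool.Agent.Lib.MP_b5021c_nt.DCM.H61.Ser

/-!
# MP_b5021c_nt, board b5, row UF_AV (helper83): the averages have no zero in the disc
-/

namespace Pool.Agent.B5.Uf

open Polynomial Pool.Agent.B5.Dcm

theorem re_ge {p0 p1 : ℤ[X]} {c : ℝ} (hc : 0 < c)
    (h01 : ∀ z : ℂ, aeval z p0 = c + aeval z p1)
    (hle : ∀ z : ℂ, ‖z‖ = 1 → ‖aeval z p1‖ ≤ ‖aeval z p0‖) (z : ℂ) (hz : ‖z‖ < 1) :
    c / 2 ≤ (aeval z p0 : ℂ).re := by
  have h1 : ∀ z : ℂ, ‖z‖ = 1 → c / 2 ≤ (aeval z p0 : ℂ).re := by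
    intro z hz
    have h2 := hle z hz
    have h3 : aeval z p1 = aeval z p0 - c := by rw [h01 z]; ring
    rw [h3] at h2
    have h4 : ‖aeval z p0 - (c : ℂ)‖ ^ 2 ≤ ‖aeval z p0‖ ^ 2 :=
      pow_le_pow_left₀ (norm_nonneg _) h2 2
    rw [← Complex.normSq_eq_norm_sq, ← Complex.normSq_eq_norm_sq, Complex.normSq_apply,
      Complex.normSq_apply] at h4
    simp only [Complex.sub_re, Complex.ofReal_re, Complex.sub_im, Complex.ofReal_im, sub_zero] at h4
    nlinarith
  have hd : Differentiable ℂ fun z : ℂ => Complex.exp (-(aeval z p0)) := by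
    have : Differentiable ℂ fun z : ℂ => aeval z p0 := Polynomial.differentiable_aeval p0
    exact this.neg.cexp
  have h5 : ‖Complex.exp (-(aeval z p0))‖ ≤ Real.exp (-(c / 2)) := by
    refine Complex.norm_le_of_forall_mem_frontier_norm_le (U := Metric.ball (0 : ℂ) 1)
      Metric.isBounded_ball hd.diffContOnCl ?_ (subset_closure (by simpa using hz))
    intro w hw
    rw [frontier_ball (0 : ℂ) one_ne_zero, mem_sphere_zero_iff_norm] at hw
    rw [Complex.norm_exp, Complex.neg_re]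
    exact Real.exp_le_exp.2 (by have := h1 w hw; linarith)
  rw [Complex.norm_exp, Complex.neg_re, Real.exp_le_exp] at h5
  linarith

theorem contract_ne {p0 p1 : ℤ[X]} {c : ℝ} {m : ℕ} (hm : 1 ≤ m) (hc : 0 < c)
    (h01 : ∀ z : ℂ, aeval z p0 = c + aeval z p1)
    (hle : ∀ z : ℂ, ‖z‖ = 1 → ‖aeval z p1‖ ≤ ‖aeval z p0‖) (z : ℂ) (hz : ‖z‖ < 1) :
    aeval z (contract m p0) ≠ 0 := by
  have hm0 : m ≠ 0 := by lia
  rcases eq_or_ne z 0 with rfl | hz0
  · intro h0
    have h1 := re_ge hc h01 hle 0 (by simp)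
    rw [← coeff_zero_eq_aeval_zero', coeff_contract hm0, zero_mul, coeff_zero_eq_aeval_zero'] at h0
    rw [h0, Complex.zero_re] at h1
    linarith
  obtain ⟨w, hw⟩ : ∃ w : ℂ, w ^ m = z := IsAlgClosed.exists_pow_nat_eq z (by lia)
  have hw1 : ‖w‖ < 1 := by
    by_contra h
    rw [not_lt] at h
    have h2 : 1 ≤ ‖w‖ ^ m := one_le_pow₀ h
    rw [← norm_pow, hw] at h2
    linarith
  have hw0 : w ≠ 0 := by
    rintro rfl
    rw [zero_pow hm0] at hw
    exact hz0 hw.symm
  obtain ⟨ζ, hζ⟩ : ∃ ζ : ℂ, IsPrimitiveRoot ζ m := ⟨_, Complex.isPrimitiveRoot_exp m hm0⟩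
  have hζn : ‖ζ‖ = 1 := hζ.norm'_eq_one hm0
  have hζ0 : ζ ≠ 0 := hζ.ne_zero hm0
  have key : ∑ i ∈ Finset.range m, aeval (ζ ^ i * w) p0 = m * aeval z (contract m p0) := by
    rcases Nat.lt_or_ge m 2 with h | h
    · obtain rfl : m = 1 := by lia
      have h2 : contract 1 p0 = p0 := by
        ext k
        rw [coeff_contract one_ne_zero, mul_one]
      rw [h2, Finset.sum_range_one, pow_zero, one_mul, Nat.cast_one, one_mul, ← hw, pow_one]
    · have h1 := sum_root h hζ (X * p0) w hw0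
      have h2 : Dcm.dc m (X * p0) = contract m p0 := by
        ext k
        rw [dc_coeff (by lia), coeff_X_mul, coeff_contract hm0, mul_comm]
      rw [h2, hw] at h1
      rw [← h1]
      refine Finset.sum_congr rfl fun i _ => ?_
      have h3 : ζ ^ i * w ≠ 0 := mul_ne_zero (pow_ne_zero _ hζ0) hw0
      rw [map_mul, aeval_X]
      field_simp
  intro h0
  rw [h0, mul_zero] at key
  have h1 := congrArg Complex.re key
  rw [Complex.re_sum, Complex.zero_re] at h1
  have h2 : ∀ i ∈ Finset.range m, c / 2 ≤ (aeval (ζ ^ i * w) p0 : ℂ).re := by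
    intro i _
    apply re_ge hc h01 hle
    rw [norm_mul, norm_pow, hζn, one_pow, one_mul]
    exact hw1
  have h3 := Finset.sum_le_sum h2
  rw [h1, Finset.sum_const, Finset.card_range, nsmul_eq_mul] at h3
  have h4 : (0 : ℝ) < m := by exact_mod_cast hm
  nlinarith

end Pool.Agent.B5.Uf
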