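import Pool.Agent.Lib.MP_b5021c_nt.IfaceUF

/-!
# MP_b5021c_nt, board b5, rows UF_C and O1_UF (helper83): assembly of LEMMA UF
-/

set_option linter.unusedSectionVars false

namespace Pool.Agent.B5.Uf

open scoped LaurentPolynomial
open Pool.Agent.B5 Polynomial

theorem toL_inj {p q : ℤ[X]} (h : (toLaurent p : RO ℤ) = toLaurent q) : p = q :=
  toLaurent_injective h

/-- (UF_C) -/
theorem ufc (hC2 : CcnS) (hC3 : DcpS) (hB5 : B5aS) : UfcS := by
  intro P L _ _ _ _ _ phi E S i0 h eta c n0 G N p0 p1 u0 hD hRay hZ hN3 hV hrk he0 he1 hp0 hp1 hc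
  obtain ⟨k, ep, G', R, hk, hep, hcl, hzf, hG0, hER⟩ := hC2 P L phi E S i0 h eta c n0 G N p0 p1 u0
    hD hRay hZ hN3 hV hrk he0 he1 hp0 hp1 hc
  have hR := hC3 P L phi E S i0 h eta G' R N k ep p0 u0 hD hRay hN3 hV hrk hZ.dr he0 hp0 hk hep
    hcl hzf hG0 hER
  obtain ⟨-, -, lam, hlS, hlam⟩ := hRay
  have hV0 := (hB5 ℤ L E (co phi i0) S h eta lam hlS hlam).1
  have h1 : (cst (toLaurent (1 - C ep * X ^ k)) * G').coeff 0 =
      (toLaurent (1 - C ep * X ^ k) : RO ℤ) * G'.coeff 0 := by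
    unfold cst
    rw [AddMonoidAlgebra.coeff_single_zero_mul]
  rw [hcl, h1] at hV0
  have h2 : E.coeff 0 = G'.coeff 0 + toLaurent (1 - C ep * X ^ k) * R.coeff 0 := hER 0
  have h3 : (toLaurent p0 : RO ℤ) = toLaurent (C (N : ℤ) - C ep * X ^ k) := by
    have h4 : (C (N : ℤ) - C ep * X ^ k : ℤ[X]) = C ((N : ℤ) - 1) + (1 - C ep * X ^ k) * 1 := by
      rw [C_sub, C_1]
      ring
    rw [← he0, h2, mul_add, hG0, mul_left_comm, hR, h4, map_add, map_mul, map_one]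
  have h5 : (toLaurent p1 : RO ℤ) = toLaurent (1 + C (((N : ℤ) - 2) * ep) * X ^ k) := by
    have h6 : (toLaurent p1 : RO ℤ) = -((u0 : RO ℤ) * ((eta : RO ℤ) * E.coeff S)) := by
      rw [he1, neg_neg]
    have h7 : (eta : RO ℤ) * E.coeff S =
        toLaurent (1 - C ep * X ^ k) * G'.coeff 0 - E.coeff 0 := by
      rw [hV0]
      ring
    have h8 : (u0 : RO ℤ) * (toLaurent (1 - C ep * X ^ k) * G'.coeff 0 - E.coeff 0) =
        toLaurent (1 - C ep * X ^ k) * toLaurent (C ((N : ℤ) - 1)) - toLaurent p0 := by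
      rw [mul_sub, he0, mul_left_comm, hG0]
    rw [h6, h7, h8, h3, ← map_mul, ← map_sub, ← map_neg]
    congr 1
    rw [C_sub, C_mul, C_sub, C_1]
    have h9 : (C (2 : ℤ) : ℤ[X]) = 2 := rfl
    rw [h9]
    ring
  exact ⟨k, ep, hk, hep, toL_inj h3, toL_inj h5⟩

theorem exists_x (N : ℕ) (hN : 3 ≤ N) : ∃ x : ℝ, 0 < x ∧ x⁻¹ - x = N - 1 := by
  have hN' : (3 : ℝ) ≤ N := by exact_mod_cast hN
  set t : ℝ := N - 1 with ht
  have ht0 : 0 < t := by rw [ht]; linarith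
  set s := Real.sqrt (t ^ 2 + 4) with hs
  have hs2 : s ^ 2 = t ^ 2 + 4 := Real.sq_sqrt (by positivity)
  have hst : t < s := by
    rw [hs]
    apply Real.lt_sqrt_of_sq_lt
    linarith
  refine ⟨(s - t) / 2, by linarith, ?_⟩
  have h0 : (s - t) / 2 ≠ 0 := by
    have : 0 < (s - t) / 2 := by linarith
    exact this.ne'
  rw [inv_eq_one_div, div_sub' h0, div_eq_iff h0]
  nlinarith

/-- (O1_UF) LEMMA UF. -/
theorem ufr (hAv : UavS) (hW : UfwS) (hF : UffS) (hC : UfcS) : UfrS := by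
  intro P L _ _ _ _ _ phi E S i0 h eta c n0 G N p0 p1 u0 hD hRay hZ hN3 hV hrk hB he0 he1 hp0 hp1
  by_cases hc : IsUnit c
  · left
    obtain ⟨x, hx0, hx⟩ := exists_x N hN3
    have key : ∀ m : ℕ, 1 ≤ m → ∃ q0 q1 : ℤ[X], (∀ j, q0.coeff j = p0.coeff (m * j)) ∧
        (∀ j, q1.coeff j = p1.coeff (m * j)) ∧ q0 = C ((N : ℤ) - 1) + q1 ∧
        (aeval x q0 : ℝ) ≤ N + x ∧ (aeval (-x) q0 : ℝ) ≤ N + x := by
      intro m hm
      obtain ⟨K, E', S', h', eta', u0', q0, q1, hU, h0, h1⟩ := hAv P L phi E S i0 h eta c n0 G N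
        p0 p1 u0 m hD hRay hZ hN3 hV hrk he0 he1 hp0 hp1 hc hm
      exact ⟨q0, q1, h0, h1, hW P K (phi.comp (incl K)) E' S' i0 h' eta' N q0 q1 u0' x hU hB hx0
        hx⟩
    have h01 : p0 = C ((N : ℤ) - 1) + p1 := by
      obtain ⟨q0, q1, h0, h1, h2, -, -⟩ := key 1 (le_refl 1)
      have e0 : q0 = p0 := by
        ext j
        rw [h0, one_mul]
      have e1 : q1 = p1 := by
        ext j
        rw [h1, one_mul]
      rw [← e0, ← e1]
      exact h2
    have hF0 : (p0 - C (N : ℤ)).coeff 0 = 0 := by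
      rw [coeff_sub, hp0, coeff_C_zero, sub_self]
    refine ⟨p0 - C (N : ℤ), by ring, ?_, hF0, ?_⟩
    · rw [h01, C_sub, C_1]
      ring
    · refine hF N (p0 - C (N : ℤ)) x hN3 hx0 hx hF0 fun m G hm hG => ?_
      obtain ⟨q0, q1, h0, h1, h2, h3, h4⟩ := key m hm
      have e0 : q0 = C (N : ℤ) + G := by
        ext j
        rw [h0, coeff_add, hG, coeff_sub, coeff_C, coeff_C]
        by_cases hj : j = 0
        · rw [if_pos hj, hj, mul_zero, if_pos rfl]
          ring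
        · rw [if_neg hj, if_neg (Nat.mul_ne_zero (by omega) hj)]
          ring
      rw [e0, map_add, aeval_C] at h3 h4
      simp only [algebraMap_int_eq, eq_intCast, Int.cast_natCast] at h3 h4
      constructor <;> linarith
  · right
    exact hC P L phi E S i0 h eta c n0 G N p0 p1 u0 hD hRay hZ hN3 hV hrk he0 he1 hp0 hp1 hc

end Pool.Agent.B5.Uf
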