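import Pool.Agent.Lib.MP_b5021c_nt.UF.H83.Krein

/-!
# MP_b5021c_nt (helper83): Rouche's theorem for polynomials (weak inequality)
-/

set_option linter.unusedSectionVars false

namespace Pool.Agent.B5.Krein

open Polynomial Finset
open scoped ComplexConjugate Topology

/-- Number of zeros in the open disc, with multiplicities. -/
noncomputable def nz (B : ℂ[X]) : ℕ := (B.roots.filter fun z => ‖z‖ < 1).card

/-- `∏ (1 - conj a X)` -/
noncomputable def sh (s : Multiset ℂ) : ℂ[X] := (s.map fun a => (1 - C (conj a) * X : ℂ[X])).prod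

/-- `∏ (X - a)` -/
noncomputable def wp (s : Multiset ℂ) : ℂ[X] := (s.map fun a => (X - C a : ℂ[X])).prod

theorem sh_circ (s : Multiset ℂ) {z : ℂ} (hz : ‖z‖ = 1) :
    (sh s).eval z = z ^ s.card * conj ((wp s).eval z) := by
  have h1 : z * conj z = 1 := by
    rw [Complex.mul_conj, Complex.normSq_eq_norm_sq, hz, one_pow, Complex.ofReal_one]
  induction s using Multiset.induction_on with
  | empty => simp [sh, wp]
  | cons a s ih =>
    have e1 : sh (a ::ₘ s) = (1 - C (conj a) * X) * sh s := by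
      unfold sh
      rw [Multiset.map_cons, Multiset.prod_cons]
    have e2 : wp (a ::ₘ s) = (X - C a) * wp s := by
      unfold wp
      rw [Multiset.map_cons, Multiset.prod_cons]
    rw [e1, e2, eval_mul, ih, eval_mul, map_mul, Multiset.card_cons, pow_succ]
    simp only [eval_sub, eval_one, eval_mul, eval_C, eval_X, map_sub]
    linear_combination (-(z ^ s.card * conj ((wp s).eval z))) * h1

theorem sh_ne (s : Multiset ℂ) (hs : ∀ a ∈ s, ‖a‖ < 1) {z : ℂ} (hz : ‖z‖ ≤ 1) :
    (sh s).eval z ≠ 0 := by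
  induction s using Multiset.induction_on with
  | empty => simp [sh]
  | cons a s ih =>
    have e1 : sh (a ::ₘ s) = (1 - C (conj a) * X) * sh s := by
      unfold sh
      rw [Multiset.map_cons, Multiset.prod_cons]
    rw [e1, eval_mul]
    refine mul_ne_zero ?_ (ih fun b hb => hs b (Multiset.mem_cons_of_mem hb))
    simp only [eval_sub, eval_one, eval_mul, eval_C, eval_X]
    intro h
    have h1 : conj a * z = 1 := by linear_combination -h
    have h2 := congrArg norm h1
    rw [norm_mul, RCLike.norm_conj, norm_one] at h2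
    have h3 := hs a (Multiset.mem_cons_self a s)
    nlinarith [norm_nonneg a, norm_nonneg z]

theorem wp_ne (s : Multiset ℂ) (hs : ∀ a ∈ s, ‖a‖ < 1) {z : ℂ} (hz : ‖z‖ = 1) :
    (wp s).eval z ≠ 0 := by
  intro h
  have h1 := sh_circ s hz
  rw [h, map_zero, mul_zero] at h1
  exact sh_ne s hs hz.le h1

/-- The factor of the zeros in the open disc, exact form. -/
theorem split_ex {B : ℂ[X]} (hB : B ≠ 0) :
    ∃ (s : Multiset ℂ) (B1 : ℂ[X]), s.card = nz B ∧ (∀ a ∈ s, ‖a‖ < 1) ∧ B = wp s * B1 ∧
      ∀ z : ℂ, ‖z‖ < 1 → B1.eval z ≠ 0 := by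
  classical
  obtain ⟨s, hs⟩ : ∃ s, s = B.roots.filter fun z => ‖z‖ < 1 := ⟨_, rfl⟩
  obtain ⟨W, hW⟩ : ∃ W : ℂ[X], W = wp s := ⟨_, rfl⟩
  have hmon : W.Monic := by
    rw [hW]
    exact monic_multiset_prod_of_monic s (fun a : ℂ => X - C a) fun a _ => monic_X_sub_C a
  have hWr : W.roots = s := by
    rw [hW]
    exact roots_multiset_prod_X_sub_C s
  have hdvd : W ∣ B := by
    rw [hW, wp, Multiset.prod_X_sub_C_dvd_iff_le_roots hB, hs]
    exact Multiset.filter_le _ _
  obtain ⟨B1, hB1⟩ := hdvd
  have hB10 : B1 ≠ 0 := by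
    rintro rfl
    rw [mul_zero] at hB1
    exact hB hB1
  refine ⟨s, B1, by rw [hs, nz], ?_, by rw [← hW]; exact hB1, ?_⟩
  · intro a ha
    rw [hs] at ha
    exact (Multiset.mem_filter.mp ha).2
  intro z hz h0
  have h1 : B.roots = s + B1.roots := by
    rw [hB1, roots_mul (mul_ne_zero hmon.ne_zero hB10), hWr]
  have h2 : s = s + B1.roots.filter fun z => ‖z‖ < 1 := by
    conv_lhs => rw [hs, h1, Multiset.filter_add]
    congr 1
    rw [hs, Multiset.filter_filter]
    simp
  have h3 : (B1.roots.filter fun z => ‖z‖ < 1) = 0 := by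
    have h4 := congrArg Multiset.card h2
    rw [Multiset.card_add] at h4
    exact Multiset.card_eq_zero.mp (by lia)
  have h4 : z ∈ B1.roots.filter fun z => ‖z‖ < 1 :=
    Multiset.mem_filter.mpr ⟨(mem_roots hB10).mpr h0, hz⟩
  rw [h3] at h4
  exact Multiset.notMem_zero z h4

/-- `Re (B conj G) ≥ 0` on the circle, `G` without zeros there: `B` has at most as many zeros in the
disc as `G`, unless `Re (B conj G) = 0` on the circle. -/
theorem count_re {B G : ℂ[X]} (hB : B ≠ 0) (hG : G ≠ 0) (hG0 : ∀ z : ℂ, ‖z‖ = 1 → G.eval z ≠ 0)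
    (hre : ∀ z : ℂ, ‖z‖ = 1 → 0 ≤ (B.eval z * conj (G.eval z)).re) (hlt : nz G < nz B) (z : ℂ)
    (hz : ‖z‖ = 1) : (B.eval z * conj (G.eval z)).re = 0 := by
  obtain ⟨s, B1, hs, hsd, hBs, hB1⟩ := split_ex hB
  obtain ⟨t, G1, ht, htd, hGt, hG1⟩ := split_ex hG
  have hG1c : ∀ w : ℂ, ‖w‖ ≤ 1 → G1.eval w ≠ 0 := by
    intro w hw
    rcases hw.lt_or_eq with h | h
    · exact hG1 w h
    · intro h0
      apply hG0 w h
      rw [hGt, eval_mul, h0, mul_zero]
  have hden : ∀ w : ℂ, ‖w‖ ≤ 1 → (G1 * sh s).eval w ≠ 0 := by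
    intro w hw
    rw [eval_mul]
    exact mul_ne_zero (hG1c w hw) (sh_ne s hsd hw)
  obtain ⟨Nu, hNu⟩ : ∃ Nu : ℂ[X], Nu = B1 * X ^ (nz B - nz G) * sh t := ⟨_, rfl⟩
  obtain ⟨De, hDe⟩ : ∃ De : ℂ[X], De = G1 * sh s := ⟨_, rfl⟩
  rw [← hDe] at hden
  have hcirc : ∀ w : ℂ, ‖w‖ = 1 → ∃ a : ℝ, 0 < a ∧
      (Nu.eval w / De.eval w).re = a * (B.eval w * conj (G.eval w)).re := by
    intro w hw
    have hws := wp_ne s hsd hw
    have hwt := wp_ne t htd hw
    have hg := hG1c w hw.le
    have hw0 : w ≠ 0 := by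
      intro h
      rw [h, norm_zero] at hw
      exact zero_ne_one hw
    have h1 : Nu.eval w / De.eval w =
        B1.eval w * conj ((wp t).eval w) / (G1.eval w * conj ((wp s).eval w)) := by
      rw [hNu, hDe, eval_mul, eval_mul, eval_mul, eval_pow, eval_X, sh_circ s hw, sh_circ t hw, hs,
        ht]
      have h2 : w ^ nz B = w ^ (nz B - nz G) * w ^ nz G := by
        rw [← pow_add]
        congr 1
        lia
      rw [h2]
      have h3 : w ^ (nz B - nz G) ≠ 0 := pow_ne_zero _ hw0
      have h4 : w ^ nz G ≠ 0 := pow_ne_zero _ hw0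
      have h5 : conj ((wp s).eval w) ≠ 0 := (_root_.map_ne_zero _).mpr hws
      field_simp
    refine ⟨1 / (Complex.normSq ((wp s).eval w) * Complex.normSq (G1.eval w)), by
      have := Complex.normSq_pos.mpr hws
      have := Complex.normSq_pos.mpr hg
      positivity, ?_⟩
    rw [h1, ← Complex.re_ofReal_mul]
    congr 1
    rw [Complex.ofReal_div, Complex.ofReal_one, Complex.ofReal_mul, ← Complex.mul_conj,
      ← Complex.mul_conj, hBs, hGt, eval_mul, eval_mul, map_mul]
    have h5 : conj ((wp s).eval w) ≠ 0 := (_root_.map_ne_zero _).mpr hws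
    have h6 : conj (G1.eval w) ≠ 0 := (_root_.map_ne_zero _).mpr hg
    field_simp
  have hcl : closure (Metric.ball (0 : ℂ) 1) = Metric.closedBall 0 1 :=
    closure_ball 0 one_ne_zero
  have hd : DiffContOnCl ℂ (fun w : ℂ => Complex.exp (-(Nu.eval w / De.eval w)))
      (Metric.ball 0 1) := by
    have h1 : DiffContOnCl ℂ (fun w : ℂ => Nu.eval w / De.eval w) (Metric.ball 0 1) := by
      constructor
      · intro w hw
        have hw' : ‖w‖ ≤ 1 := by simpa using (Metric.mem_ball.mp hw).le
        exact (Nu.differentiable.differentiableAt.div De.differentiable.differentiableAt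
          (hden w hw')).differentiableWithinAt
      · rw [hcl]
        intro w hw
        have hw' : ‖w‖ ≤ 1 := by simpa using hw
        exact (Nu.differentiable.differentiableAt.div De.differentiable.differentiableAt
          (hden w hw')).continuousAt.continuousWithinAt
    exact Complex.differentiable_exp.comp_diffContOnCl h1.neg
  have h0 : Nu.eval 0 / De.eval 0 = 0 := by
    rw [hNu, eval_mul, eval_mul, eval_pow, eval_X, zero_pow (by lia), mul_zero, zero_mul, zero_div]
  have hball : ∀ w : ℂ, ‖w‖ < 1 → ‖Complex.exp (-(Nu.eval w / De.eval w))‖ ≤ 1 := by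
    intro w hw
    refine Complex.norm_le_of_forall_mem_frontier_norm_le (U := Metric.ball (0 : ℂ) 1)
      Metric.isBounded_ball hd ?_ (subset_closure (by simpa using hw))
    intro v hv
    rw [frontier_ball (0 : ℂ) one_ne_zero, mem_sphere_zero_iff_norm] at hv
    rw [Complex.norm_exp, Complex.neg_re, ← Real.exp_zero]
    obtain ⟨a, ha, ha2⟩ := hcirc v hv
    apply Real.exp_le_exp.2
    rw [ha2]
    have := mul_nonneg ha.le (hre v hv)
    linarith
  have h2 := Complex.norm_eqOn_closedBall_of_isMaxOn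
    (f := fun w : ℂ => Complex.exp (-(Nu.eval w / De.eval w))) (z := 0) (r := 1) hd (by
      intro w hw
      rw [Metric.mem_ball, dist_zero_right] at hw
      change ‖Complex.exp (-(Nu.eval w / De.eval w))‖ ≤ ‖Complex.exp (-(Nu.eval 0 / De.eval 0))‖
      rw [h0, neg_zero, Complex.exp_zero, norm_one]
      exact hball w hw)
  have h3 := h2 (show z ∈ Metric.closedBall (0 : ℂ) 1 by simpa using hz.le)
  change ‖Complex.exp (-(Nu.eval z / De.eval z))‖ = ‖Complex.exp (-(Nu.eval 0 / De.eval 0))‖ at h3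
  rw [h0, neg_zero, Complex.exp_zero, norm_one, Complex.norm_exp, Complex.neg_re,
    Real.exp_eq_one_iff] at h3
  obtain ⟨a, ha, ha2⟩ := hcirc z hz
  rw [ha2] at h3
  have h4 : a * (B.eval z * conj (G.eval z)).re = 0 := by linarith
  exact (mul_eq_zero.mp h4).resolve_left ha.ne'

theorem nz_circ {a : ℂ} (ha : ‖a‖ = 1) {B : ℂ[X]} (hB : B ≠ 0) : nz ((X - C a) * B) = nz B := by
  unfold nz
  rw [roots_mul (mul_ne_zero (X_sub_C_ne_zero a) hB), roots_X_sub_C, Multiset.filter_add,
    Multiset.card_add, Multiset.filter_singleton, if_neg (by rw [ha]; exact lt_irrefl 1)]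
  simp

/-- ROUCHE'S THEOREM for polynomials, with a weak inequality. -/
theorem rouche : ∀ (m : ℕ) (G f : ℂ[X]), G.natDegree = m → G ≠ 0 → G + f ≠ 0 →
    (∀ z : ℂ, ‖z‖ = 1 → ‖f.eval z‖ ≤ ‖G.eval z‖) → nz (G + f) ≤ nz G := by
  intro m
  induction m using Nat.strong_induction_on with
  | _ m ih =>
    intro G f hm hG hB hle
    by_cases hroot : ∃ a : ℂ, ‖a‖ = 1 ∧ G.eval a = 0
    · obtain ⟨a, hna, ha⟩ := hroot
      have hfa : f.eval a = 0 := by
        have h1 := hle a hna
        rw [ha, norm_zero] at h1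
        exact norm_le_zero_iff.mp h1
      obtain ⟨G1, hG1⟩ := dvd_iff_isRoot.mpr (IsRoot.def.mpr ha)
      obtain ⟨f1, hf1⟩ := dvd_iff_isRoot.mpr (IsRoot.def.mpr hfa)
      have hG10 : G1 ≠ 0 := by
        rintro rfl
        apply hG
        rw [hG1, mul_zero]
      have hnat : G1.natDegree < m := by
        have h2 := natDegree_mul (X_sub_C_ne_zero a) hG10
        rw [← hG1, hm, natDegree_X_sub_C] at h2
        omega
      have hsum : G + f = (X - C a) * (G1 + f1) := by
        rw [hG1, hf1]
        ring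
      have hB1 : G1 + f1 ≠ 0 := by
        intro h
        apply hB
        rw [hsum, h, mul_zero]
      have hfac : ∀ w : ℂ, ‖f.eval w‖ = ‖(X - C a).eval w‖ * ‖f1.eval w‖ := by
        intro w
        rw [hf1, eval_mul, norm_mul]
      have hfac2 : ∀ w : ℂ, ‖G.eval w‖ = ‖(X - C a).eval w‖ * ‖G1.eval w‖ := by
        intro w
        rw [hG1, eval_mul, norm_mul]
      have h5 := ih _ hnat G1 f1 rfl hG10 hB1
        (by
          have hcl : IsClosed {w : ℂ | ‖f1.eval w‖ ≤ ‖G1.eval w‖} :=
            isClosed_le f1.continuous.norm G1.continuous.norm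
          have hsub : {w : ℂ | ‖w‖ = 1 ∧ w ≠ a} ⊆ {w : ℂ | ‖f1.eval w‖ ≤ ‖G1.eval w‖} := by
            rintro w ⟨hw1, hwa⟩
            have h3 := hle w hw1
            rw [hfac, hfac2] at h3
            have h4 : 0 < ‖(X - C a).eval w‖ := by
              rw [eval_sub, eval_X, eval_C, norm_pos_iff]
              exact sub_ne_zero.mpr hwa
            exact le_of_mul_le_mul_left h3 h4
          intro w hw
          by_cases hwa : w = a
          · rw [hwa]
            exact closure_minimal hsub hcl (H79.mem_closure_circle a hna)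
          · exact hsub ⟨hw, hwa⟩)
      rw [hsum, nz_circ hna hB1, hG1, nz_circ hna hG10]
      exact h5
    · push Not at hroot
      by_contra hcon
      push Not at hcon
      have hkey : ∀ z : ℂ, ‖z‖ = 1 →
          ‖(G + f).eval z‖ ^ 2 ≤ 2 * ((G + f).eval z * conj (G.eval z)).re := by
        intro z hz
        have h1 := pow_le_pow_left₀ (norm_nonneg _) (hle z hz) 2
        rw [eval_add]
        obtain ⟨g, hg⟩ : ∃ g, g = G.eval z := ⟨_, rfl⟩
        obtain ⟨p, hp⟩ : ∃ p, p = f.eval z := ⟨_, rfl⟩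
        rw [← hg, ← hp] at h1 ⊢
        rw [← Complex.normSq_eq_norm_sq, ← Complex.normSq_eq_norm_sq, Complex.normSq_apply,
          Complex.normSq_apply] at h1
        rw [← Complex.normSq_eq_norm_sq, Complex.normSq_apply, Complex.mul_re, Complex.conj_re,
          Complex.conj_im, Complex.add_re, Complex.add_im]
        nlinarith
      have hzero := count_re hB hG hroot (fun z hz => by
        have h1 := hkey z hz
        have h2 := sq_nonneg ‖(G + f).eval z‖
        linarith) hcon
      have hcz : ∀ z : ℂ, ‖z‖ = 1 → (G + f).eval z = 0 := by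
        intro z hz
        have h1 := hkey z hz
        rw [hzero z hz, mul_zero] at h1
        have h2 : ‖(G + f).eval z‖ = 0 := by
          have h3 := sq_nonneg ‖(G + f).eval z‖
          exact pow_eq_zero_iff two_ne_zero |>.mp (le_antisymm h1 h3)
        exact norm_eq_zero.mp h2
      apply hB
      apply Polynomial.eq_zero_of_infinite_isRoot
      have hinf : Set.Infinite (Metric.ball (0 : ℂ) 1) :=
        infinite_of_mem_nhds (0 : ℂ) (Metric.ball_mem_nhds _ one_pos)
      refine hinf.mono fun z hz => ?_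
      have hz' : ‖z‖ ≤ 1 := by simpa using (Metric.mem_ball.mp hz).le
      have h1 : ‖(G + f).eval z‖ ≤ 0 := by
        refine Complex.norm_le_of_forall_mem_frontier_norm_le (U := Metric.ball (0 : ℂ) 1)
          Metric.isBounded_ball (G + f).differentiable.diffContOnCl ?_ (subset_closure hz)
        intro v hv
        rw [frontier_ball (0 : ℂ) one_ne_zero, mem_sphere_zero_iff_norm] at hv
        rw [hcz v hv, norm_zero]
      exact norm_le_zero_iff.mp h1

end Pool.Agent.B5.Krein
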