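import Pool.Agent.Lib.MP_b5021c_nt.UF.H83.Ns

/-!
# MP_b5021c_nt, board b5, row UF_AV (helper83): sublattices and gauges
-/

set_option linter.unusedSectionVars false

namespace Pool.Agent.B5.Uf

open scoped LaurentPolynomial
open Pool.Agent.B5 Pool.Agent.B5.H83 Pool.Agent.B5.H96

section

variable {K₁ K₂ : Type} [AddCommGroup K₁] [AddCommGroup K₂]

/-- `w^a ↦ z^(γ a) w^(j a)`. -/
noncomputable def gau (j : K₁ →+ K₂) (γ : K₁ →+ ℤ) : AO ℤ K₁ →+* AO ℤ K₂ :=
  AddMonoidAlgebra.liftNCRingHom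
    (AddMonoidAlgebra.singleZeroRingHom (R := RO ℤ) (M := K₂))
    { toFun := fun a => AddMonoidAlgebra.single (j a.toAdd) (LaurentPolynomial.T (γ a.toAdd))
      map_one' := by
        rw [toAdd_one, map_zero j, map_zero γ, LaurentPolynomial.T_zero]
        rfl
      map_mul' := fun a b => by
        rw [AddMonoidAlgebra.single_mul_single, toAdd_mul, map_add j, map_add γ,
          LaurentPolynomial.T_add] }
    (fun _ _ => Commute.all _ _)

theorem gau_single (j : K₁ →+ K₂) (γ : K₁ →+ ℤ) (a : K₁) (q : RO ℤ) :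
    gau j γ (AddMonoidAlgebra.single a q) =
      AddMonoidAlgebra.single (j a) (q * LaurentPolynomial.T (γ a)) := by
  simp [gau, AddMonoidAlgebra.single_mul_single]

theorem gau_coeff {j : K₁ →+ K₂} (hj : Function.Injective j) (γ : K₁ →+ ℤ) (F : AO ℤ K₁)
    (b : K₁) : (gau j γ F).coeff (j b) = F.coeff b * LaurentPolynomial.T (γ b) := by
  classical
  let f : AO ℤ K₁ →+ RO ℤ :=
    { toFun := fun F => (gau j γ F).coeff (j b)
      map_zero' := by rw [map_zero]; rfl
      map_add' := fun p q => by rw [map_add, AddMonoidAlgebra.coeff_add]; rfl }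
  let g : AO ℤ K₁ →+ RO ℤ :=
    { toFun := fun F => F.coeff b * LaurentPolynomial.T (γ b)
      map_zero' := by
        change (0 : RO ℤ) * LaurentPolynomial.T (γ b) = 0
        rw [zero_mul]
      map_add' := fun p q => by
        rw [AddMonoidAlgebra.coeff_add]
        exact add_mul _ _ _ }
  have h1 : f F = g F := by
    refine eq_of_single f g F fun a _ => ?_
    change (gau j γ (AddMonoidAlgebra.single a (F.coeff a))).coeff (j b) =
      (AddMonoidAlgebra.single a (F.coeff a)).coeff b * LaurentPolynomial.T (γ b)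
    rw [gau_single, AddMonoidAlgebra.coeff_single, AddMonoidAlgebra.coeff_single,
      Finsupp.single_apply, Finsupp.single_apply]
    by_cases h2 : a = b
    · rw [h2, if_pos rfl, if_pos rfl]
    · rw [if_neg (fun h3 => h2 (hj h3)), if_neg h2, zero_mul]
  exact h1

theorem gau_coeff_not (j : K₁ →+ K₂) (γ : K₁ →+ ℤ) (F : AO ℤ K₁) (b : K₂)
    (hb : ∀ a, j a ≠ b) : (gau j γ F).coeff b = 0 := by
  classical
  let f : AO ℤ K₁ →+ RO ℤ :=
    { toFun := fun F => (gau j γ F).coeff b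
      map_zero' := by rw [map_zero]; rfl
      map_add' := fun p q => by rw [map_add, AddMonoidAlgebra.coeff_add]; rfl }
  have h1 : f F = (0 : AO ℤ K₁ →+ RO ℤ) F := by
    refine eq_of_single f 0 F fun a _ => ?_
    change (gau j γ (AddMonoidAlgebra.single a (F.coeff a))).coeff b = 0
    rw [gau_single, AddMonoidAlgebra.coeff_single, Finsupp.single_apply, if_neg (hb a)]
  exact h1

end

section

variable {L : Type} [AddCommGroup L] [Module.Free ℤ L] [Module.Finite ℤ L]

/-- The inclusion of the kernels. -/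
def iot (k : L →+ ℤ) (K : Submodule ℤ L) (k' : K →+ ℤ) (hk : ∀ a : K, k' a = k (a : L)) :
    Ker k' →+ Ker k where
  toFun a := ⟨((a : K) : L), by rw [mem_Ker, ← hk]; exact a.2⟩
  map_zero' := rfl
  map_add' _ _ := rfl

theorem iot_coe (k : L →+ ℤ) (K : Submodule ℤ L) (k' : K →+ ℤ) (hk : ∀ a : K, k' a = k (a : L))
    (a : Ker k') : ((iot k K k' hk a : Ker k) : L) = ((a : K) : L) := rfl

theorem iot_inj (k : L →+ ℤ) (K : Submodule ℤ L) (k' : K →+ ℤ) (hk : ∀ a : K, k' a = k (a : L)) :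
    Function.Injective (iot k K k' hk) := by
  intro a b hab
  apply Subtype.ext
  apply Subtype.ext
  exact congrArg (fun x : Ker k => (x : L)) hab

theorem cl_gau {k : L →+ ℤ} {K : Submodule ℤ L} {k' : K →+ ℤ} (hk : ∀ a : K, k' a = k (a : L))
    {S : L} (h : k S = 1) {S' : K} (hS : (S' : L) = S) (h' : k' S' = 1) (eta : (RO ℤ)ˣ)
    (F : AO ℤ K) :
    cl k S h eta (gau (incl K) 0 F) = gau (iot k K k' hk) 0 (cl k' S' h' eta F) := by
  let f : AO ℤ K →+ AO ℤ (Ker k) := ((cl k S h eta).comp (gau (incl K) 0)).toAddMonoidHom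
  let g : AO ℤ K →+ AO ℤ (Ker k) :=
    ((gau (iot k K k' hk) 0).comp (cl k' S' h' eta)).toAddMonoidHom
  have h1 : f F = g F := by
    refine eq_of_single f g F fun a _ => ?_
    change cl k S h eta (gau (incl K) 0 (AddMonoidAlgebra.single a (F.coeff a))) =
      gau (iot k K k' hk) 0 (cl k' S' h' eta (AddMonoidAlgebra.single a (F.coeff a)))
    rw [gau_single, cl_single, cl_single, gau_single]
    have h2 : prj k S h (incl K a) = iot k K k' hk (prj k' S' h' a) := by
      apply Subtype.ext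
      rw [prj_coe, iot_coe, prj_coe, incl_apply, hk, ← hS]
      rfl
    rw [h2, incl_apply, hk, AddMonoidHom.zero_apply, AddMonoidHom.zero_apply,
      LaurentPolynomial.T_zero, mul_one, mul_one]
  exact h1

theorem gau_res {K : Submodule ℤ L} {D : AO ℤ L} (hD : ∀ a ∈ supp D, a ∈ K) :
    gau (incl K) 0 (res K D) = D := by
  apply AddMonoidAlgebra.ext
  apply Finsupp.ext
  intro a
  by_cases ha : a ∈ K
  · have h1 := gau_coeff (incl_inj K) 0 (res K D) ⟨a, ha⟩
    rw [res_coeff, AddMonoidHom.zero_apply, LaurentPolynomial.T_zero, mul_one] at h1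
    exact h1
  · rw [gau_coeff_not _ _ _ _ (by rintro ⟨b, hb⟩ h2; exact ha (h2 ▸ hb))]
    by_contra h2
    exact ha (hD a (fun h3 => h2 h3.symm))

theorem cl_res {k : L →+ ℤ} {K : Submodule ℤ L} {k' : K →+ ℤ} (hk : ∀ a : K, k' a = k (a : L))
    {S : L} (h : k S = 1) {S' : K} (hS : (S' : L) = S) (h' : k' S' = 1) (eta : (RO ℤ)ˣ)
    {D : AO ℤ L} (hD : ∀ a ∈ supp D, a ∈ K) (b : Ker k') :
    (cl k S h eta D).coeff (iot k K k' hk b) = (cl k' S' h' eta (res K D)).coeff b := by
  have h1 := cl_gau hk h hS h' eta (res K D)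
  rw [gau_res hD] at h1
  rw [h1, gau_coeff (iot_inj k K k' hk), AddMonoidHom.zero_apply, LaurentPolynomial.T_zero,
    mul_one]

theorem cl_res_not {k : L →+ ℤ} {K : Submodule ℤ L} {k' : K →+ ℤ}
    (hk : ∀ a : K, k' a = k (a : L))
    {S : L} (h : k S = 1) {S' : K} (hS : (S' : L) = S) (h' : k' S' = 1) (eta : (RO ℤ)ˣ)
    {D : AO ℤ L} (hD : ∀ a ∈ supp D, a ∈ K) (b : Ker k) (hb : ∀ a, iot k K k' hk a ≠ b) :
    (cl k S h eta D).coeff b = 0 := by
  have h1 := cl_gau hk h hS h' eta (res K D)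
  rw [gau_res hD] at h1
  rw [h1, gau_coeff_not _ _ _ _ hb]

theorem rl_coeff_T (q : RO ℤ) (n k : ℤ) :
    (q * LaurentPolynomial.T n).coeff k = q.coeff (k - n) := by
  have h1 : q * LaurentPolynomial.T n = Dcm.mz n 1 * q := by
    rw [mul_comm]
    unfold Dcm.mz
    rw [LaurentPolynomial.single_eq_C_mul_T, map_one, one_mul]
  rw [h1, Dcm.mzs_coeff, one_mul]

/-- Transport of a small factor. -/
theorem ns_trans {k : L →+ ℤ} {K : Submodule ℤ L} {k' : K →+ ℤ} (hk : ∀ a : K, k' a = k (a : L))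
    {S : L} (h : k S = 1) {S' : K} (hS : (S' : L) = S) (h' : k' S' = 1) (eta : (RO ℤ)ˣ)
    {D : AO ℤ L} (hD : ∀ a ∈ supp D, a ∈ K) (gam : K →+ ℤ) (n : ℤ) (V' : AO ℤ (Ker k'))
    (hc : ∀ a j, (V'.coeff a).coeff j ≠ 0 → j = 0)
    (h0 : ∀ a : Ker k', (V'.coeff a).coeff 0 =
      ((cl k' S' h' eta (res K D)).coeff a).coeff (gam (a : K) + n))
    (h1 : ∀ (a : Ker k') (j : ℤ), ((cl k' S' h' eta (res K D)).coeff a).coeff j ≠ 0 →
      j = gam (a : K) + n) (b : Ker k') (e : (RO ℤ)ˣ)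
    (hd : (1 - AddMonoidAlgebra.single b (e : RO ℤ)) ∣ V') :
    ∃ e' : (RO ℤ)ˣ, (1 - AddMonoidAlgebra.single (iot k K k' hk b) (e' : RO ℤ)) ∣
      cl k S h eta D := by
  let γ : Ker k' →+ ℤ := gam.comp (incl (Ker k'))
  have hγ : ∀ a, γ a = gam (a : K) := fun a => rfl
  have hT : ∀ m : ℤ, IsUnit (LaurentPolynomial.T m : RO ℤ) := fun m =>
    LaurentPolynomial.isUnit_T m
  have key : cl k S h eta D = cst (LaurentPolynomial.T n) * gau (iot k K k' hk) γ V' := by
    apply AddMonoidAlgebra.ext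
    apply Finsupp.ext
    intro a
    rw [H78.cstm]
    by_cases ha : ∃ b, iot k K k' hk b = a
    · obtain ⟨b, rfl⟩ := ha
      rw [cl_res hk h hS h' eta hD, gau_coeff (iot_inj k K k' hk)]
      apply AddMonoidAlgebra.ext
      apply Finsupp.ext
      intro j
      have h2 : (LaurentPolynomial.T n : RO ℤ) * (V'.coeff b * LaurentPolynomial.T (γ b)) =
          V'.coeff b * LaurentPolynomial.T (γ b + n) := by
        rw [LaurentPolynomial.T_add]
        ring
      rw [h2, rl_coeff_T, hγ]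
      by_cases h3 : j = gam (b : K) + n
      · rw [h3, sub_self, h0]
      · have h4 : (V'.coeff b).coeff (j - (gam (b : K) + n)) = 0 := by
          by_contra h5
          have := hc b _ h5
          omega
        rw [h4]
        by_contra h5
        exact h3 (h1 b j h5)
    · have h2 : ∀ b, iot k K k' hk b ≠ a := fun b hb => ha ⟨b, hb⟩
      rw [cl_res_not hk h hS h' eta hD a h2, gau_coeff_not _ _ _ _ h2, mul_zero]
  refine ⟨e * (hT (γ b)).unit, ?_⟩
  rw [key]
  have h2 := map_dvd (gau (iot k K k' hk) γ) hd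
  rw [map_sub, map_one, gau_single] at h2
  have h3 : ((e * (hT (γ b)).unit : (RO ℤ)ˣ) : RO ℤ) = (e : RO ℤ) * LaurentPolynomial.T (γ b) :=
    rfl
  rw [h3]
  exact h2.mul_left _

end

end Pool.Agent.B5.Uf
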