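import Pool.Agent.Lib.MP_b5021c_nt.UF.H83.Av
import Pool.Agent.Lib.MP_b5021c_nt.UF.H83.Gen
import Pool.Agent.Lib.MP_b5021c_nt.H47.Mut

/-!
# MP_b5021c_nt, board b5, row UFG_AV (helper83): extension of the gauge
-/

set_option linter.unusedSectionVars false

namespace Pool.Agent.B5.Uf

open scoped LaurentPolynomial
open Pool.Agent.B5 Pool.Agent.B5.H83 Pool.Agent.B5.H96 Polynomial
open Pool.Agent.B5.Dcm (mz mzs_coeff unit_mz)

section

variable {L : Type} [AddCommGroup L] [Module.Free ℤ L] [Module.Finite ℤ L]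

theorem rk_insert_lt {T T' : Set L} (hT : T ⊆ T') {x : L} (hx : x ∈ T')
    (hn : x ∉ satur (Submodule.span ℤ T)) : rk T + 1 ≤ rk T' := by
  have h3 := H07.finrank_sup_eq (H63.satur_sat _) hn
  rw [H07.finrank_satur] at h3
  have h4 : satur (Submodule.span ℤ T) ⊔ Submodule.span ℤ {x} ≤
      satur (Submodule.span ℤ T') := by
    refine sup_le (H63.satur_le ?_) ?_
    · rw [Submodule.span_le]
      intro b hb
      exact H63.le_satur _ (Submodule.subset_span (hT hb))
    · rw [Submodule.span_singleton_le_iff_mem]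
      exact H63.le_satur _ (Submodule.subset_span hx)
  have h5 := Submodule.finrank_mono h4
  rw [h3, H07.finrank_satur] at h5
  exact h5

/-- The rank of the projection along `S ∈ X`. -/
theorem rk_prj (hR : RkS) (k : L →+ ℤ) (S : L) (h : k S = 1) {X : Set L} (hS : S ∈ X) :
    rk (prj k S h '' X) + 1 ≤ rk X := by
  set T := prj k S h '' X with hT
  set K1 : Submodule ℤ L := Submodule.span ℤ (incl (Ker k) '' T) with hK1
  have e1 : Module.finrank ℤ K1 = rk T := by
    have := (hR (Ker k) L).2.2.2.1 (incl (Ker k)) T (incl_inj (Ker k))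
    exact this
  have h1 : satur K1 ≤ Ker k := by
    rintro a ⟨m, hm, ha⟩
    have h2 : K1 ≤ Ker k := by
      rw [hK1, Submodule.span_le]
      rintro _ ⟨b, -, rfl⟩
      exact b.2
    have h3 := h2 ha
    rw [mem_Ker, map_zsmul, smul_eq_mul] at h3
    exact (mul_eq_zero.1 h3).resolve_left hm
  have h2 : S ∉ satur K1 := by
    intro h3
    have h4 := h1 h3
    rw [mem_Ker, h] at h4
    exact one_ne_zero h4
  have h3 := H07.finrank_sup_eq (H63.satur_sat K1) h2
  rw [H07.finrank_satur, e1] at h3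
  have h4 : satur K1 ⊔ Submodule.span ℤ {S} ≤ satur (Submodule.span ℤ X) := by
    refine sup_le (H63.satur_le ?_) ?_
    · rw [hK1, Submodule.span_le]
      rintro _ ⟨b, hb, rfl⟩
      obtain ⟨a, ha, hab⟩ := hb
      apply H63.le_satur
      rw [incl_apply, ← hab, prj_coe]
      exact Submodule.sub_mem _ (Submodule.subset_span ha)
        (Submodule.smul_mem _ _ (Submodule.subset_span hS))
    · rw [Submodule.span_singleton_le_iff_mem]
      exact H63.le_satur _ (Submodule.subset_span hS)
  have h5 := Submodule.finrank_mono h4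
  rw [h3, H07.finrank_satur] at h5
  exact h5

/-- The rank of the projection of a spanning set. -/
theorem rk_prj_full (hR : RkS) (k : L →+ ℤ) (S : L) (h : k S = 1) {X : Set L}
    (hX : rk X = Module.finrank ℤ L) : Module.finrank ℤ (Ker k) ≤ rk (prj k S h '' X) := by
  have h0 := (hR L L).1 k (by
    intro h8
    rw [h8] at h
    exact zero_ne_one h)
  have h1 : rk X ≤ rk ((incl (Ker k) '' (prj k S h '' X)) ∪ {S}) := by
    refine (hR L L).2.2.2.2.2.2.2.2.1 _ _ fun a ha => ⟨1, one_ne_zero, ?_⟩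
    rw [one_smul]
    have h2 : a = incl (Ker k) (prj k S h a) + k a • S := by
      rw [incl_apply, prj_coe, sub_add_cancel]
    rw [h2]
    exact Submodule.add_mem _ (Submodule.subset_span (Or.inl ⟨_, ⟨a, ha, rfl⟩, rfl⟩))
      (Submodule.smul_mem _ _ (Submodule.subset_span (Or.inr rfl)))
  have h2 := (hR L L).2.2.2.2.2.1 (incl (Ker k) '' (prj k S h '' X)) {S}
  have h3 := (hR (Ker k) L).2.2.2.1 (incl (Ker k)) (prj k S h '' X) (incl_inj (Ker k))
  have hS0 : S ≠ 0 := by
    rintro rfl
    rw [map_zero] at h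
    exact zero_ne_one h
  have h4 := (hR L L).2.2.2.2.2.2.1 S hS0
  omega

/-- The level of a gauge. -/
def Lvg (E : AO ℤ L) (k : L →+ ℤ) (S : L) (h : k S = 1) (ke n : ℤ) (q : ℕ) (l : Ker k →+ ℤ) :
    Set L :=
  {a | ∃ j : ℤ, (E.coeff a).coeff j ≠ 0 ∧ (q : ℤ) * (j + ke * k a) = l (prj k S h a) + q * n}

theorem mem_supp_of {E : AO ℤ L} {a : L} {j : ℤ} (h : (E.coeff a).coeff j ≠ 0) : a ∈ supp E := by
  intro h3
  have h5 : E.coeff a = 0 := h3
  rw [h5] at h
  exact h rfl

theorem exists_co {L' : Type} [AddCommGroup L'] {E : AO ℤ L'} {a : L'} (h : a ∈ supp E) :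
    ∃ j : ℤ, (E.coeff a).coeff j ≠ 0 := by
  by_contra hcon
  push Not at hcon
  apply h
  apply AddMonoidAlgebra.ext
  exact Finsupp.ext hcon

/-- The gauge of a z-free closing can be chosen such that the level has full rank. -/
theorem gex (hR : RkS) (hGen : GenS) {k : L →+ ℤ} {S : L} {h : k S = 1} {eta : (RO ℤ)ˣ}
    {E : AO ℤ L} {ke n : ℤ} {se : ℤˣ} (hse : (eta : RO ℤ) = mz ke (se : ℤ))
    (hbin : ∀ a ∈ supp E, k a = 0 ∨ k a = 1) (hspn : rk (supp E) = Module.finrank ℤ L) :
    ∀ (d : ℕ) (q : ℕ) (l : Ker k →+ ℤ), 0 < q →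
      Module.finrank ℤ (Ker k) ≤ rk (prj k S h '' Lvg E k S h ke n q l) + d →
      (∀ a j, ((cl k S h eta E).coeff a).coeff j ≠ 0 → (q : ℤ) * j = l a + q * n) →
      ∃ (q' : ℕ) (l' : Ker k →+ ℤ), 0 < q' ∧
        Module.finrank ℤ (Ker k) ≤ rk (prj k S h '' Lvg E k S h ke n q' l') ∧
        (∀ a j, ((cl k S h eta E).coeff a).coeff j ≠ 0 → (q' : ℤ) * j = l' a + q' * n) := by
  classical
  intro d
  induction d with
  | zero =>
    intro q l hq hd hV
    exact ⟨q, l, hq, hd, hV⟩
  | succ d ih =>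
    intro q l hq hd hV
    by_cases hfull : Module.finrank ℤ (Ker k) ≤ rk (prj k S h '' Lvg E k S h ke n q l)
    · exact ⟨q, l, hq, hfull, hV⟩
    rw [not_le] at hfull
    set Lv := Lvg E k S h ke n q l with hLv
    set Ks : Submodule ℤ (Ker k) := satur (Submodule.span ℤ (prj k S h '' Lv)) with hKs
    obtain ⟨a, ha, han⟩ : ∃ a ∈ supp E, prj k S h a ∉ Ks := by
      by_contra hcon
      push Not at hcon
      have h1 : rk (prj k S h '' supp E) ≤ rk (prj k S h '' Lv) := by
        refine (hR (Ker k) (Ker k)).2.2.2.2.2.2.2.2.1 _ _ ?_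
        rintro _ ⟨a, ha, rfl⟩
        exact hcon a ha
      have h2 := rk_prj_full hR k S h hspn
      omega
    obtain ⟨mu, hmK, -, hmT⟩ := hGen (Ker k) ∅ {0, prj k S h a} Ks 0 (fun _ _ => rfl)
      (H63.satur_sat _) (fun a ha => absurd ha (Finset.notMem_empty a)) (by
        intro x hx y hy hxy
        simp only [Finset.mem_insert, Finset.mem_singleton] at hx hy
        rcases hx with rfl | rfl <;> rcases hy with rfl | rfl
        · rfl
        · rw [zero_sub] at hxy
          exact absurd (by simpa using Ks.neg_mem hxy) han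
        · rw [sub_zero] at hxy
          exact absurd hxy han
        · rfl)
    have hma : mu (prj k S h a) ≠ 0 := by
      intro h0
      apply han
      have h1 := hmT 0 (Finset.mem_insert_self _ _) (prj k S h a)
        (Finset.mem_insert_of_mem (Finset.mem_singleton_self _)) (by rw [map_zero, h0])
      rw [← h1]
      exact Ks.zero_mem
    obtain ⟨j, hj⟩ := exists_co ha
    set ma := mu (prj k S h a) with hmadef
    set D : ℤ := q * (j + ke * k a) - l (prj k S h a) - q * n with hD
    have hnat : ((ma.natAbs : ℕ) : ℤ) = ma.sign * ma := by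
      rw [Int.sign_mul_self_eq_abs, Int.abs_eq_natAbs]
    let l' : Ker k →+ ℤ := (AddMonoidHom.mulLeft ((ma.natAbs : ℕ) : ℤ)).comp l +
      (AddMonoidHom.mulLeft (D * ma.sign)).comp mu
    have hl' : ∀ b, l' b = (ma.natAbs : ℕ) * l b + D * ma.sign * mu b := fun b => rfl
    have hpos : 0 < ma.natAbs := Int.natAbs_pos.2 hma
    have hLsub : Lv ⊆ Lvg E k S h ke n (q * ma.natAbs) l' := by
      rintro b ⟨i, hi, hbi⟩
      refine ⟨i, hi, ?_⟩
      have h1 : mu (prj k S h b) = 0 :=
        hmK _ (H63.le_satur _ (Submodule.subset_span ⟨b, ⟨i, hi, hbi⟩, rfl⟩))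
      rw [hl', h1, mul_zero, add_zero, Nat.cast_mul]
      linear_combination (ma.natAbs : ℤ) * hbi
    have haL : a ∈ Lvg E k S h ke n (q * ma.natAbs) l' := by
      refine ⟨j, hj, ?_⟩
      rw [hl', ← hmadef, mul_assoc D, ← hnat, hD, Nat.cast_mul]
      ring
    refine ih (q * ma.natAbs) l' (Nat.mul_pos hq hpos) ?_ ?_
    · have h1 := rk_insert_lt (T := prj k S h '' Lv)
        (T' := prj k S h '' Lvg E k S h ke n (q * ma.natAbs) l') (Set.image_mono hLsub)
        ⟨a, haL, rfl⟩ han
      omega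
    · intro b i hi
      have h1 := hV b i hi
      have h2 : b ∈ prj k S h '' Lv := by
        rw [H47.cl_coeff_bin k S h eta E hbin b] at hi
        change ((E.coeff (b : L)).coeff i + ((eta : RO ℤ) * E.coeff ((b : L) + S)).coeff i) ≠ 0
          at hi
        rw [hse, mzs_coeff] at hi
        have hb0 : k (b : L) = 0 := b.2
        by_cases h3 : (E.coeff (b : L)).coeff i = 0
        · rw [h3, zero_add] at hi
          have h4 : prj k S h ((b : L) + S) = b := by
            apply Subtype.ext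
            rw [prj_coe, map_add, hb0, h, zero_add, one_smul, add_sub_cancel_right]
          refine ⟨(b : L) + S, ⟨i - ke, right_ne_zero_of_mul hi, ?_⟩, h4⟩
          rw [h4, map_add, hb0, h, zero_add, mul_one, sub_add_cancel]
          exact h1
        · have h4 : prj k S h (b : L) = b := by
            apply Subtype.ext
            rw [prj_coe, hb0, zero_smul, sub_zero]
          refine ⟨(b : L), ⟨i, h3, ?_⟩, h4⟩
          rw [h4, hb0, mul_zero, add_zero]
          exact h1
      have h3 : mu b = 0 := hmK _ (H63.le_satur _ (Submodule.subset_span h2))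
      rw [hl', h3, mul_zero, add_zero, Nat.cast_mul]
      linear_combination (ma.natAbs : ℤ) * h1

end

end Pool.Agent.B5.Uf
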