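import Pool.Agent.Lib.MP_b5021c_nt.B.H79.C0D
import Mathlib.Analysis.Polynomial.Fourier
import Mathlib.Analysis.Complex.MeanValue

/-!
# MP_b5021c_nt (helper83): Schur and Caratheodory functions with `k` poles in the disc

If `|A| ≤ |B|` on the circle, `B` has at most `k` zeros in the open disc and `A = B r` modulo
`X^(n+1)`, then every space of dimension `k + 1` of polynomials of degree at most `n` contains a
vector `u ≠ 0` (combination) such that the truncation of `r u` is not longer than `u`.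
-/

set_option linter.unusedSectionVars false

namespace Pool.Agent.B5.Krein

open Polynomial Finset
open scoped ComplexConjugate Topology

theorem ci {f : ℂ → ℝ} (h : Continuous f) : CircleIntegrable f 0 1 :=
  h.continuousOn.circleIntegrable zero_le_one

theorem ciOn {E : Type} [NormedAddCommGroup E] {f : ℂ → E}
    (h : ContinuousOn f (Metric.sphere 0 1)) : CircleIntegrable f 0 1 :=
  h.circleIntegrable zero_le_one

/-- Parseval. -/
theorem pars {n : ℕ} {U : ℂ[X]} (hU : U.natDegree ≤ n) :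
    ∑ j ∈ range (n + 1), ‖U.coeff j‖ ^ 2 = Real.circleAverage (fun z => ‖U.eval z‖ ^ 2) 0 1 := by
  rw [← Polynomial.sum_sq_norm_coeff_eq_circleAverage]
  symm
  refine Finset.sum_subset ?_ ?_
  · intro j hj
    rw [mem_range]
    have := le_natDegree_of_mem_supp j hj
    lia
  · intro j _ hj
    rw [notMem_support_iff.mp hj, norm_zero]
    norm_num

/-- The conjugate of a polynomial on the circle. -/
theorem conj_circ {n : ℕ} {U : ℂ[X]} (hU : U.natDegree ≤ n) {z : ℂ} (hz : ‖z‖ = 1) :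
    conj (U.eval z) * z ^ n =
      (∑ j ∈ range (n + 1), C (conj (U.coeff j)) * X ^ (n - j) : ℂ[X]).eval z := by
  have h1 : z * conj z = 1 := by
    rw [Complex.mul_conj, Complex.normSq_eq_norm_sq, hz, one_pow, Complex.ofReal_one]
  rw [eval_finsetSum, eval_eq_sum_range' (show U.natDegree < n + 1 by lia), map_sum, Finset.sum_mul]
  refine Finset.sum_congr rfl fun j hj => ?_
  rw [mem_range] at hj
  rw [map_mul, map_pow, eval_mul, eval_C, eval_pow, eval_X]
  have h2 : z ^ n = z ^ j * z ^ (n - j) := by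
    rw [← pow_add]
    congr 1
    lia
  rw [h2]
  have h3 : conj z ^ j * z ^ j = 1 := by rw [← mul_pow, mul_comm (conj z), h1, one_pow]
  linear_combination (conj (U.coeff j) * z ^ (n - j)) * h3

/-- Orthogonality of the tail. -/
theorem tail {n : ℕ} {U R Q : ℂ[X]} (hU : U.natDegree ≤ n)
    (hQ : ∀ z : ℂ, ‖z‖ ≤ 1 → Q.eval z ≠ 0) :
    Real.circleAverage (fun z => conj (U.eval z) * (z ^ (n + 1) * (R.eval z / Q.eval z))) 0 1
      = 0 := by
  obtain ⟨V, hV⟩ : ∃ V, V = (∑ j ∈ range (n + 1), C (conj (U.coeff j)) * X ^ (n - j) : ℂ[X]) :=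
    ⟨_, rfl⟩
  have h1 : Real.circleAverage
      (fun z => conj (U.eval z) * (z ^ (n + 1) * (R.eval z / Q.eval z))) 0 1 =
      Real.circleAverage (fun z => (X * V * R).eval z / Q.eval z) 0 1 := by
    apply Real.circleAverage_congr_sphere
    intro z hz
    rw [abs_one, mem_sphere_zero_iff_norm] at hz
    have h2 := conj_circ hU hz
    rw [← hV] at h2
    change conj (U.eval z) * (z ^ (n + 1) * (R.eval z / Q.eval z)) = (X * V * R).eval z / Q.eval z
    rw [eval_mul, eval_mul, eval_X, ← h2, pow_succ]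
    ring
  have hcl : closure (Metric.ball (0 : ℂ) |1|) = Metric.closedBall 0 1 := by
    rw [abs_one]
    exact closure_ball 0 one_ne_zero
  have hd : DiffContOnCl ℂ (fun w : ℂ => (X * V * R).eval w / Q.eval w) (Metric.ball 0 |1|) := by
    constructor
    · intro w hw
      rw [abs_one] at hw
      have hw' : ‖w‖ ≤ 1 := by simpa using (Metric.mem_ball.mp hw).le
      exact ((X * V * R).differentiable.differentiableAt.div Q.differentiable.differentiableAt
        (hQ w hw')).differentiableWithinAt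
    · rw [hcl]
      intro w hw
      have hw' : ‖w‖ ≤ 1 := by simpa using hw
      exact ((X * V * R).differentiable.differentiableAt.div Q.differentiable.differentiableAt
        (hQ w hw')).continuousAt.continuousWithinAt
  rw [h1, hd.circleAverage]
  simp

theorem avg_re {f : ℂ → ℂ} (hf : ContinuousOn f (Metric.sphere 0 1)) :
    Real.circleAverage (fun z => (f z).re) 0 1 = (Real.circleAverage f 0 1).re :=
  (ContinuousLinearMap.circleAverage_comp_comm Complex.reCLM (ciOn hf))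

/-- Bessel: `|P| ≤ |Q U|` on the circle, `Q` zero-free in the closed disc. -/
theorem bessel0 {n : ℕ} {P Q U S : ℂ[X]} (hQ : ∀ z : ℂ, ‖z‖ ≤ 1 → Q.eval z ≠ 0)
    (hle : ∀ z : ℂ, ‖z‖ = 1 → ‖P.eval z‖ ≤ ‖Q.eval z‖ * ‖U.eval z‖) (hS : S.natDegree ≤ n)
    (hU : U.natDegree ≤ n) (hd : X ^ (n + 1) ∣ P - Q * S) :
    ∑ j ∈ range (n + 1), ‖S.coeff j‖ ^ 2 ≤ ∑ j ∈ range (n + 1), ‖U.coeff j‖ ^ 2 := by
  obtain ⟨R, hR⟩ := hd
  have hcQ : ContinuousOn (fun z : ℂ => R.eval z / Q.eval z) (Metric.sphere 0 1) := by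
    apply R.continuous.continuousOn.div Q.continuous.continuousOn
    intro z hz
    rw [mem_sphere_zero_iff_norm] at hz
    exact hQ z hz.le
  have hc1 : ContinuousOn (fun z : ℂ => conj (S.eval z) * (z ^ (n + 1) * (R.eval z / Q.eval z)))
      (Metric.sphere 0 1) := by
    refine ContinuousOn.mul ?_ (ContinuousOn.mul (by fun_prop) hcQ)
    exact (Complex.continuous_conj.comp S.continuous).continuousOn
  have hpt : ∀ z : ℂ, ‖z‖ = 1 → ‖S.eval z‖ ^ 2 +
      2 * (conj (S.eval z) * (z ^ (n + 1) * (R.eval z / Q.eval z))).re ≤ ‖U.eval z‖ ^ 2 := by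
    intro z hz
    have hq := hQ z hz.le
    have h1 : P.eval z = Q.eval z * (S.eval z + z ^ (n + 1) * (R.eval z / Q.eval z)) := by
      have h2 := congrArg (fun f : ℂ[X] => f.eval z) hR
      simp only [eval_sub, eval_mul, eval_pow, eval_X] at h2
      field_simp
      linear_combination h2
    have h3 := hle z hz
    rw [h1, norm_mul] at h3
    have h4 := le_of_mul_le_mul_left h3 (norm_pos_iff.mpr hq)
    have h5 := pow_le_pow_left₀ (norm_nonneg _) h4 2
    obtain ⟨a, ha⟩ : ∃ a, a = S.eval z := ⟨_, rfl⟩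
    obtain ⟨t, ht⟩ : ∃ t, t = z ^ (n + 1) * (R.eval z / Q.eval z) := ⟨_, rfl⟩
    rw [← ha, ← ht] at h5 ⊢
    have h6 : ‖a + t‖ ^ 2 = ‖a‖ ^ 2 + 2 * (conj a * t).re + ‖t‖ ^ 2 := by
      rw [← Complex.normSq_eq_norm_sq, ← Complex.normSq_eq_norm_sq, ← Complex.normSq_eq_norm_sq,
        Complex.normSq_apply, Complex.normSq_apply, Complex.normSq_apply, Complex.mul_re,
        Complex.conj_re, Complex.conj_im, Complex.add_re, Complex.add_im]
      ring
    rw [h6] at h5
    have h7 := sq_nonneg ‖t‖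
    linarith
  rw [pars hS, pars hU]
  have h1 : Real.circleAverage (fun z => ‖S.eval z‖ ^ 2 +
      2 * (conj (S.eval z) * (z ^ (n + 1) * (R.eval z / Q.eval z))).re) 0 1 ≤
      Real.circleAverage (fun z => ‖U.eval z‖ ^ 2) 0 1 := by
    apply Real.circleAverage_mono
    · apply ciOn
      refine ContinuousOn.add (by fun_prop) ?_
      exact continuousOn_const.mul (Complex.continuous_re.comp_continuousOn hc1)
    · exact ci (by fun_prop)
    · intro z hz
      rw [abs_one, mem_sphere_zero_iff_norm] at hz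
      exact hpt z hz
  have h2 : Real.circleAverage (fun z => ‖S.eval z‖ ^ 2 +
      2 * (conj (S.eval z) * (z ^ (n + 1) * (R.eval z / Q.eval z))).re) 0 1 =
      Real.circleAverage (fun z => ‖S.eval z‖ ^ 2) 0 1 := by
    have hadd := Real.circleAverage_fun_add (c := 0) (R := 1) (f₁ := fun z => ‖S.eval z‖ ^ 2)
      (f₂ := fun z => 2 * (conj (S.eval z) * (z ^ (n + 1) * (R.eval z / Q.eval z))).re)
      (ci (by fun_prop))
      (ciOn (continuousOn_const.mul (Complex.continuous_re.comp_continuousOn hc1)))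
    rw [hadd]
    have h3 : Real.circleAverage (fun z => 2 *
        (conj (S.eval z) * (z ^ (n + 1) * (R.eval z / Q.eval z))).re) 0 1 = 0 := by
      have h4 := Real.circleAverage_fun_smul (a := (2 : ℝ)) (c := 0) (R := 1)
        (f := fun z => (conj (S.eval z) * (z ^ (n + 1) * (R.eval z / Q.eval z))).re)
      simp only [smul_eq_mul] at h4
      rw [h4, avg_re hc1, tail hS hQ]
      simp
    rw [h3, add_zero]
  rw [h2] at h1
  exact h1

/-- Common zeros on the circle are removed. -/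
theorem reduce : ∀ (m : ℕ) (P Q U : ℂ[X]), Q.natDegree = m → (∀ z : ℂ, ‖z‖ < 1 → Q.eval z ≠ 0) →
    (∀ z : ℂ, ‖z‖ = 1 → ‖P.eval z‖ ≤ ‖Q.eval z‖ * ‖U.eval z‖) →
    ∃ P' Q' : ℂ[X], (∀ z : ℂ, ‖z‖ ≤ 1 → Q'.eval z ≠ 0) ∧
      (∀ z : ℂ, ‖z‖ = 1 → ‖P'.eval z‖ ≤ ‖Q'.eval z‖ * ‖U.eval z‖) ∧ P * Q' = P' * Q := by
  intro m
  induction m using Nat.strong_induction_on with
  | _ m ih =>
    intro P Q U hm hzf hle
    have hQ0 : Q ≠ 0 := by
      rintro rfl
      exact hzf 0 (by simp) (by simp)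
    by_cases hroot : ∃ a : ℂ, ‖a‖ = 1 ∧ Q.eval a = 0
    · obtain ⟨a, hna, ha⟩ := hroot
      have hPa : P.eval a = 0 := by
        have h1 := hle a hna
        rw [ha, norm_zero, zero_mul] at h1
        exact norm_le_zero_iff.mp h1
      obtain ⟨Q1, hQ1⟩ := dvd_iff_isRoot.mpr (IsRoot.def.mpr ha)
      obtain ⟨P1, hP1⟩ := dvd_iff_isRoot.mpr (IsRoot.def.mpr hPa)
      have hQ10 : Q1 ≠ 0 := by
        rintro rfl
        apply hQ0
        rw [hQ1, mul_zero]
      have hnat : Q1.natDegree < m := by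
        have h2 := natDegree_mul (X_sub_C_ne_zero a) hQ10
        rw [← hQ1, hm, natDegree_X_sub_C] at h2
        omega
      have hfac : ∀ w : ℂ, ‖P.eval w‖ = ‖(X - C a).eval w‖ * ‖P1.eval w‖ := by
        intro w
        rw [hP1, eval_mul, norm_mul]
      have hfac2 : ∀ w : ℂ, ‖Q.eval w‖ = ‖(X - C a).eval w‖ * ‖Q1.eval w‖ := by
        intro w
        rw [hQ1, eval_mul, norm_mul]
      obtain ⟨P', Q', h1, h2, h3⟩ := ih _ hnat P1 Q1 U rfl
        (fun w hw h0 => hzf w hw (by rw [hQ1, eval_mul, h0, mul_zero]))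
        (by
          have hcl : IsClosed {w : ℂ | ‖P1.eval w‖ ≤ ‖Q1.eval w‖ * ‖U.eval w‖} :=
            isClosed_le P1.continuous.norm (Q1.continuous.norm.mul U.continuous.norm)
          have hsub : {w : ℂ | ‖w‖ = 1 ∧ w ≠ a} ⊆
              {w : ℂ | ‖P1.eval w‖ ≤ ‖Q1.eval w‖ * ‖U.eval w‖} := by
            rintro w ⟨hw1, hwa⟩
            have h3 := hle w hw1
            rw [hfac, hfac2, mul_assoc] at h3
            have h4 : 0 < ‖(X - C a).eval w‖ := by
              rw [eval_sub, eval_X, eval_C, norm_pos_iff]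
              exact sub_ne_zero.mpr hwa
            exact le_of_mul_le_mul_left h3 h4
          intro w hw
          by_cases hwa : w = a
          · rw [hwa]
            exact closure_minimal hsub hcl (H79.mem_closure_circle a hna)
          · exact hsub ⟨hw, hwa⟩)
      refine ⟨P', Q', h1, h2, ?_⟩
      rw [hQ1, hP1]
      linear_combination (X - C a) * h3
    · push Not at hroot
      refine ⟨P, Q, ?_, hle, rfl⟩
      intro w hw
      rcases hw.lt_or_eq with h | h
      · exact hzf w h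
      · exact hroot w h

/-- Bessel: `|P| ≤ |Q U|` on the circle, `Q` zero-free in the open disc. -/
theorem bessel {n : ℕ} {P Q U S : ℂ[X]} (hQ : ∀ z : ℂ, ‖z‖ < 1 → Q.eval z ≠ 0)
    (hle : ∀ z : ℂ, ‖z‖ = 1 → ‖P.eval z‖ ≤ ‖Q.eval z‖ * ‖U.eval z‖) (hS : S.natDegree ≤ n)
    (hU : U.natDegree ≤ n) (hd : X ^ (n + 1) ∣ P - Q * S) :
    ∑ j ∈ range (n + 1), ‖S.coeff j‖ ^ 2 ≤ ∑ j ∈ range (n + 1), ‖U.coeff j‖ ^ 2 := by
  obtain ⟨P', Q', h1, h2, h3⟩ := reduce _ P Q U rfl hQ hle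
  refine bessel0 h1 h2 hS hU ?_
  have h4 : X ^ (n + 1) ∣ Q * (P' - Q' * S) := by
    have h5 : Q * (P' - Q' * S) = Q' * (P - Q * S) := by linear_combination -h3
    rw [h5]
    exact hd.mul_left _
  have h6 : IsCoprime (X ^ (n + 1)) Q := by
    apply IsCoprime.pow_left
    rw [(irreducible_X (R := ℂ)).coprime_iff_not_dvd, X_dvd_iff, coeff_zero_eq_eval_zero]
    exact hQ 0 (by simp)
  exact h6.dvd_of_dvd_mul_left h4

/-- A combination divisible by a given polynomial. -/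
theorem exists_comb {k : ℕ} {W : ℂ[X]} (hW : W.Monic) (hk : W.natDegree ≤ k)
    (u : Fin (k + 1) → ℂ[X]) : ∃ c : Fin (k + 1) → ℂ, c ≠ 0 ∧ W ∣ ∑ i, C (c i) * u i := by
  let f : (Fin (k + 1) → ℂ) →ₗ[ℂ] (Fin k → ℂ) :=
    { toFun := fun c j => ((∑ i, C (c i) * u i) %ₘ W).coeff j
      map_add' := fun c d => by
        funext j
        have h1 : (∑ i, C ((c + d) i) * u i) = (∑ i, C (c i) * u i) + ∑ i, C (d i) * u i := by
          rw [← Finset.sum_add_distrib]
          refine Finset.sum_congr rfl fun i _ => ?_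
          rw [Pi.add_apply, C_add]
          ring
        rw [h1, add_modByMonic, coeff_add]
        rfl
      map_smul' := fun a c => by
        funext j
        have h1 : (∑ i, C ((a • c) i) * u i) = a • (∑ i, C (c i) * u i) := by
          rw [smul_eq_C_mul, Finset.mul_sum]
          refine Finset.sum_congr rfl fun i _ => ?_
          rw [Pi.smul_apply, smul_eq_mul, C_mul]
          ring
        rw [h1, smul_modByMonic, coeff_smul]
        rfl }
  have hker : LinearMap.ker f ≠ ⊥ := by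
    apply LinearMap.ker_ne_bot_of_finrank_lt
    simp
  obtain ⟨c, hc, hc0⟩ := (Submodule.ne_bot_iff _).mp hker
  refine ⟨c, hc0, ?_⟩
  rw [← modByMonic_eq_zero_iff_dvd hW]
  ext j
  rw [coeff_zero]
  have h1 : f c = 0 := hc
  by_cases hj : j < k
  · have h2 := congrFun h1 ⟨j, hj⟩
    exact h2
  · apply coeff_eq_zero_of_degree_lt
    refine (degree_modByMonic_lt _ hW).trans_le ?_
    rw [degree_eq_natDegree hW.ne_zero]
    exact_mod_cast (by lia : W.natDegree ≤ j)

/-- The factor of the zeros in the open disc. -/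
theorem split_disc {B : ℂ[X]} (hB : B ≠ 0) {k : ℕ}
    (hk : (B.roots.filter fun z => ‖z‖ < 1).card ≤ k) :
    ∃ W B1 : ℂ[X], W.Monic ∧ W.natDegree ≤ k ∧ B = W * B1 ∧ ∀ z : ℂ, ‖z‖ < 1 → B1.eval z ≠ 0 := by
  classical
  obtain ⟨s, hs⟩ : ∃ s, s = B.roots.filter fun z => ‖z‖ < 1 := ⟨_, rfl⟩
  obtain ⟨W, hW⟩ : ∃ W : ℂ[X], W = (s.map fun a => X - C a).prod := ⟨_, rfl⟩
  have hmon : W.Monic := by
    rw [hW]
    exact monic_multiset_prod_of_monic s (fun a : ℂ => X - C a) fun a _ => monic_X_sub_C a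
  have hWr : W.roots = s := by
    rw [hW]
    exact roots_multiset_prod_X_sub_C s
  have hWd : W.natDegree = s.card := by
    rw [hW]
    exact natDegree_multiset_prod_X_sub_C_eq_card s
  have hdvd : W ∣ B := by
    rw [hW, Multiset.prod_X_sub_C_dvd_iff_le_roots hB, hs]
    exact Multiset.filter_le _ _
  obtain ⟨B1, hB1⟩ := hdvd
  have hB10 : B1 ≠ 0 := by
    rintro rfl
    rw [mul_zero] at hB1
    exact hB hB1
  refine ⟨W, B1, hmon, by rw [hWd, hs]; exact hk, hB1, ?_⟩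
  intro z hz h0
  have h1 : B.roots = s + B1.roots := by
    rw [hB1, roots_mul (mul_ne_zero hmon.ne_zero hB10), hWr]
  have h2 : s = s + B1.roots.filter fun z => ‖z‖ < 1 := by
    conv_lhs => rw [hs, h1, Multiset.filter_add]
    congr 1
    rw [hs, Multiset.filter_filter]
    simp
  have h3 : (B1.roots.filter fun z => ‖z‖ < 1) = 0 := by
    have h4 := congrArg Multiset.card h2
    rw [Multiset.card_add] at h4
    exact Multiset.card_eq_zero.mp (by lia)
  have h4 : z ∈ B1.roots.filter fun z => ‖z‖ < 1 :=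
    Multiset.mem_filter.mpr ⟨(mem_roots hB10).mpr h0, hz⟩
  rw [h3] at h4
  exact Multiset.notMem_zero z h4

/-- Truncation. -/
noncomputable def tr (n : ℕ) (f : ℂ[X]) : ℂ[X] := ∑ j ∈ range (n + 1), C (f.coeff j) * X ^ j

theorem tr_coeff (n : ℕ) (f : ℂ[X]) (j : ℕ) :
    (tr n f).coeff j = if j ≤ n then f.coeff j else 0 := by
  unfold tr
  rw [finsetSum_coeff]
  simp only [coeff_C_mul_X_pow]
  rw [Finset.sum_ite_eq]
  simp only [mem_range, Nat.lt_succ_iff]

theorem tr_deg (n : ℕ) (f : ℂ[X]) : (tr n f).natDegree ≤ n := by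
  rw [natDegree_le_iff_coeff_eq_zero]
  intro j hj
  rw [tr_coeff, if_neg (by lia)]

theorem tr_dvd (n : ℕ) (f : ℂ[X]) : X ^ (n + 1) ∣ f - tr n f := by
  rw [X_pow_dvd_iff]
  intro j hj
  rw [coeff_sub, tr_coeff, if_pos (by lia), sub_self]

/-- SCHUR FUNCTIONS WITH `k` POLES. -/
theorem schur {n k : ℕ} {A B : ℂ[X]} (hB : B ≠ 0)
    (hk : (B.roots.filter fun z => ‖z‖ < 1).card ≤ k)
    (hle : ∀ z : ℂ, ‖z‖ = 1 → ‖A.eval z‖ ≤ ‖B.eval z‖) {r : ℂ[X]}
    (hr : X ^ (n + 1) ∣ A - B * r) (u : Fin (k + 1) → ℂ[X]) (hu : ∀ i, (u i).natDegree ≤ n) :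
    ∃ c : Fin (k + 1) → ℂ, c ≠ 0 ∧
      ∑ j ∈ range (n + 1), ‖(r * ∑ i, C (c i) * u i).coeff j‖ ^ 2 ≤
        ∑ j ∈ range (n + 1), ‖(∑ i, C (c i) * u i).coeff j‖ ^ 2 := by
  obtain ⟨W, B1, hmon, hWk, hBW, hB1⟩ := split_disc hB hk
  obtain ⟨c, hc0, V, hV⟩ := exists_comb hmon hWk u
  refine ⟨c, hc0, ?_⟩
  obtain ⟨U, hU⟩ : ∃ U, U = ∑ i, C (c i) * u i := ⟨_, rfl⟩
  rw [← hU] at hV ⊢
  have hUd : U.natDegree ≤ n := by
    rw [hU]
    refine natDegree_sum_le_of_forall_le _ _ fun i _ => ?_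
    exact (natDegree_C_mul_le _ _).trans (hu i)
  have hW0 : ∀ z : ℂ, ‖z‖ = 1 → ‖(A * V).eval z‖ ≤ ‖B1.eval z‖ * ‖U.eval z‖ := by
    intro z hz
    rw [hV, eval_mul, eval_mul, norm_mul, norm_mul]
    have h1 := hle z hz
    rw [hBW, eval_mul, norm_mul] at h1
    nlinarith [mul_le_mul_of_nonneg_right h1 (norm_nonneg (V.eval z))]
  have h1 : ∀ j ∈ range (n + 1), ‖(r * U).coeff j‖ ^ 2 = ‖(tr n (r * U)).coeff j‖ ^ 2 := by
    intro j hj
    rw [mem_range] at hj
    rw [tr_coeff, if_pos (by lia)]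
  rw [Finset.sum_congr rfl h1]
  refine bessel hB1 hW0 (tr_deg n _) hUd ?_
  have h2 : A * V - B1 * tr n (r * U) = V * (A - B * r) + B1 * (r * U - tr n (r * U)) := by
    rw [hBW, hV]
    ring
  rw [h2]
  exact dvd_add (hr.mul_left _) ((tr_dvd n _).mul_left _)

/-! ## Caratheodory functions -/

/-- Parseval for two polynomials, real part. -/
theorem pars2 {n : ℕ} {U V : ℂ[X]} (hU : U.natDegree ≤ n) (hV : V.natDegree ≤ n) :
    Real.circleAverage (fun z => (conj (U.eval z) * V.eval z).re) 0 1 =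
      ∑ j ∈ range (n + 1), (conj (U.coeff j) * V.coeff j).re := by
  have hid : ∀ a b : ℂ, ‖a + b‖ ^ 2 = ‖a‖ ^ 2 + 2 * (conj a * b).re + ‖b‖ ^ 2 := by
    intro a t
    rw [← Complex.normSq_eq_norm_sq, ← Complex.normSq_eq_norm_sq, ← Complex.normSq_eq_norm_sq,
      Complex.normSq_apply, Complex.normSq_apply, Complex.normSq_apply, Complex.mul_re,
      Complex.conj_re, Complex.conj_im, Complex.add_re, Complex.add_im]
    ring
  have hUV : (U + V).natDegree ≤ n := (natDegree_add_le _ _).trans (max_le hU hV)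
  have h1 := pars hUV
  have h2 := pars hU
  have h3 := pars hV
  simp only [coeff_add, eval_add, hid] at h1
  have e1 : Continuous fun z => ‖U.eval z‖ ^ 2 := by fun_prop
  have e2 : Continuous fun z => 2 * (conj (U.eval z) * V.eval z).re := by
    apply Continuous.mul continuous_const
    exact Complex.continuous_re.comp ((Complex.continuous_conj.comp U.continuous).mul V.continuous)
  have e3 : Continuous fun z => ‖V.eval z‖ ^ 2 := by fun_prop
  have h4 := Real.circleAverage_fun_add (c := 0) (R := 1)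
    (f₁ := fun z => ‖U.eval z‖ ^ 2 + 2 * (conj (U.eval z) * V.eval z).re)
    (f₂ := fun z => ‖V.eval z‖ ^ 2) (ci (e1.add e2)) (ci e3)
  have h5 := Real.circleAverage_fun_add (c := 0) (R := 1)
    (f₁ := fun z => ‖U.eval z‖ ^ 2) (f₂ := fun z => 2 * (conj (U.eval z) * V.eval z).re)
    (ci e1) (ci e2)
  have h6 := Real.circleAverage_fun_smul (a := (2 : ℝ)) (c := 0) (R := 1)
    (f := fun z => (conj (U.eval z) * V.eval z).re)
  simp only [smul_eq_mul] at h6
  rw [h4, h5, h6, ← h2, ← h3, Finset.sum_add_distrib, Finset.sum_add_distrib,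
    ← Finset.mul_sum] at h1
  linarith

theorem toep0 {n : ℕ} {P Q U S : ℂ[X]} (hQ : ∀ z : ℂ, ‖z‖ ≤ 1 → Q.eval z ≠ 0)
    (hre : ∀ z : ℂ, ‖z‖ = 1 → 0 ≤ (conj (U.eval z) * (P.eval z / Q.eval z)).re)
    (hS : S.natDegree ≤ n) (hU : U.natDegree ≤ n) (hd : X ^ (n + 1) ∣ P - Q * S) :
    0 ≤ ∑ j ∈ range (n + 1), (conj (U.coeff j) * S.coeff j).re := by
  obtain ⟨R, hR⟩ := hd
  have hcQ : ContinuousOn (fun z : ℂ => R.eval z / Q.eval z) (Metric.sphere 0 1) := by
    apply R.continuous.continuousOn.div Q.continuous.continuousOn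
    intro z hz
    rw [mem_sphere_zero_iff_norm] at hz
    exact hQ z hz.le
  have hc1 : ContinuousOn (fun z : ℂ => conj (U.eval z) * (z ^ (n + 1) * (R.eval z / Q.eval z)))
      (Metric.sphere 0 1) := by
    refine ContinuousOn.mul ?_ (ContinuousOn.mul (by fun_prop) hcQ)
    exact (Complex.continuous_conj.comp U.continuous).continuousOn
  have e2 : Continuous fun z => (conj (U.eval z) * S.eval z).re :=
    Complex.continuous_re.comp ((Complex.continuous_conj.comp U.continuous).mul S.continuous)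
  rw [← pars2 hU hS]
  have hadd := Real.circleAverage_fun_add (c := 0) (R := 1)
    (f₁ := fun z => (conj (U.eval z) * S.eval z).re)
    (f₂ := fun z => (conj (U.eval z) * (z ^ (n + 1) * (R.eval z / Q.eval z))).re)
    (ci e2) (ciOn (Complex.continuous_re.comp_continuousOn hc1))
  have h0 : Real.circleAverage
      (fun z => (conj (U.eval z) * (z ^ (n + 1) * (R.eval z / Q.eval z))).re) 0 1 = 0 := by
    rw [avg_re hc1, tail hU hQ]
    simp
  rw [h0, add_zero] at hadd
  rw [← hadd]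
  apply Real.circleAverage_nonneg_of_nonneg
  intro z hz
  rw [abs_one, mem_sphere_zero_iff_norm] at hz
  have hq := hQ z hz.le
  have h1 : P.eval z / Q.eval z = S.eval z + z ^ (n + 1) * (R.eval z / Q.eval z) := by
    have h2 := congrArg (fun f : ℂ[X] => f.eval z) hR
    simp only [eval_sub, eval_mul, eval_pow, eval_X] at h2
    field_simp
    linear_combination h2
  have h3 := hre z hz
  rw [h1, mul_add, Complex.add_re] at h3
  exact h3

theorem split_cdisc {B : ℂ[X]} (hB : B ≠ 0) {k : ℕ}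
    (hk : (B.roots.filter fun z => ‖z‖ ≤ 1).card ≤ k) :
    ∃ W B1 : ℂ[X], W.Monic ∧ W.natDegree ≤ k ∧ B = W * B1 ∧ ∀ z : ℂ, ‖z‖ ≤ 1 → B1.eval z ≠ 0 := by
  classical
  obtain ⟨s, hs⟩ : ∃ s, s = B.roots.filter fun z => ‖z‖ ≤ 1 := ⟨_, rfl⟩
  obtain ⟨W, hW⟩ : ∃ W : ℂ[X], W = (s.map fun a => X - C a).prod := ⟨_, rfl⟩
  have hmon : W.Monic := by
    rw [hW]
    exact monic_multiset_prod_of_monic s (fun a : ℂ => X - C a) fun a _ => monic_X_sub_C a
  have hWr : W.roots = s := by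
    rw [hW]
    exact roots_multiset_prod_X_sub_C s
  have hWd : W.natDegree = s.card := by
    rw [hW]
    exact natDegree_multiset_prod_X_sub_C_eq_card s
  have hdvd : W ∣ B := by
    rw [hW, Multiset.prod_X_sub_C_dvd_iff_le_roots hB, hs]
    exact Multiset.filter_le _ _
  obtain ⟨B1, hB1⟩ := hdvd
  have hB10 : B1 ≠ 0 := by
    rintro rfl
    rw [mul_zero] at hB1
    exact hB hB1
  refine ⟨W, B1, hmon, by rw [hWd, hs]; exact hk, hB1, ?_⟩
  intro z hz h0
  have h1 : B.roots = s + B1.roots := by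
    rw [hB1, roots_mul (mul_ne_zero hmon.ne_zero hB10), hWr]
  have h2 : s = s + B1.roots.filter fun z => ‖z‖ ≤ 1 := by
    conv_lhs => rw [hs, h1, Multiset.filter_add]
    congr 1
    rw [hs, Multiset.filter_filter]
    simp
  have h3 : (B1.roots.filter fun z => ‖z‖ ≤ 1) = 0 := by
    have h4 := congrArg Multiset.card h2
    rw [Multiset.card_add] at h4
    exact Multiset.card_eq_zero.mp (by lia)
  have h4 : z ∈ B1.roots.filter fun z => ‖z‖ ≤ 1 :=
    Multiset.mem_filter.mpr ⟨(mem_roots hB10).mpr h0, hz⟩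
  rw [h3] at h4
  exact Multiset.notMem_zero z h4

/-- CARATHEODORY FUNCTIONS WITH `k` POLES (in the closed disc). -/
theorem carath {n k : ℕ} {A B : ℂ[X]} (hB : B ≠ 0)
    (hk : (B.roots.filter fun z => ‖z‖ ≤ 1).card ≤ k)
    (hre : ∀ z : ℂ, ‖z‖ = 1 → 0 ≤ (A.eval z * conj (B.eval z)).re) {r : ℂ[X]}
    (hr : X ^ (n + 1) ∣ A - B * r) (u : Fin (k + 1) → ℂ[X]) (hu : ∀ i, (u i).natDegree ≤ n) :
    ∃ c : Fin (k + 1) → ℂ, c ≠ 0 ∧
      0 ≤ ∑ j ∈ range (n + 1), (conj ((∑ i, C (c i) * u i).coeff j) *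
        (r * ∑ i, C (c i) * u i).coeff j).re := by
  obtain ⟨W, B1, hmon, hWk, hBW, hB1⟩ := split_cdisc hB hk
  obtain ⟨c, hc0, V, hV⟩ := exists_comb hmon hWk u
  refine ⟨c, hc0, ?_⟩
  obtain ⟨U, hU⟩ : ∃ U, U = ∑ i, C (c i) * u i := ⟨_, rfl⟩
  rw [← hU] at hV ⊢
  have hUd : U.natDegree ≤ n := by
    rw [hU]
    refine natDegree_sum_le_of_forall_le _ _ fun i _ => ?_
    exact (natDegree_C_mul_le _ _).trans (hu i)
  have hW0 : ∀ z : ℂ, ‖z‖ = 1 → 0 ≤ (conj (U.eval z) * ((A * V).eval z / B1.eval z)).re := by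
    intro z hz
    have h1 := hre z hz
    have hb := hB1 z hz.le
    rw [hBW, eval_mul] at h1
    rw [hV, eval_mul, eval_mul]
    have hns : (0 : ℝ) < Complex.normSq (B1.eval z) := Complex.normSq_pos.mpr hb
    have h2 : conj (W.eval z * V.eval z) * (A.eval z * V.eval z / B1.eval z) =
        ((Complex.normSq (V.eval z) / Complex.normSq (B1.eval z) : ℝ) : ℂ) *
          (A.eval z * conj (W.eval z * B1.eval z)) := by
      rw [Complex.ofReal_div, ← Complex.mul_conj, ← Complex.mul_conj, map_mul, map_mul]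
      have hb' : conj (B1.eval z) ≠ 0 := (_root_.map_ne_zero _).mpr hb
      field_simp
    rw [h2, Complex.re_ofReal_mul]
    exact mul_nonneg (div_nonneg (Complex.normSq_nonneg _) hns.le) h1
  have h1 : ∀ j ∈ range (n + 1), (conj (U.coeff j) * (r * U).coeff j).re =
      (conj (U.coeff j) * (tr n (r * U)).coeff j).re := by
    intro j hj
    rw [mem_range] at hj
    rw [tr_coeff, if_pos (by lia)]
  rw [Finset.sum_congr rfl h1]
  refine toep0 hB1 hW0 (tr_deg n _) hUd ?_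
  have h2 : A * V - B1 * tr n (r * U) = V * (A - B * r) + B1 * (r * U - tr n (r * U)) := by
    rw [hBW, hV]
    ring
  rw [h2]
  exact dvd_add (hr.mul_left _) ((tr_dvd n _).mul_left _)

/-! ## Certificates with real data -/

/-- Convolution. -/
def cv (r v : ℕ → ℝ) (j : ℕ) : ℝ := ∑ i ∈ range (j + 1), r i * v (j - i)

/-- The polynomial with the coefficients `v 0, ..., v n`. -/
noncomputable def pl (n : ℕ) (v : ℕ → ℝ) : ℂ[X] := ∑ j ∈ range (n + 1), C (v j : ℂ) * X ^ j

theorem pl_coeff (n : ℕ) (v : ℕ → ℝ) (j : ℕ) :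
    (pl n v).coeff j = if j ≤ n then (v j : ℂ) else 0 := by
  unfold pl
  rw [finsetSum_coeff]
  simp only [coeff_C_mul_X_pow]
  rw [Finset.sum_ite_eq]
  simp only [mem_range, Nat.lt_succ_iff]

theorem pl_deg (n : ℕ) (v : ℕ → ℝ) : (pl n v).natDegree ≤ n := by
  rw [natDegree_le_iff_coeff_eq_zero]
  intro j hj
  rw [pl_coeff, if_neg (by lia)]

theorem pl_mul_coeff (n : ℕ) (r v : ℕ → ℝ) {j : ℕ} (hj : j ≤ n) :
    (pl n r * pl n v).coeff j = (cv r v j : ℂ) := by
  rw [coeff_mul, Finset.Nat.sum_antidiagonal_eq_sum_range_succ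
    (fun i l => (pl n r).coeff i * (pl n v).coeff l)]
  unfold cv
  rw [Complex.ofReal_sum]
  refine Finset.sum_congr rfl fun i hi => ?_
  rw [mem_range] at hi
  rw [pl_coeff, pl_coeff, if_pos (by lia), if_pos (by lia), Complex.ofReal_mul]

theorem comb_coeff {k n : ℕ} (c : Fin (k + 1) → ℂ) (v : Fin (k + 1) → ℕ → ℝ) {j : ℕ} (hj : j ≤ n) :
    (∑ i, C (c i) * pl n (v i)).coeff j = ∑ i, c i * (v i j : ℂ) := by
  rw [finsetSum_coeff]
  refine Finset.sum_congr rfl fun i _ => ?_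
  rw [coeff_C_mul, pl_coeff, if_pos hj]

theorem comb_mul_coeff {k n : ℕ} (c : Fin (k + 1) → ℂ) (r : ℕ → ℝ) (v : Fin (k + 1) → ℕ → ℝ)
    {j : ℕ} (hj : j ≤ n) :
    (pl n r * ∑ i, C (c i) * pl n (v i)).coeff j = ∑ i, c i * (cv r (v i) j : ℂ) := by
  rw [Finset.mul_sum, finsetSum_coeff]
  refine Finset.sum_congr rfl fun i _ => ?_
  rw [mul_left_comm, coeff_C_mul, pl_mul_coeff n r (v i) hj]

theorem normsq_comb {k : ℕ} (c : Fin (k + 1) → ℂ) (s : Fin (k + 1) → ℝ) :
    ‖∑ i, c i * (s i : ℂ)‖ ^ 2 = (∑ i, (c i).re * s i) ^ 2 + (∑ i, (c i).im * s i) ^ 2 := by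
  rw [← Complex.normSq_eq_norm_sq, Complex.normSq_apply, Complex.re_sum, Complex.im_sum]
  simp only [Complex.mul_re, Complex.mul_im, Complex.ofReal_re, Complex.ofReal_im, mul_zero,
    sub_zero, zero_add]
  ring

theorem re_comb {k : ℕ} (c : Fin (k + 1) → ℂ) (s t : Fin (k + 1) → ℝ) :
    (conj (∑ i, c i * (s i : ℂ)) * ∑ i, c i * (t i : ℂ)).re =
      (∑ i, (c i).re * s i) * (∑ i, (c i).re * t i) +
        (∑ i, (c i).im * s i) * (∑ i, (c i).im * t i) := by
  rw [Complex.mul_re, Complex.conj_re, Complex.conj_im, Complex.re_sum, Complex.im_sum,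
    Complex.re_sum, Complex.im_sum]
  simp only [Complex.mul_re, Complex.mul_im, Complex.ofReal_re, Complex.ofReal_im, mul_zero,
    sub_zero, zero_add]
  ring

theorem rel_dvd {n : ℕ} {A B : ℂ[X]} {r : ℕ → ℝ}
    (hr : ∀ j ≤ n, A.coeff j = ∑ i ∈ range (j + 1), B.coeff i * (r (j - i) : ℂ)) :
    X ^ (n + 1) ∣ A - B * pl n r := by
  rw [X_pow_dvd_iff]
  intro j hj
  rw [coeff_sub, coeff_mul, Finset.Nat.sum_antidiagonal_eq_sum_range_succ
    (fun i l => B.coeff i * (pl n r).coeff l), hr j (by lia), sub_eq_zero]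
  refine Finset.sum_congr rfl fun i hi => ?_
  rw [mem_range] at hi
  rw [pl_coeff, if_pos (by lia)]

/-- Certificate: there is no Schur function with at most `k` poles and these coefficients. -/
theorem schur_cert {n k : ℕ} {A B : ℂ[X]} (hB : B ≠ 0)
    (hk : (B.roots.filter fun z => ‖z‖ < 1).card ≤ k)
    (hle : ∀ z : ℂ, ‖z‖ = 1 → ‖A.eval z‖ ≤ ‖B.eval z‖) {r : ℕ → ℝ}
    (hr : ∀ j ≤ n, A.coeff j = ∑ i ∈ range (j + 1), B.coeff i * (r (j - i) : ℂ))
    (v : Fin (k + 1) → ℕ → ℝ)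
    (hpos : ∀ x : Fin (k + 1) → ℝ, x ≠ 0 → ∑ j ∈ range (n + 1), (∑ i, x i * v i j) ^ 2 <
      ∑ j ∈ range (n + 1), (∑ i, x i * cv r (v i) j) ^ 2) : False := by
  obtain ⟨c, hc0, hc⟩ := schur hB hk hle (rel_dvd hr) (fun i => pl n (v i)) (fun i => pl_deg n _)
  have h1 : ∑ j ∈ range (n + 1), ‖(pl n r * ∑ i, C (c i) * pl n (v i)).coeff j‖ ^ 2 =
      ∑ j ∈ range (n + 1), (∑ i, (c i).re * cv r (v i) j) ^ 2 +
        ∑ j ∈ range (n + 1), (∑ i, (c i).im * cv r (v i) j) ^ 2 := by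
    rw [← Finset.sum_add_distrib]
    refine Finset.sum_congr rfl fun j hj => ?_
    rw [mem_range] at hj
    rw [comb_mul_coeff c r v (by lia), normsq_comb]
  have h2 : ∑ j ∈ range (n + 1), ‖(∑ i, C (c i) * pl n (v i)).coeff j‖ ^ 2 =
      ∑ j ∈ range (n + 1), (∑ i, (c i).re * v i j) ^ 2 +
        ∑ j ∈ range (n + 1), (∑ i, (c i).im * v i j) ^ 2 := by
    rw [← Finset.sum_add_distrib]
    refine Finset.sum_congr rfl fun j hj => ?_
    rw [mem_range] at hj
    rw [comb_coeff c v (by lia), normsq_comb]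
  rw [h1, h2] at hc
  have h3 : ∀ x : Fin (k + 1) → ℝ, ∑ j ∈ range (n + 1), (∑ i, x i * v i j) ^ 2 ≤
      ∑ j ∈ range (n + 1), (∑ i, x i * cv r (v i) j) ^ 2 := by
    intro x
    by_cases hx : x = 0
    · rw [hx]
      simp
    · exact (hpos x hx).le
  have h4 : (fun i => (c i).re) ≠ 0 ∨ (fun i => (c i).im) ≠ 0 := by
    by_contra hcon
    push Not at hcon
    apply hc0
    funext i
    exact Complex.ext (congrFun hcon.1 i) (congrFun hcon.2 i)
  rcases h4 with h4 | h4
  · have h5 := hpos _ h4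
    have h6 := h3 fun i => (c i).im
    linarith
  · have h5 := hpos _ h4
    have h6 := h3 fun i => (c i).re
    linarith

/-- Certificate: there is no Caratheodory function with at most `k` poles and these coefficients. -/
theorem carath_cert {n k : ℕ} {A B : ℂ[X]} (hB : B ≠ 0)
    (hk : (B.roots.filter fun z => ‖z‖ ≤ 1).card ≤ k)
    (hre : ∀ z : ℂ, ‖z‖ = 1 → 0 ≤ (A.eval z * conj (B.eval z)).re) {r : ℕ → ℝ}
    (hr : ∀ j ≤ n, A.coeff j = ∑ i ∈ range (j + 1), B.coeff i * (r (j - i) : ℂ))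
    (v : Fin (k + 1) → ℕ → ℝ)
    (hneg : ∀ x : Fin (k + 1) → ℝ, x ≠ 0 →
      ∑ j ∈ range (n + 1), (∑ i, x i * v i j) * (∑ i, x i * cv r (v i) j) < 0) : False := by
  obtain ⟨c, hc0, hc⟩ := carath hB hk hre (rel_dvd hr) (fun i => pl n (v i)) (fun i => pl_deg n _)
  have h1 : ∑ j ∈ range (n + 1), (conj ((∑ i, C (c i) * pl n (v i)).coeff j) *
        (pl n r * ∑ i, C (c i) * pl n (v i)).coeff j).re =
      ∑ j ∈ range (n + 1), (∑ i, (c i).re * v i j) * (∑ i, (c i).re * cv r (v i) j) +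
        ∑ j ∈ range (n + 1), (∑ i, (c i).im * v i j) * (∑ i, (c i).im * cv r (v i) j) := by
    rw [← Finset.sum_add_distrib]
    refine Finset.sum_congr rfl fun j hj => ?_
    rw [mem_range] at hj
    rw [comb_mul_coeff c r v (by lia), comb_coeff c v (by lia), re_comb]
  rw [h1] at hc
  have h3 : ∀ x : Fin (k + 1) → ℝ,
      ∑ j ∈ range (n + 1), (∑ i, x i * v i j) * (∑ i, x i * cv r (v i) j) ≤ 0 := by
    intro x
    by_cases hx : x = 0
    · rw [hx]
      simp
    · exact (hneg x hx).le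
  have h4 : (fun i => (c i).re) ≠ 0 ∨ (fun i => (c i).im) ≠ 0 := by
    by_contra hcon
    push Not at hcon
    apply hc0
    funext i
    exact Complex.ext (congrFun hcon.1 i) (congrFun hcon.2 i)
  rcases h4 with h4 | h4
  · have h5 := hneg _ h4
    have h6 := h3 fun i => (c i).im
    linarith
  · have h5 := hneg _ h4
    have h6 := h3 fun i => (c i).re
    linarith

end Pool.Agent.B5.Krein
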